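import Pool.Agent.Helper58.ExtDefs

/-!
# The disc algebra

The closed subalgebra generated by the identity function on the closed unit disc satisfies
the hypotheses of `IsAdmissible`.
-/

set_option autoImplicit false

noncomputable section

open MeasureTheory Filter Topology
open scoped ENNReal NNReal ComplexConjugate

namespace Pool.Agent.Helper58.Ext

/-- The closed unit disc. -/
abbrev Disc : Type := Metric.closedBall (0 : ℂ) 1

instance : CompactSpace Disc := isCompact_iff_compactSpace.mp (isCompact_closedBall 0 1)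

instance : Nonempty Disc := ⟨⟨0, by simp⟩⟩

/-- The coordinate function. -/
def Z : C(Disc, ℂ) := ⟨Subtype.val, continuous_subtype_val⟩

@[simp] lemma Z_apply (s : Disc) : Z s = (s : ℂ) := rfl

/-- Polynomials. -/
def Poly : Subalgebra ℂ C(Disc, ℂ) := Algebra.adjoin ℂ {Z}

/-- The disc algebra. -/
def DA : Subalgebra ℂ C(Disc, ℂ) := Poly.topologicalClosure

lemma DA_closed : IsClosed (DA : Set C(Disc, ℂ)) := Subalgebra.isClosed_topologicalClosure _

lemma Z_mem_Poly : Z ∈ Poly := Algebra.subset_adjoin rfl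

lemma Poly_le : Poly ≤ DA := Subalgebra.le_topologicalClosure _

lemma Z_mem : Z ∈ DA := Poly_le Z_mem_Poly

lemma Disc.norm_le (s : Disc) : ‖(s : ℂ)‖ ≤ 1 := mem_closedBall_zero_iff.mp s.2

lemma norm_Z : ‖Z‖ ≤ 1 := by
  rw [ContinuousMap.norm_le _ zero_le_one]
  intro s
  exact s.norm_le

lemma DA_induction {P : C(Disc, ℂ) → Prop} (hcl : IsClosed {f | P f})
    (hZ : P Z) (hc : ∀ c : ℂ, P (algebraMap ℂ _ c))
    (hadd : ∀ f g, P f → P g → P (f + g)) (hmul : ∀ f g, P f → P g → P (f * g)) :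
    ∀ f ∈ DA, P f := by
  intro f hf
  have h1 : (DA : Set C(Disc, ℂ)) ⊆ {f | P f} := by
    have : (DA : Set C(Disc, ℂ)) = closure (Poly : Set C(Disc, ℂ)) :=
      Subalgebra.topologicalClosure_coe _
    rw [this]
    apply closure_minimal _ hcl
    intro g hg
    refine Algebra.adjoin_induction (p := fun g _ => P g) ?_ ?_ ?_ ?_ hg
    · intro x hx
      rw [Set.mem_singleton_iff] at hx
      rw [hx]; exact hZ
    · exact hc
    · intro x y _ _ hx hy; exact hadd x y hx hy
    · intro x y _ _ hx hy; exact hmul x y hx hy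
  exact h1 hf

lemma DA_eval (φ : DA →ₐ[ℂ] ℂ) (hφ : Continuous φ) :
    ∃! s : Disc, ∀ f : DA, φ f = (f : C(Disc, ℂ)) s := by
  let z : DA := ⟨Z, Z_mem⟩
  have hz : ‖φ z‖ ≤ 1 := by
    by_contra hcon
    push Not at hcon
    let L : DA →L[ℂ] ℂ := ⟨φ.toLinearMap, hφ⟩
    obtain ⟨n, hn⟩ := ((tendsto_pow_atTop_atTop_of_one_lt hcon).eventually_gt_atTop ‖L‖).exists
    have h1 : ‖L (z ^ n)‖ ≤ ‖L‖ * ‖z ^ n‖ := L.le_opNorm _
    have h2 : L (z ^ n) = φ z ^ n := map_pow φ z n
    have h3 : ‖z ^ n‖ ≤ 1 := by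
      change ‖Z ^ n‖ ≤ 1
      calc ‖Z ^ n‖ ≤ ‖Z‖ ^ n := norm_pow_le _ _
        _ ≤ 1 := pow_le_one₀ (norm_nonneg _) norm_Z
    rw [h2, norm_pow] at h1
    have h4 : ‖L‖ * ‖z ^ n‖ ≤ ‖L‖ * 1 := mul_le_mul_of_nonneg_left h3 L.opNorm_nonneg
    linarith
  let s₀ : Disc := ⟨φ z, by simpa using hz⟩
  have hs₀ : ∀ f : DA, φ f = (f : C(Disc, ℂ)) s₀ := by
    intro f
    -- use polynomials approximating
    have key : ∀ g (hg : g ∈ Poly), φ ⟨g, Poly_le hg⟩ = g s₀ := by
      intro g hg
      refine Algebra.adjoin_induction (p := fun g hg => φ ⟨g, Poly_le hg⟩ = g s₀) ?_ ?_ ?_ ?_ hg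
      · intro x hx
        rw [Set.mem_singleton_iff] at hx
        subst hx
        rfl
      · intro r
        have : (⟨algebraMap ℂ C(Disc, ℂ) r, Poly_le (Poly.algebraMap_mem r)⟩ : DA)
            = algebraMap ℂ DA r := rfl
        rw [this, AlgHom.commutes]
        rfl
      · intro x y hx hy h1 h2
        have : (⟨x + y, Poly_le (Poly.add_mem hx hy)⟩ : DA)
            = ⟨x, Poly_le hx⟩ + ⟨y, Poly_le hy⟩ := rfl
        rw [this, map_add, h1, h2]
        rfl
      · intro x y hx hy h1 h2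
        have : (⟨x * y, Poly_le (Poly.mul_mem hx hy)⟩ : DA)
            = ⟨x, Poly_le hx⟩ * ⟨y, Poly_le hy⟩ := rfl
        rw [this, map_mul, h1, h2]
        rfl
    have hf : (f : C(Disc, ℂ)) ∈ closure (Poly : Set C(Disc, ℂ)) := f.2
    obtain ⟨g, hg, hlim⟩ := mem_closure_iff_seq_limit.mp hf
    have h1 : Tendsto (fun n => φ ⟨g n, Poly_le (hg n)⟩) atTop (𝓝 (φ f)) := by
      refine (hφ.tendsto f).comp ?_
      rw [tendsto_subtype_rng]
      exact hlim
    have h2 : Tendsto (fun n => φ ⟨g n, Poly_le (hg n)⟩) atTop (𝓝 ((f : C(Disc, ℂ)) s₀)) := by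
      have : (fun n => φ ⟨g n, Poly_le (hg n)⟩) = fun n => g n s₀ := by
        funext n; exact key _ (hg n)
      rw [this]
      exact ((continuous_eval_const s₀).tendsto _).comp hlim
    exact tendsto_nhds_unique h1 h2
  refine ⟨s₀, hs₀, ?_⟩
  intro s hs
  have h1 := hs z
  have h2 := hs₀ z
  apply Subtype.ext
  change (s : ℂ) = (s₀ : ℂ)
  change φ z = (s : ℂ) at h1
  change φ z = (s₀ : ℂ) at h2
  rw [← h1, ← h2]

/-- A small perturbation of `1` is an exponential. -/
lemma exists_exp_of_norm_lt {u : C(Disc, ℂ)} (hu : u ∈ DA) (h1 : ‖u‖ < 1) :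
    ∃ h ∈ DA, ∀ s, 1 - u s = Complex.exp (h s) := by
  have hsum : Summable (fun n : ℕ => (n : ℂ)⁻¹ • u ^ n) := by
    apply Summable.of_norm_bounded (g := fun n : ℕ => ‖u‖ ^ n)
      (summable_geometric_of_lt_one (norm_nonneg _) h1)
    intro n
    rw [norm_smul]
    have h2 : ‖((n : ℂ))⁻¹‖ ≤ 1 := by
      rcases Nat.eq_zero_or_pos n with rfl | hn
      · simp
      · rw [norm_inv, Complex.norm_natCast]
        exact inv_le_one_of_one_le₀ (by exact_mod_cast hn)
    calc ‖((n : ℂ))⁻¹‖ * ‖u ^ n‖ ≤ 1 * ‖u‖ ^ n :=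
          mul_le_mul h2 (norm_pow_le _ _) (norm_nonneg _) zero_le_one
      _ = _ := one_mul _
  refine ⟨-(∑' n : ℕ, (n : ℂ)⁻¹ • u ^ n), ?_, ?_⟩
  · apply DA.neg_mem
    have hh := hsum.hasSum
    refine DA_closed.mem_of_tendsto hh (Eventually.of_forall ?_)
    intro F
    exact DA.sum_mem (fun n _ => DA.smul_mem (DA.pow_mem hu n) _)
  · intro s
    have hus : ‖u s‖ < 1 := lt_of_le_of_lt (u.norm_coe_le_norm s) h1
    have h2 := Complex.hasSum_taylorSeries_neg_log hus
    have h3 : HasSum (fun n : ℕ => ((n : ℂ)⁻¹ • u ^ n) s) ((∑' n : ℕ, (n : ℂ)⁻¹ • u ^ n) s) :=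
      (hsum.hasSum).map (ContinuousMap.evalCLM ℂ s) (ContinuousMap.evalCLM ℂ s).continuous
    have h4 : (∑' n : ℕ, (n : ℂ)⁻¹ • u ^ n) s = -Complex.log (1 - u s) := by
      refine h3.unique ?_
      convert h2 using 2 with n
      simp [div_eq_inv_mul]
    rw [ContinuousMap.neg_apply, h4, neg_neg, Complex.exp_log]
    intro h0
    rw [sub_eq_zero] at h0
    rw [← h0] at hus
    simp at hus

/-- The dilation `s ↦ r s` of the disc. -/
def dil (r : unitInterval) : C(Disc, Disc) where
  toFun s := ⟨(r : ℝ) * (s : ℂ), by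
    have h1 : |(r : ℝ)| ≤ 1 := by
      rw [abs_of_nonneg r.2.1]; exact r.2.2
    simp only [mem_closedBall_zero_iff, norm_mul, Complex.norm_real, Real.norm_eq_abs]
    calc |(r : ℝ)| * ‖(s : ℂ)‖ ≤ 1 * 1 := mul_le_mul h1 s.norm_le (norm_nonneg _) zero_le_one
      _ = 1 := one_mul _⟩
  continuous_toFun := by fun_prop

lemma dil_comp_mem (r : unitInterval) : ∀ f ∈ DA, f.comp (dil r) ∈ DA := by
  apply DA_induction
  · have : Continuous (fun f : C(Disc, ℂ) => f.comp (dil r)) :=
      ContinuousMap.continuous_precomp _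
    exact DA_closed.preimage this
  · have : Z.comp (dil r) = ((r : ℝ) : ℂ) • Z := by
      ext s
      simp [dil]
    rw [this]
    exact DA.smul_mem Z_mem _
  · intro c
    exact DA.algebraMap_mem c
  · intro f g hf hg
    exact DA.add_mem hf hg
  · intro f g hf hg
    exact DA.mul_mem hf hg

lemma DA_exp {f g : C(Disc, ℂ)} (hf : f ∈ DA) (hg : g ∈ DA) (hfg : f * g = 1) :
    ∃ h ∈ DA, ∀ s, f s = Complex.exp (h s) := by
  have hfgs : ∀ s, f s * g s = 1 := fun s => by
    rw [← ContinuousMap.mul_apply, hfg]; rfl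
  have hgpos : 0 < ‖g‖ := by
    rw [norm_pos_iff]
    rintro rfl
    have := hfgs ⟨0, by simp⟩
    simp at this
  -- uniform continuity of f
  have huc : UniformContinuous f := CompactSpace.uniformContinuous_of_continuous f.continuous
  rw [Metric.uniformContinuous_iff] at huc
  obtain ⟨δ, hδ, hfδ⟩ := huc (1 / (2 * ‖g‖)) (by positivity)
  obtain ⟨N, hN⟩ := exists_nat_gt (1 / δ)
  have hNpos : 0 < N := by
    have : (0 : ℝ) < N := lt_trans (by positivity) hN
    exact_mod_cast this
  have hNr : (0 : ℝ) < N := by exact_mod_cast hNpos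
  let r : ℕ → unitInterval := fun i => ⟨min (i / N : ℝ) 1, by
    constructor
    · exact le_min (by positivity) zero_le_one
    · exact min_le_right _ _⟩
  have hr : ∀ i, i ≤ N → ((r i : unitInterval) : ℝ) = i / N := by
    intro i hi
    change min (i / N : ℝ) 1 = _
    rw [min_eq_left]
    rw [div_le_one hNr]
    exact_mod_cast hi
  have key : ∀ i, i ≤ N → ∃ h ∈ DA, ∀ s, f (dil (r i) s) = Complex.exp (h s) := by
    intro i
    induction i with
    | zero =>
      intro _
      refine ⟨algebraMap ℂ _ (Complex.log (f ⟨0, by simp⟩)), DA.algebraMap_mem _, ?_⟩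
      intro s
      have h0 : dil (r 0) s = ⟨0, by simp⟩ := by
        apply Subtype.ext
        change ((r 0 : ℝ) : ℂ) * (s : ℂ) = 0
        rw [hr 0 (Nat.zero_le _)]
        simp
      rw [h0]
      change _ = Complex.exp (Complex.log _)
      rw [Complex.exp_log]
      intro h1
      have := hfgs ⟨0, by simp⟩
      rw [h1] at this
      simp at this
    | succ i ih =>
      intro hi
      obtain ⟨h, hh, hfh⟩ := ih (by omega)
      set f₀ := f.comp (dil (r i)) with hf₀
      set f₁ := f.comp (dil (r (i + 1))) with hf₁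
      set g₀ := g.comp (dil (r i)) with hg₀
      have hu : (f₀ - f₁) * g₀ ∈ DA :=
        DA.mul_mem (DA.sub_mem (dil_comp_mem _ _ hf) (dil_comp_mem _ _ hf)) (dil_comp_mem _ _ hg)
      have hnu : ‖(f₀ - f₁) * g₀‖ < 1 := by
        have h1 : ‖(f₀ - f₁) * g₀‖ ≤ 1 / 2 := by
          rw [ContinuousMap.norm_le _ (by norm_num)]
          intro s
          have h2 : ‖f₀ s - f₁ s‖ < 1 / (2 * ‖g‖) := by
            rw [← dist_eq_norm]
            apply hfδ
            rw [Subtype.dist_eq]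
            change dist (((r i : ℝ) : ℂ) * (s : ℂ)) (((r (i + 1) : ℝ) : ℂ) * (s : ℂ)) < δ
            rw [dist_eq_norm, ← sub_mul, norm_mul, hr i (by omega), hr (i + 1) hi]
            have h3 : (((i / N : ℝ) : ℂ) - (((i + 1 : ℕ) / N : ℝ) : ℂ)) = ((-(1 / N) : ℝ) : ℂ) := by
              rw [← Complex.ofReal_sub]
              congr 1
              push_cast
              ring
            rw [h3, Complex.norm_real, norm_neg, Real.norm_of_nonneg (by positivity)]
            calc 1 / (N : ℝ) * ‖(s : ℂ)‖ ≤ 1 / N * 1 :=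
                  mul_le_mul_of_nonneg_left s.norm_le (by positivity)
              _ = 1 / N := mul_one _
              _ < δ := by
                rw [div_lt_iff₀ hNr]
                rw [div_lt_iff₀ hδ] at hN
                linarith [mul_comm (N : ℝ) δ]
          have h4 : ‖g₀ s‖ ≤ ‖g‖ := g.norm_coe_le_norm _
          rw [ContinuousMap.mul_apply, norm_mul, ContinuousMap.sub_apply]
          calc ‖f₀ s - f₁ s‖ * ‖g₀ s‖ ≤ 1 / (2 * ‖g‖) * ‖g‖ :=
                mul_le_mul h2.le h4 (norm_nonneg _) (by positivity)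
            _ = 1 / 2 := by field_simp
        linarith
      obtain ⟨k, hk, hku⟩ := exists_exp_of_norm_lt hu hnu
      refine ⟨h + k, DA.add_mem hh hk, ?_⟩
      intro s
      rw [ContinuousMap.add_apply, Complex.exp_add, ← hfh s, ← hku s]
      rw [ContinuousMap.mul_apply, ContinuousMap.sub_apply]
      have h5 : f₀ s * g₀ s = 1 := hfgs _
      have h6 : f (dil (r i) s) = f₀ s := rfl
      have h7 : f (dil (r (i + 1)) s) = f₁ s := rfl
      rw [h6, h7]
      linear_combination (f₀ s - f₁ s) * h5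
  obtain ⟨h, hh, hfh⟩ := key N le_rfl
  refine ⟨h, hh, ?_⟩
  intro s
  rw [← hfh s]
  congr 1
  apply Subtype.ext
  change (s : ℂ) = ((r N : ℝ) : ℂ) * (s : ℂ)
  rw [hr N le_rfl, div_self hNr.ne']
  simp

theorem DA_admissible : IsAdmissible DA where
  closed := DA_closed
  eval := DA_eval
  exp := fun _ hf _ hg hfg => DA_exp hf hg hfg

end Pool.Agent.Helper58.Ext
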