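import Mathlib

/-!
# Extremal measures for uniform algebras

Definitions for problem `MP_71b3bb_an`.
-/

set_option autoImplicit false

noncomputable section

open MeasureTheory
open scoped ENNReal NNReal ComplexConjugate

namespace Pool.Agent.Helper58.Ext

/-- The canonical map of `E` into its double dual is surjective. -/
def IsReflexive (E : Type) [SeminormedAddCommGroup E] [NormedSpace ℂ E] : Prop :=
  Function.Surjective (NormedSpace.inclusionInDoubleDual ℂ E)

variable {S : Type} [TopologicalSpace S] [CompactSpace S]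

/-- `A` is a uniformly closed subalgebra of `C(S, ℂ)` (it contains the constants), every
continuous multiplicative linear functional on `A` is evaluation at exactly one point, and every
`f ∈ A` with `1 / f ∈ A` is the exponential of an element of `A`. -/
structure IsAdmissible (A : Subalgebra ℂ C(S, ℂ)) : Prop where
  closed : IsClosed (A : Set C(S, ℂ))
  eval : ∀ φ : A →ₐ[ℂ] ℂ, Continuous φ → ∃! s : S, ∀ f : A, φ f = (f : C(S, ℂ)) s
  exp : ∀ f ∈ A, ∀ g ∈ A, f * g = 1 → ∃ h ∈ A, ∀ s, f s = Complex.exp (h s)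

variable [MeasurableSpace S] [OpensMeasurableSpace S]

/-- `μ` and `ν` integrate every function of `A` to the same value. -/
def Equivalent (A : Subalgebra ℂ C(S, ℂ)) (μ ν : FiniteMeasure S) : Prop :=
  ∀ f ∈ A, ∫ s, f s ∂(μ : Measure S) = ∫ s, f s ∂(ν : Measure S)

/-- The weak-* closure of the set of measures that are absolutely continuous with respect to
`μ` and equivalent to `μ`. -/
def K (A : Subalgebra ℂ C(S, ℂ)) (μ : FiniteMeasure S) : Set (FiniteMeasure S) :=
  closure {ν | (ν : Measure S) ≪ (μ : Measure S) ∧ Equivalent A ν μ}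

/-- `μ` is an extreme point of `K A μ`. -/
def IsExtremal (A : Subalgebra ℂ C(S, ℂ)) (μ : FiniteMeasure S) : Prop :=
  μ ∈ Set.extremePoints ℝ≥0 (K A μ)

/-- The closure of `{f + conj g : f, g ∈ A}` in `L^∞(μ)` for the topology of the pairing with
`L^1(μ)`. -/
def B (A : Subalgebra ℂ C(S, ℂ)) (μ : Measure S) : Set (Lp ℂ ∞ μ) :=
  {h | ∀ (t : Finset (Lp ℂ 1 μ)) (ε : ℝ), 0 < ε → ∃ f ∈ A, ∃ g ∈ A, ∀ u ∈ t,
    ‖∫ s, (h s - (f s + conj (g s))) * u s ∂μ‖ < ε}

/-- The quotient Banach space `L^∞(μ) / B` is not reflexive. -/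
def QuotientNotReflexive (A : Subalgebra ℂ C(S, ℂ)) (μ : Measure S) : Prop :=
  ∃ M : Submodule ℂ (Lp ℂ ∞ μ), (M : Set (Lp ℂ ∞ μ)) = B A μ ∧ ¬ IsReflexive (Lp ℂ ∞ μ ⧸ M)

end Pool.Agent.Helper58.Ext
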