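import Pool.Agent.Helper58.ExtDefs

/-!
# A criterion for non-reflexivity
-/

set_option autoImplicit false

noncomputable section

open MeasureTheory Filter Topology
open scoped ENNReal NNReal ComplexConjugate

namespace Pool.Agent.Helper58.Ext

variable {E : Type} [SeminormedAddCommGroup E] [NormedSpace ℂ E]

/-- Bounded sequences in a dual space have pointwise limits along ultrafilters. -/
lemma exists_ultralim (U : Ultrafilter ℕ) (δ : ℕ → StrongDual ℂ E) (C : ℝ)
    (hδ : ∀ k, ‖δ k‖ ≤ C) :
    ∃ φ : StrongDual ℂ E, ∀ x, Tendsto (fun k => δ k x) U (𝓝 (φ x)) := by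
  have hc := WeakDual.isCompact_closedBall (𝕜 := ℂ) (E := E) 0 C
  have h1 : ∀ k, StrongDual.toWeakDual (δ k) ∈
      (WeakDual.toStrongDual ⁻¹' Metric.closedBall (0 : StrongDual ℂ E) C) := by
    intro k
    simp only [Set.mem_preimage, mem_closedBall_zero_iff]
    exact hδ k
  obtain ⟨φ, -, hφ⟩ := hc.ultrafilter_le_nhds' (U.map fun k => StrongDual.toWeakDual (δ k))
    (by
      rw [Ultrafilter.mem_map]
      exact Filter.univ_mem' h1)
  refine ⟨WeakDual.toStrongDual φ, ?_⟩
  intro x
  have h2 : Tendsto (fun k => StrongDual.toWeakDual (δ k)) U (𝓝 φ) := hφ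
  exact ((WeakDual.eval_continuous x).tendsto φ).comp h2

/-- A double sequence of step type obstructs reflexivity. -/
theorem not_reflexive (δ : ℕ → StrongDual ℂ E) (q : ℕ → E) (C : ℝ)
    (hδ : ∀ k, ‖δ k‖ ≤ C) (hq : ∀ k, ‖q k‖ ≤ C)
    (hstep : ∀ k K, δ k (q K) = if K < k then 1 else 0) : ¬ IsReflexive E := by
  intro hr
  let U : Ultrafilter ℕ := hyperfilter ℕ
  have hU : (U : Filter ℕ) ≤ atTop := by
    rw [← Nat.cofinite_eq_atTop]
    exact hyperfilter_le_cofinite
  obtain ⟨φ, hφ⟩ := exists_ultralim U δ C hδ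
  obtain ⟨F, hF⟩ := exists_ultralim U (fun K => NormedSpace.inclusionInDoubleDual ℂ E (q K)) C
    (fun k => (NormedSpace.double_dual_bound ℂ E (q k)).trans (hq k))
  obtain ⟨x, hx⟩ := hr F
  -- F (δ k) = 0
  have h1 : ∀ k, F (δ k) = 0 := by
    intro k
    have h2 := hF (δ k)
    have h3 : Tendsto (fun K => NormedSpace.inclusionInDoubleDual ℂ E (q K) (δ k)) U (𝓝 0) := by
      refine Tendsto.mono_left ?_ hU
      apply tendsto_const_nhds.congr'
      filter_upwards [eventually_ge_atTop k] with K hK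
      rw [NormedSpace.dual_def, hstep, if_neg (by omega)]
    exact tendsto_nhds_unique h2 h3
  have h2 : ∀ K, φ (q K) = 1 := by
    intro K
    have h3 : Tendsto (fun k => δ k (q K)) U (𝓝 1) := by
      refine Tendsto.mono_left ?_ hU
      apply tendsto_const_nhds.congr'
      filter_upwards [eventually_gt_atTop K] with k hk
      rw [hstep, if_pos hk]
    exact tendsto_nhds_unique (hφ (q K)) h3
  have h3 : F φ = 1 := by
    have h4 : Tendsto (fun K => NormedSpace.inclusionInDoubleDual ℂ E (q K) φ) U (𝓝 1) := by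
      apply tendsto_const_nhds.congr
      intro K
      rw [NormedSpace.dual_def, h2]
    exact tendsto_nhds_unique (hF φ) h4
  have h4 : F φ = 0 := by
    rw [← hx, NormedSpace.dual_def]
    have h5 : ∀ k, δ k x = 0 := by
      intro k
      have := h1 k
      rw [← hx, NormedSpace.dual_def] at this
      exact this
    have h6 := hφ x
    simp only [h5] at h6
    exact tendsto_nhds_unique h6 tendsto_const_nhds
  rw [h3] at h4
  exact one_ne_zero h4

/-- The same for a quotient space, in terms of functionals on the space. -/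
theorem not_reflexive_quotient (M : Submodule ℂ E) (δ : ℕ → E →ₗ[ℂ] ℂ) (q : ℕ → E) (C : ℝ)
    (hM : ∀ k, ∀ x ∈ M, δ k x = 0)
    (hδ : ∀ k x, ‖δ k x‖ ≤ C * ‖x‖) (hq : ∀ k, ‖q k‖ ≤ C)
    (hstep : ∀ k K, δ k (q K) = if K < k then 1 else 0) : ¬ IsReflexive (E ⧸ M) := by
  have hC : 0 ≤ C := (norm_nonneg _).trans (hq 0)
  have hker : ∀ k, M ≤ LinearMap.ker (δ k) := fun k y hy => by
    rw [LinearMap.mem_ker]; exact hM k y hy
  have hbound : ∀ k, ∀ x : E ⧸ M, ‖M.liftQ (δ k) (hker k) x‖ ≤ C * ‖x‖ := by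
    intro k x
    apply le_of_forall_pos_le_add
    intro ε hε
    obtain ⟨m, hm, hmn⟩ := Submodule.Quotient.norm_mk_lt x (ε := ε / (C + 1)) (by positivity)
    have hval : M.liftQ (δ k) (hker k) x = δ k m := by
      rw [← hm, Submodule.liftQ_apply]
    rw [hval]
    calc ‖δ k m‖ ≤ C * ‖m‖ := hδ k m
      _ ≤ C * (‖x‖ + ε / (C + 1)) := mul_le_mul_of_nonneg_left hmn.le hC
      _ = C * ‖x‖ + C / (C + 1) * ε := by ring
      _ ≤ C * ‖x‖ + 1 * ε := by
        have : C / (C + 1) ≤ 1 := by
          rw [div_le_one (by positivity)]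
          linarith
        have := mul_le_mul_of_nonneg_right this hε.le
        linarith
      _ = _ := by rw [one_mul]
  refine not_reflexive (E := E ⧸ M)
    (fun k => (M.liftQ (δ k) (hker k)).mkContinuous C (hbound k))
    (fun K => Submodule.Quotient.mk (q K)) C ?_ ?_ ?_
  · intro k
    exact LinearMap.mkContinuous_norm_le _ hC _
  · intro k
    exact (Submodule.Quotient.norm_mk_le M (q k)).trans (hq k)
  · intro k K
    rw [LinearMap.mkContinuous_apply]
    change δ k (q K) = _
    exact hstep k K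

end Pool.Agent.Helper58.Ext
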