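import Pool.Agent.Helper58.ExtMeas
import Pool.Agent.Helper58.ExtRefl

/-!
# Extremality and non-reflexivity
-/

set_option autoImplicit false

noncomputable section

open MeasureTheory Filter Topology AddCircle
open scoped ENNReal NNReal ComplexConjugate

namespace Pool.Agent.Helper58.Ext

/-- The measure, as a finite measure. -/
def muF : FiniteMeasure Disc := ⟨mu, inferInstance⟩

lemma muF_coe : (muF : Measure Disc) = mu := rfl

lemma integral_of_mem_K {A : Subalgebra ℂ C(Disc, ℂ)} {μ ν : FiniteMeasure Disc}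
    (h : ν ∈ K A μ) : Equivalent A ν μ := by
  intro f hf
  have hcont : Continuous (fun ν : FiniteMeasure Disc => ∫ s, f s ∂(ν : Measure Disc)) := by
    rw [continuous_iff_continuousAt]
    intro ν₀
    exact (FiniteMeasure.tendsto_iff_forall_integral_rclike_tendsto ℂ).mp tendsto_id
      (BoundedContinuousFunction.mkOfCompact f)
  have hcl : IsClosed {ν : FiniteMeasure Disc | ∫ s, f s ∂(ν : Measure Disc)
      = ∫ s, f s ∂(μ : Measure Disc)} := isClosed_eq hcont continuous_const
  exact closure_minimal (fun ν hν => hν.2 f hf) hcl h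

theorem extremal : IsExtremal DA muF := by
  refine ⟨subset_closure ⟨Measure.AbsolutelyContinuous.rfl, fun f _ => rfl⟩, ?_⟩
  rintro ν₁ h₁ ν₂ h₂ ⟨a, b, ha, hb, hab, hsum⟩
  have hsum' : (a : ℝ≥0∞) • (ν₁ : Measure Disc) + (b : ℝ≥0∞) • (ν₂ : Measure Disc) = mu := by
    have h0 := congrArg (fun ν : FiniteMeasure Disc => (ν : Measure Disc)) hsum
    have h1 : ((a • ν₁ + b • ν₂ : FiniteMeasure Disc) : Measure Disc)
        = (a : ℝ≥0∞) • (ν₁ : Measure Disc) + (b : ℝ≥0∞) • (ν₂ : Measure Disc) := rfl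
    rw [← h1]
    exact h0
  have hale : (a : ℝ≥0∞) • (ν₁ : Measure Disc) ≤ mu := by
    rw [← hsum']
    exact Measure.le_add_right le_rfl
  have ha0 : (a : ℝ≥0∞) ≠ 0 := by exact_mod_cast ha.ne'
  have hle : (ν₁ : Measure Disc) ≤ (a : ℝ≥0∞)⁻¹ • mu := by
    have h1 : (ν₁ : Measure Disc) = (a : ℝ≥0∞)⁻¹ • ((a : ℝ≥0∞) • (ν₁ : Measure Disc)) := by
      rw [smul_smul, ENNReal.inv_mul_cancel ha0 (by simp), one_smul]
    rw [h1]
    gcongr
  have hac : (ν₁ : Measure Disc) ≪ mu := Measure.absolutelyContinuous_of_le_smul hle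
  -- bounded density
  set c : ℝ≥0∞ := (a : ℝ≥0∞)⁻¹ with hc
  have hcfin : c ≠ ⊤ := by
    rw [hc]
    simpa using ha.ne'
  let u₀ := (ν₁ : Measure Disc).rnDeriv mu
  have hu₀ : u₀ ≤ᵐ[mu] fun _ => c := by
    apply ae_le_of_forall_setLIntegral_le_of_sigmaFinite (Measure.measurable_rnDeriv _ _)
    intro s hs _
    calc ∫⁻ x in s, u₀ x ∂mu ≤ (ν₁ : Measure Disc) s := Measure.setLIntegral_rnDeriv_le s
      _ ≤ (c • mu) s := hle s
      _ = ∫⁻ _ in s, c ∂mu := by
        rw [lintegral_const, Measure.restrict_apply_univ, Measure.smul_apply, smul_eq_mul]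
  let u : Disc → ℝ≥0∞ := fun s => min (u₀ s) c
  have humeas : Measurable u := (Measure.measurable_rnDeriv _ _).min measurable_const
  have huu₀ : u =ᵐ[mu] u₀ := by
    filter_upwards [hu₀] with s hs
    exact min_eq_left hs
  have hule : ∀ s, u s ≤ c := fun s => min_le_right _ _
  have hufin : ∀ s, u s ≠ ⊤ := fun s => ne_top_of_le_ne_top hcfin (hule s)
  have hν₁ : (ν₁ : Measure Disc) = mu.withDensity u := by
    rw [withDensity_congr_ae huu₀]
    exact (Measure.withDensity_rnDeriv_eq _ _ hac).symm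
  have hutr : Measurable (fun s => (u s).toReal) := humeas.ennreal_toReal
  have hub : ∀ s, |(u s).toReal| ≤ c.toReal := by
    intro s
    rw [abs_of_nonneg ENNReal.toReal_nonneg]
    exact ENNReal.toReal_mono hcfin (hule s)
  have hequiv := integral_of_mem_K h₁
  have hmain := rigid (fun s => (u s).toReal - 1) (hutr.sub_const 1) (c.toReal + 1)
    (by
      intro s
      calc |(u s).toReal - 1| ≤ |(u s).toReal| + |(1 : ℝ)| := abs_sub _ _
        _ ≤ c.toReal + 1 := by rw [abs_one]; linarith [hub s])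
    (by
      intro n
      have hZn : Z ^ n ∈ DA := DA.pow_mem Z_mem n
      have h1 := hequiv (Z ^ n) hZn
      rw [hν₁, muF_coe, integral_withDensity_eq_integral_toReal_smul humeas
        (Eventually.of_forall (fun s => lt_top_iff_ne_top.mpr (hufin s)))] at h1
      have h2 : ∀ s : Disc, ((s : ℂ) ^ n * (((u s).toReal - 1 : ℝ) : ℂ))
          = (u s).toReal • (Z ^ n) s - (Z ^ n) s := by
        intro s
        rw [ContinuousMap.pow_apply, Z_apply, Complex.real_smul]
        push_cast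
        ring
      simp only [h2]
      have hb1 : Measurable (fun s : Disc => (Z ^ n) s) := (Z ^ n).continuous.measurable
      have hbn : ∀ s : Disc, ‖(Z ^ n) s‖ ≤ 1 := by
        intro s
        rw [ContinuousMap.pow_apply, Z_apply, norm_pow]
        exact pow_le_one₀ (norm_nonneg _) s.norm_le
      rw [integral_sub, h1, sub_self]
      · apply Integrable.of_bound (C := c.toReal)
        · exact (hutr.smul hb1).aestronglyMeasurable
        · apply Eventually.of_forall
          intro s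
          rw [norm_smul]
          calc ‖(u s).toReal‖ * ‖(Z ^ n) s‖ ≤ c.toReal * 1 :=
                mul_le_mul (hub s) (hbn s) (norm_nonneg _) ENNReal.toReal_nonneg
            _ = _ := mul_one _
      · exact Integrable.of_bound hb1.aestronglyMeasurable 1 (Eventually.of_forall hbn))
  have hu1 : u =ᵐ[mu] 1 := by
    filter_upwards [hmain] with s hs
    have h1 : (u s).toReal = 1 := by linarith
    have h2 : ENNReal.ofReal (u s).toReal = u s := ENNReal.ofReal_toReal (hufin s)
    rw [← h2, h1]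
    simp
  have hfin : (ν₁ : Measure Disc) = mu := by
    rw [hν₁, withDensity_congr_ae hu1, withDensity_one]
  exact Subtype.ext hfin

/-! ### The subspace `B` -/

lemma integrable_aux (h : Lp ℂ ∞ mu) (u : Lp ℂ 1 mu) (F : C(Disc, ℂ)) :
    Integrable (fun s => (h s - F s) * u s) mu := by
  have h1 : Integrable (fun s => u s) mu := (memLp_one_iff_integrable.mp (Lp.memLp u))
  have h2 : MemLp (fun s => h s) ∞ mu := Lp.memLp h
  have h3 : MemLp (fun s => F s) ∞ mu :=
    MemLp.of_bound F.continuous.aestronglyMeasurable ‖F‖ (Eventually.of_forall F.norm_coe_le_norm)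
  exact h1.mul_of_top_right (h2.sub h3)

lemma integrable_aux' (h : Lp ℂ ∞ mu) (u : Lp ℂ 1 mu) (f g : C(Disc, ℂ)) :
    Integrable (fun s => (h s - (f s + conj (g s))) * u s) mu :=
  integrable_aux h u (f + star g)

/-- `B`, as a submodule. -/
def BM : Submodule ℂ (Lp ℂ ∞ mu) where
  carrier := B DA mu
  zero_mem' := by
    intro t ε hε
    refine ⟨0, DA.zero_mem, 0, DA.zero_mem, ?_⟩
    intro u _
    have : ∫ s, ((0 : Lp ℂ ∞ mu) s - ((0 : C(Disc, ℂ)) s + conj ((0 : C(Disc, ℂ)) s))) * u s ∂mu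
        = ∫ s, (0 : ℂ) ∂mu := by
      apply integral_congr_ae
      filter_upwards [Lp.coeFn_zero ℂ ∞ mu] with s hs
      rw [hs]
      simp
    rw [this]
    simpa using hε
  add_mem' := by
    intro h₁ h₂ hh₁ hh₂ t ε hε
    obtain ⟨f₁, hf₁, g₁, hg₁, H₁⟩ := hh₁ t (ε / 2) (by positivity)
    obtain ⟨f₂, hf₂, g₂, hg₂, H₂⟩ := hh₂ t (ε / 2) (by positivity)
    refine ⟨f₁ + f₂, DA.add_mem hf₁ hf₂, g₁ + g₂, DA.add_mem hg₁ hg₂, ?_⟩
    intro u hu
    have : ∫ s, ((h₁ + h₂ : Lp ℂ ∞ mu) s - ((f₁ + f₂) s + conj ((g₁ + g₂) s))) * u s ∂mu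
        = ∫ s, (h₁ s - (f₁ s + conj (g₁ s))) * u s ∂mu
          + ∫ s, (h₂ s - (f₂ s + conj (g₂ s))) * u s ∂mu := by
      rw [← integral_add (integrable_aux' _ _ _ _) (integrable_aux' _ _ _ _)]
      apply integral_congr_ae
      filter_upwards [Lp.coeFn_add h₁ h₂] with s hs
      rw [hs]
      simp only [Pi.add_apply, ContinuousMap.add_apply, map_add]
      ring
    rw [this]
    calc _ ≤ ‖∫ s, (h₁ s - (f₁ s + conj (g₁ s))) * u s ∂mu‖
          + ‖∫ s, (h₂ s - (f₂ s + conj (g₂ s))) * u s ∂mu‖ := norm_add_le _ _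
      _ < ε / 2 + ε / 2 := add_lt_add (H₁ u hu) (H₂ u hu)
      _ = ε := by ring
  smul_mem' := by
    intro c h hh t ε hε
    obtain ⟨f, hf, g, hg, H⟩ := hh t (ε / (‖c‖ + 1)) (by positivity)
    refine ⟨c • f, DA.smul_mem hf c, (conj c) • g, DA.smul_mem hg _, ?_⟩
    intro u hu
    have : ∫ s, ((c • h : Lp ℂ ∞ mu) s - ((c • f) s + conj ((conj c • g) s))) * u s ∂mu
        = c * ∫ s, (h s - (f s + conj (g s))) * u s ∂mu := by
      rw [← integral_const_mul]
      apply integral_congr_ae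
      filter_upwards [Lp.coeFn_smul c h] with s hs
      rw [hs]
      simp only [Pi.smul_apply, ContinuousMap.smul_apply, smul_eq_mul, map_mul, Complex.conj_conj]
      ring
    rw [this, norm_mul]
    have h1 := H u hu
    calc ‖c‖ * ‖∫ s, (h s - (f s + conj (g s))) * u s ∂mu‖
        ≤ ‖c‖ * (ε / (‖c‖ + 1)) := mul_le_mul_of_nonneg_left h1.le (norm_nonneg _)
      _ = ε * (‖c‖ / (‖c‖ + 1)) := by ring
      _ < ε * 1 := by
        apply mul_lt_mul_of_pos_left _ hε
        rw [div_lt_one (by positivity)]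
        linarith
      _ = ε := mul_one _

/-! ### The functionals -/

lemma Lp_bound (h : Lp ℂ ∞ mu) : ∀ᵐ s ∂mu, ‖h s‖ ≤ ‖h‖ := by
  have h1 := ae_le_eLpNormEssSup (f := (h : Disc → ℂ)) (μ := mu)
  have h2 : eLpNorm (h : Disc → ℂ) ∞ mu ≠ ⊤ := (Lp.memLp h).2.ne
  filter_upwards [h1] with s hs
  rw [Lp.norm_def, eLpNorm_exponent_top]
  rw [eLpNorm_exponent_top] at h2
  rw [← toReal_enorm]
  exact ENNReal.toReal_mono h2 hs

lemma Lp_integrable (h : Lp ℂ ∞ mu) (k : ℕ) : Integrable (fun s => h s) (sig k) := by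
  apply Integrable.of_bound (C := ‖h‖)
  · exact (Lp.aestronglyMeasurable h).mono_ac (sig_ac k)
  · exact (sig_ac k).ae_le (Lp_bound h)

/-- Difference of two circular means. -/
def D (k : ℕ) : Lp ℂ ∞ mu →ₗ[ℂ] ℂ where
  toFun h := ∫ s, h s ∂(sig k) - ∫ s, h s ∂(sig 0)
  map_add' := by
    intro h₁ h₂
    have h : ∀ j, ∫ s, (h₁ + h₂ : Lp ℂ ∞ mu) s ∂(sig j)
        = ∫ s, h₁ s ∂(sig j) + ∫ s, h₂ s ∂(sig j) := by
      intro j
      rw [← integral_add (Lp_integrable _ _) (Lp_integrable _ _)]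
      apply integral_congr_ae
      exact (sig_ac j).ae_le (Lp.coeFn_add h₁ h₂)
    rw [h, h]
    ring
  map_smul' := by
    intro c h₁
    have h : ∀ j, ∫ s, (c • h₁ : Lp ℂ ∞ mu) s ∂(sig j) = c * ∫ s, h₁ s ∂(sig j) := by
      intro j
      rw [← integral_const_mul]
      apply integral_congr_ae
      exact (sig_ac j).ae_le (Lp.coeFn_smul c h₁)
    rw [h, h]
    simp only [RingHom.id_apply, smul_eq_mul]
    ring

lemma D_apply (k : ℕ) (h : Lp ℂ ∞ mu) : D k h = ∫ s, h s ∂(sig k) - ∫ s, h s ∂(sig 0) := rfl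

lemma D_bound (k : ℕ) (h : Lp ℂ ∞ mu) : ‖D k h‖ ≤ 2 * ‖h‖ := by
  have h1 : ∀ j, ‖∫ s, h s ∂(sig j)‖ ≤ ‖h‖ := by
    intro j
    have := norm_integral_le_of_norm_le_const (μ := sig j) ((sig_ac j).ae_le (Lp_bound h))
    rw [probReal_univ, mul_one] at this
    exact this
  rw [D_apply]
  calc _ ≤ _ := norm_sub_le _ _
    _ ≤ ‖h‖ + ‖h‖ := add_le_add (h1 k) (h1 0)
    _ = _ := by ring

lemma D_vanish (k : ℕ) : ∀ h ∈ BM, D k h = 0 := by
  intro h hh
  change h ∈ B DA mu at hh
  -- the density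
  let v : Disc → ℂ := fun s => (((sig k).rnDeriv mu s).toReal : ℂ)
    - (((sig 0).rnDeriv mu s).toReal : ℂ)
  have hv : Integrable v mu :=
    (Measure.integrable_toReal_rnDeriv.ofReal).sub (Measure.integrable_toReal_rnDeriv.ofReal)
  have hvL : MemLp v 1 mu := memLp_one_iff_integrable.mpr hv
  by_contra hne
  have hpos : 0 < ‖D k h‖ := norm_pos_iff.mpr hne
  obtain ⟨f, hf, g, hg, H⟩ := hh {hvL.toLp v} ‖D k h‖ hpos
  have h1 := H _ (Finset.mem_singleton_self _)
  have h2 : ∫ s, (h s - (f s + conj (g s))) * (hvL.toLp v) s ∂mu = D k h := by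
    have h3 : ∫ s, (h s - (f s + conj (g s))) * (hvL.toLp v) s ∂mu
        = ∫ s, (((sig k).rnDeriv mu s).toReal • (h s - (f s + conj (g s)))
            - ((sig 0).rnDeriv mu s).toReal • (h s - (f s + conj (g s)))) ∂mu := by
      apply integral_congr_ae
      filter_upwards [hvL.coeFn_toLp] with s hs
      rw [hs]
      simp only [v, Complex.real_smul]
      ring
    have hfi : ∀ j, Integrable (fun s => f s) (sig j) := fun j =>
      Integrable.of_bound f.continuous.aestronglyMeasurable ‖f‖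
        (Eventually.of_forall f.norm_coe_le_norm)
    have hgi : ∀ j, Integrable (fun s => conj (g s)) (sig j) := fun j =>
      Integrable.of_bound (C := ‖g‖) (by
        exact (Complex.continuous_conj.comp g.continuous).aestronglyMeasurable)
        (Eventually.of_forall (fun s => by
          rw [RCLike.norm_conj]; exact g.norm_coe_le_norm s))
    have hfg : ∀ j, Integrable (fun s => f s + conj (g s)) (sig j) := fun j =>
      (hfi j).add (hgi j)
    have hint : ∀ j, Integrable (fun s => h s - (f s + conj (g s))) (sig j) := fun j =>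
      (Lp_integrable h j).sub (hfg j)
    rw [h3, integral_sub ((integrable_rnDeriv_smul_iff (sig_ac k)).mpr (hint k))
      ((integrable_rnDeriv_smul_iff (sig_ac 0)).mpr (hint 0)),
      integral_rnDeriv_smul (sig_ac k), integral_rnDeriv_smul (sig_ac 0)]
    have h4 : ∀ j, ∫ s, (h s - (f s + conj (g s))) ∂(sig j)
        = ∫ s, h s ∂(sig j) - (f ⟨0, by simp⟩ + conj (g ⟨0, by simp⟩)) := by
      intro j
      rw [integral_sub (Lp_integrable h j) (hfg j), integral_add (hfi j) (hgi j),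
        integral_conj, integral_sig j f hf, integral_sig j g hg]
    rw [h4, h4, D_apply]
    ring
  rw [h2] at h1
  exact lt_irrefl _ h1

/-- The closed disc of radius `2^{-(K+1)}`. -/
def smallDisc (K : ℕ) : Set Disc := {s | ‖(s : ℂ)‖ ≤ (1 / 2 : ℝ) ^ (K + 1)}

lemma smallDisc_meas (K : ℕ) : MeasurableSet (smallDisc K) :=
  measurableSet_le (measurable_subtype_coe.norm) measurable_const

/-- Its indicator. -/
def q (K : ℕ) : Lp ℂ ∞ mu :=
  indicatorConstLp ∞ (smallDisc_meas K) (measure_ne_top mu _) (1 : ℂ)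

lemma q_norm (K : ℕ) : ‖q K‖ ≤ 2 := by
  have h1 := norm_indicatorConstLp_le (p := ∞) (μ := mu) (hs := smallDisc_meas K)
    (hμs := measure_ne_top mu _) (c := (1 : ℂ))
  rw [norm_one, one_mul] at h1
  simp only [ENNReal.toReal_top, div_zero, Real.rpow_zero] at h1
  exact h1.trans one_le_two

lemma psi_mem_smallDisc (k K : ℕ) (x : UnitAddCircle) : psi k x ∈ smallDisc K ↔ K < k := by
  change ‖((psi k x : Disc) : ℂ)‖ ≤ _ ↔ _
  rw [norm_psi, pow_le_pow_iff_right_of_lt_one₀ (by norm_num) (by norm_num)]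
  exact Nat.succ_le_iff

lemma integral_q (k K : ℕ) : ∫ s, q K s ∂(sig k) = if K < k then 1 else 0 := by
  have h1 : ∫ s, q K s ∂(sig k) = ∫ s, (smallDisc K).indicator (fun _ => (1 : ℂ)) s ∂(sig k) := by
    apply integral_congr_ae
    exact (sig_ac k).ae_le indicatorConstLp_coeFn
  rw [h1, sig, integral_map (psi_meas k).aemeasurable
    ((measurable_const.indicator (smallDisc_meas K)).aestronglyMeasurable)]
  have h2 : ∀ x, (smallDisc K).indicator (fun _ => (1 : ℂ)) (psi k x) = if K < k then 1 else 0 := by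
    intro x
    by_cases hx : K < k
    · rw [Set.indicator_of_mem ((psi_mem_smallDisc k K x).mpr hx), if_pos hx]
    · rw [Set.indicator_of_notMem (fun h => hx ((psi_mem_smallDisc k K x).mp h)), if_neg hx]
  simp only [h2]
  simp

theorem quotient_not_reflexive : QuotientNotReflexive DA mu := by
  refine ⟨BM, rfl, ?_⟩
  apply not_reflexive_quotient BM D q 2 D_vanish D_bound q_norm
  intro k K
  rw [D_apply, integral_q, integral_q]
  simp

end Pool.Agent.Helper58.Ext
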