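import Mathlib

/-!
# A wild weight on the circle

A bounded measurable weight on the circle that is positive almost everywhere and dominates no
non-zero continuous function.
-/

set_option autoImplicit false

noncomputable section

open MeasureTheory Filter Topology AddCircle
open scoped ENNReal NNReal ComplexConjugate

namespace Pool.Agent.Helper58.Ext

/-- Haar measure of the circle. -/
abbrev hm : Measure UnitAddCircle := haarAddCircle (T := 1)

instance : Nontrivial UnitAddCircle := by
  refine ⟨⟨0, ((1 / 2 : ℝ) : UnitAddCircle), ?_⟩⟩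
  intro h
  have h1 := h.symm
  rw [AddCircle.coe_eq_zero_iff] at h1
  obtain ⟨n, hn⟩ := h1
  simp only [zsmul_eq_mul, mul_one] at hn
  have h2 : ((2 * n : ℤ) : ℝ) = ((1 : ℤ) : ℝ) := by
    push_cast
    linarith
  have h3 : 2 * n = 1 := by exact_mod_cast h2
  omega

instance : NullSingletonClass hm := inferInstance

/-- A function in `L²` with summable Fourier coefficients is almost everywhere continuous. -/
lemma exists_continuous_of_summable {G : UnitAddCircle → ℂ} (hG : MemLp G 2 hm)
    (hs : Summable (fourierCoeff G)) : ∃ F : C(UnitAddCircle, ℂ), G =ᵐ[hm] F := by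
  have hs' : Summable (fun n : ℤ => fourierCoeff G n • (fourier n : C(UnitAddCircle, ℂ))) := by
    apply Summable.of_norm
    have : (fun n : ℤ => ‖fourierCoeff G n • (fourier n : C(UnitAddCircle, ℂ))‖)
        = fun n => ‖fourierCoeff G n‖ := by
      funext n
      rw [norm_smul, fourier_norm, mul_one]
    rw [this]
    exact hs.norm
  refine ⟨∑' n : ℤ, fourierCoeff G n • (fourier n : C(UnitAddCircle, ℂ)), ?_⟩
  set F : C(UnitAddCircle, ℂ) := ∑' n : ℤ, fourierCoeff G n • (fourier n : C(UnitAddCircle, ℂ))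
    with hF
  have h1 := hasSum_fourier_series_L2 (hG.toLp G)
  rw [fourierCoeff_congr_ae hG.coeFn_toLp] at h1
  have h2 : HasSum (fun i => fourierCoeff G i • fourierLp 2 i)
      (ContinuousMap.toLp 2 hm ℂ F) := by
    have h3 := (hs'.hasSum).map (ContinuousMap.toLp (E := ℂ) 2 hm ℂ)
      (ContinuousMap.toLp (E := ℂ) 2 hm ℂ).continuous
    convert h3 using 1
    funext i
    simp only [Function.comp_apply, map_smul]
  have h4 := h1.unique h2
  have h5 : (hG.toLp G : UnitAddCircle → ℂ) =ᵐ[hm] G := hG.coeFn_toLp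
  have h6 := ContinuousMap.coeFn_toLp (𝕜 := ℂ) (p := 2) hm F
  rw [← h4] at h6
  exact h5.symm.trans h6

/-- Existence of the wild weight. -/
theorem exists_wild : ∃ w : UnitAddCircle → ℝ≥0, Measurable w ∧ (∀ x, w x ≤ 1) ∧
    (∀ᵐ x ∂hm, 0 < w x) ∧
    ∀ (F : C(UnitAddCircle, ℂ)) (C : ℝ), (∀ᵐ x ∂hm, ‖F x‖ ≤ C * w x) → F = 0 := by
  obtain ⟨D, hDc, hDd⟩ := TopologicalSpace.exists_countable_dense UnitAddCircle
  have hD0 : hm D = 0 := hDc.measure_zero hm
  have hex : ∀ n : ℕ, ∃ U ⊇ D, IsOpen U ∧ hm U < (2⁻¹ : ℝ≥0∞) ^ n := by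
    intro n
    apply Set.exists_isOpen_lt_of_lt
    rw [hD0]
    exact ENNReal.pow_pos (by simp) n
  choose U hUD hUo hUm using hex
  let w' : UnitAddCircle → ℝ≥0∞ := fun x => ⨆ n : ℕ, (U n)ᶜ.indicator (fun _ => (2⁻¹ : ℝ≥0∞) ^ n) x
  have hw'm : Measurable w' :=
    Measurable.iSup fun n => measurable_const.indicator (hUo n).measurableSet.compl
  have hw'1 : ∀ x, w' x ≤ 1 := by
    intro x
    apply iSup_le
    intro n
    by_cases hx : x ∈ (U n)ᶜ
    · rw [Set.indicator_of_mem hx]
      exact pow_le_one₀ (zero_le) (by simp)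
    · rw [Set.indicator_of_notMem hx]
      exact zero_le
  have hw'fin : ∀ x, w' x ≠ ⊤ := fun x => ne_top_of_le_ne_top ENNReal.one_ne_top (hw'1 x)
  refine ⟨fun x => (w' x).toNNReal, hw'm.ennreal_toNNReal, ?_, ?_, ?_⟩
  · intro x
    rw [← ENNReal.coe_le_coe, ENNReal.coe_toNNReal (hw'fin x)]
    exact hw'1 x
  · have hinter : hm (⋂ n, U n) = 0 := by
      apply le_antisymm _ (zero_le)
      apply le_of_forall_pos_le_add
      intro ε hε
      rw [zero_add]
      obtain ⟨n, hn⟩ := ENNReal.exists_inv_two_pow_lt hε.ne'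
      exact (measure_mono (Set.iInter_subset _ n)).trans ((hUm n).le.trans hn.le)
    rw [← compl_mem_ae_iff] at hinter
    filter_upwards [hinter] with x hx
    rw [Set.mem_compl_iff, Set.mem_iInter, not_forall] at hx
    obtain ⟨n, hn⟩ := hx
    rw [ENNReal.toNNReal_pos_iff]
    refine ⟨?_, lt_top_iff_ne_top.mpr (hw'fin x)⟩
    refine lt_of_lt_of_le ?_ (le_iSup _ n)
    rw [Set.indicator_of_mem (by exact hn)]
    exact ENNReal.pow_pos (by simp) n
  · intro F C hFC
    by_contra hF
    have : ∃ x₀, F x₀ ≠ 0 := by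
      by_contra hcon
      push Not at hcon
      exact hF (ContinuousMap.ext hcon)
    obtain ⟨x₀, hx₀⟩ := this
    set a : ℝ := ‖F x₀‖ / 2 with ha
    have hapos : 0 < a := by positivity
    -- choose N with C * 2^{-N} < a
    obtain ⟨N, hN⟩ : ∃ N : ℕ, |C| * (1 / 2 : ℝ) ^ N < a := by
      have h1 : Tendsto (fun N : ℕ => |C| * (1 / 2 : ℝ) ^ N) atTop (𝓝 (|C| * 0)) :=
        (tendsto_pow_atTop_nhds_zero_of_lt_one (by norm_num) (by norm_num)).const_mul _
      rw [mul_zero] at h1
      exact (h1.eventually (gt_mem_nhds hapos)).exists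
    let V : Set UnitAddCircle := {x | a < ‖F x‖} ∩ ⋂ n ∈ Finset.range N, U n
    have hVo : IsOpen V := by
      apply IsOpen.inter
      · exact isOpen_lt continuous_const (by fun_prop)
      · exact isOpen_biInter_finset (fun n _ => hUo n)
    have hVne : V.Nonempty := by
      have h1 : IsOpen {x | a < ‖F x‖} := isOpen_lt continuous_const (by fun_prop)
      have h2 : ({x | a < ‖F x‖} : Set UnitAddCircle).Nonempty := by
        refine ⟨x₀, ?_⟩
        change a < ‖F x₀‖
        rw [ha]
        have : 0 < ‖F x₀‖ := norm_pos_iff.mpr hx₀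
        linarith
      obtain ⟨y, hy1, hy2⟩ := hDd.inter_open_nonempty _ h1 h2
      refine ⟨y, hy1, ?_⟩
      rw [Set.mem_iInter₂]
      intro n _
      exact hUD n hy2
    have hVpos : 0 < hm V := hVo.measure_pos hm hVne
    have hVnull : hm V = 0 := by
      rw [← nonpos_iff_eq_zero]
      have h3 : V ⊆ {x | ¬ (‖F x‖ ≤ C * ((w' x).toNNReal : ℝ))} := by
        intro x hx hle
        have h4 : w' x ≤ (2⁻¹ : ℝ≥0∞) ^ N := by
          apply iSup_le
          intro n
          by_cases hn : n < N
          · have hxU : x ∈ U n := by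
              have := hx.2
              rw [Set.mem_iInter₂] at this
              exact this n (Finset.mem_range.mpr hn)
            rw [Set.indicator_of_notMem (by simpa using hxU)]
            exact zero_le
          · push Not at hn
            by_cases hxU : x ∈ (U n)ᶜ
            · rw [Set.indicator_of_mem hxU]
              exact pow_le_pow_right_of_le_one' (by simp) hn
            · rw [Set.indicator_of_notMem hxU]
              exact zero_le
        have h5 : ((w' x).toNNReal : ℝ) ≤ (1 / 2 : ℝ) ^ N := by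
          have h6 := ENNReal.toReal_mono (by simp) h4
          rw [ENNReal.toReal_pow] at h6
          rw [ENNReal.coe_toNNReal_eq_toReal]
          simpa using h6
        have h7 : ‖F x‖ ≤ |C| * (1 / 2 : ℝ) ^ N := by
          calc ‖F x‖ ≤ C * ((w' x).toNNReal : ℝ) := hle
            _ ≤ |C| * ((w' x).toNNReal : ℝ) :=
                mul_le_mul_of_nonneg_right (le_abs_self C) (NNReal.coe_nonneg _)
            _ ≤ |C| * (1 / 2 : ℝ) ^ N := mul_le_mul_of_nonneg_left h5 (abs_nonneg C)
        have h8 : a < ‖F x‖ := hx.1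
        linarith
      exact (measure_mono h3).trans_eq (ae_iff.mp hFC)
    rw [hVnull] at hVpos
    exact lt_irrefl _ hVpos

end Pool.Agent.Helper58.Ext
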