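import Pool.Agent.Helper58.ExtAlg
import Pool.Agent.Helper58.ExtWild

/-!
# The measure: wild weights on concentric circles
-/

set_option autoImplicit false

noncomputable section

open MeasureTheory Filter Topology AddCircle
open scoped ENNReal NNReal ComplexConjugate

namespace Pool.Agent.Helper58.Ext

/-- The wild weight. -/
def w : UnitAddCircle → ℝ≥0 := exists_wild.choose

lemma w_meas : Measurable w := exists_wild.choose_spec.1
lemma w_le (x : UnitAddCircle) : w x ≤ 1 := exists_wild.choose_spec.2.1 x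
lemma w_pos : ∀ᵐ x ∂hm, 0 < w x := exists_wild.choose_spec.2.2.1
lemma w_wild (F : C(UnitAddCircle, ℂ)) (C : ℝ) (h : ∀ᵐ x ∂hm, ‖F x‖ ≤ C * w x) : F = 0 :=
  exists_wild.choose_spec.2.2.2 F C h

lemma norm_fourier_apply (n : ℤ) (x : UnitAddCircle) : ‖fourier n x‖ = 1 := by
  rw [fourier_apply]
  exact Circle.norm_coe _

/-- The circle of radius `2^{-k}`. -/
def psi (k : ℕ) (x : UnitAddCircle) : Disc :=
  ⟨(1 / 2 : ℂ) ^ k * fourier 1 x, by
    rw [mem_closedBall_zero_iff, norm_mul, norm_fourier_apply, mul_one, norm_pow]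
    apply pow_le_one₀ (norm_nonneg _)
    norm_num⟩

lemma psi_coe (k : ℕ) (x : UnitAddCircle) :
    ((psi k x : Disc) : ℂ) = (1 / 2 : ℂ) ^ k * fourier 1 x := rfl

lemma norm_psi (k : ℕ) (x : UnitAddCircle) : ‖((psi k x : Disc) : ℂ)‖ = (1 / 2 : ℝ) ^ k := by
  rw [psi_coe, norm_mul, norm_fourier_apply, mul_one, norm_pow]
  norm_num

lemma psi_pow (k n : ℕ) (x : UnitAddCircle) :
    ((psi k x : Disc) : ℂ) ^ n = (1 / 2 : ℂ) ^ (k * n) * fourier (n : ℤ) x := by
  rw [psi_coe, mul_pow, ← pow_mul]
  congr 1
  induction n with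
  | zero => simp
  | succ n ih =>
    rw [pow_succ, ih]
    push_cast
    rw [fourier_add]

lemma psi_cont (k : ℕ) : Continuous (psi k) := by
  unfold psi
  exact Continuous.subtype_mk (continuous_const.mul (fourier 1).continuous) _

lemma psi_meas (k : ℕ) : Measurable (psi k) := (psi_cont k).measurable

/-- The piece on the circle of radius `2^{-k}`. -/
def muk (k : ℕ) : Measure Disc := (hm.withDensity (fun x => (w x : ℝ≥0∞))).map (psi k)

/-- The measure. -/
def mu : Measure Disc := Measure.sum (fun k : ℕ => ((2⁻¹ : ℝ≥0∞) ^ k) • muk k)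

lemma withDensity_le : (hm.withDensity (fun x => (w x : ℝ≥0∞))) Set.univ ≤ 1 := by
  rw [withDensity_apply _ MeasurableSet.univ, Measure.restrict_univ]
  calc ∫⁻ x, (w x : ℝ≥0∞) ∂hm ≤ ∫⁻ _, 1 ∂hm := lintegral_mono (fun x =>
        ENNReal.coe_le_one_iff.mpr (w_le x))
    _ = 1 := by simp

instance : IsFiniteMeasure (hm.withDensity (fun x => (w x : ℝ≥0∞))) :=
  ⟨withDensity_le.trans_lt ENNReal.one_lt_top⟩

lemma muk_univ (k : ℕ) : muk k Set.univ ≤ 1 := by
  rw [muk, Measure.map_apply (psi_meas k) MeasurableSet.univ, Set.preimage_univ]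
  exact withDensity_le

instance : IsFiniteMeasure mu := by
  refine ⟨?_⟩
  rw [mu, Measure.sum_apply _ MeasurableSet.univ]
  calc ∑' k : ℕ, ((2⁻¹ : ℝ≥0∞) ^ k • muk k) Set.univ ≤ ∑' k : ℕ, (2⁻¹ : ℝ≥0∞) ^ k := by
        apply ENNReal.tsum_le_tsum
        intro k
        rw [Measure.smul_apply, smul_eq_mul]
        calc (2⁻¹ : ℝ≥0∞) ^ k * muk k Set.univ ≤ (2⁻¹ : ℝ≥0∞) ^ k * 1 := by
              gcongr
              exact muk_univ k
          _ = _ := mul_one _
    _ = 2 := by
        rw [ENNReal.tsum_geometric]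
        simp
    _ < ⊤ := by simp

lemma hasSum_integral {f : Disc → ℂ} (hf : Measurable f) {C : ℝ} (hC : ∀ s, ‖f s‖ ≤ C) :
    HasSum (fun k : ℕ => ((1 / 2 : ℂ) ^ k) * ∫ x, (w x : ℂ) * f (psi k x) ∂hm)
      (∫ s, f s ∂mu) := by
  have hint : Integrable f mu :=
    Integrable.of_bound hf.aestronglyMeasurable C (Eventually.of_forall hC)
  have h1 := hasSum_integral_measure (μ := fun k : ℕ => ((2⁻¹ : ℝ≥0∞) ^ k) • muk k) hint
  have h2 : (fun k : ℕ => ((1 / 2 : ℂ) ^ k) * ∫ x, (w x : ℂ) * f (psi k x) ∂hm)
      = fun k => ∫ s, f s ∂(((2⁻¹ : ℝ≥0∞) ^ k) • muk k) := by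
    funext k
    rw [integral_smul_measure, muk, integral_map (psi_meas k).aemeasurable
      hf.aestronglyMeasurable, integral_withDensity_eq_integral_smul w_meas]
    rw [ENNReal.toReal_pow, Complex.real_smul]
    congr 1
    · simp
  rw [h2]
  exact h1

/-- The rigidity theorem behind extremality. -/
theorem rigid (h : Disc → ℝ) (hmeas : Measurable h) (C : ℝ) (hC : ∀ s, |h s| ≤ C)
    (h0 : ∀ n : ℕ, ∫ s : Disc, (s : ℂ) ^ n * (h s : ℂ) ∂mu = 0) : ∀ᵐ s ∂mu, h s = 0 := by
  have hC0 : 0 ≤ C := (abs_nonneg _).trans (hC ⟨0, by simp⟩)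
  let G : ℕ → UnitAddCircle → ℝ := fun k x => w x * h (psi k x)
  have hGm : ∀ k, Measurable (G k) := fun k =>
    (w_meas.coe_nnreal_real).mul (hmeas.comp (psi_meas k))
  have hGC : ∀ k x, |G k x| ≤ C := by
    intro k x
    change |(w x : ℝ) * h (psi k x)| ≤ C
    rw [abs_mul, abs_of_nonneg (NNReal.coe_nonneg _)]
    calc (w x : ℝ) * |h (psi k x)| ≤ 1 * C :=
          mul_le_mul (by exact_mod_cast w_le x) (hC _) (abs_nonneg _) zero_le_one
      _ = C := one_mul _
  have hGCw : ∀ k x, |G k x| ≤ C * w x := by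
    intro k x
    change |(w x : ℝ) * h (psi k x)| ≤ C * w x
    rw [abs_mul, abs_of_nonneg (NNReal.coe_nonneg _), mul_comm]
    exact mul_le_mul_of_nonneg_right (hC _) (NNReal.coe_nonneg _)
  let c : ℕ → ℕ → ℂ := fun k n => ∫ x, fourier (n : ℤ) x * (G k x : ℂ) ∂hm
  have hc : ∀ k n, ‖c k n‖ ≤ C := by
    intro k n
    have h1 := norm_integral_le_of_norm_le_const (μ := hm)
      (f := fun x => fourier (n : ℤ) x * (G k x : ℂ)) (C := C) (Eventually.of_forall (fun x => by
        rw [norm_mul, norm_fourier_apply, one_mul, Complex.norm_real]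
        exact hGC k x))
    rw [probReal_univ, mul_one] at h1
    exact h1
  have hsum : ∀ n : ℕ, HasSum (fun k : ℕ => ((1 / 2 : ℂ) ^ (k * (n + 1))) * c k n) 0 := by
    intro n
    have h1 := hasSum_integral (f := fun s : Disc => (s : ℂ) ^ n * (h s : ℂ))
      (by
        refine (measurable_subtype_coe.pow_const n).mul ?_
        exact Complex.measurable_ofReal.comp hmeas) (C := C)
      (by
        intro s
        rw [norm_mul, norm_pow, Complex.norm_real]
        calc ‖(s : ℂ)‖ ^ n * ‖h s‖ ≤ 1 * C :=
              mul_le_mul (pow_le_one₀ (norm_nonneg _) s.norm_le) (hC s) (norm_nonneg _) zero_le_one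
          _ = C := one_mul _)
    rw [h0 n] at h1
    convert h1 using 1
    funext k
    rw [mul_add, mul_one, pow_add, mul_comm ((1 / 2 : ℂ) ^ (k * n)), mul_assoc]
    congr 1
    rw [← integral_const_mul]
    apply integral_congr_ae
    apply Eventually.of_forall
    intro x
    simp only [psi_pow]
    change (1 / 2 : ℂ) ^ (k * n) * (fourier (n : ℤ) x * (((w x : ℝ) * h (psi k x) : ℝ) : ℂ)) = _
    push_cast
    ring
  have key : ∀ K, ∀ᵐ x ∂hm, G K x = 0 := by
    intro K
    induction K using Nat.strong_induction_on with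
    | _ K ih =>
      have hc0 : ∀ k < K, ∀ n, c k n = 0 := by
        intro k hk n
        change ∫ x, fourier (n : ℤ) x * (G k x : ℂ) ∂hm = 0
        rw [← integral_zero UnitAddCircle ℂ (μ := hm)]
        apply integral_congr_ae
        filter_upwards [ih k hk] with x hx
        rw [hx]
        simp
      have hcK : ∀ n : ℕ, ‖c K n‖ ≤ C * (1 / 2 : ℝ) ^ n := by
        intro n
        have h1 := (hasSum_nat_add_iff' (K + 1)).mpr (hsum n)
        rw [Finset.sum_range_succ, Finset.sum_eq_zero (fun i hi => by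
          rw [hc0 i (Finset.mem_range.mp hi), mul_zero]), zero_add, zero_sub] at h1
        have h2 : HasSum (fun j : ℕ => C * (1 / 2 : ℝ) ^ ((K + 1) * (n + 1)) * (1 / 2 : ℝ) ^ j)
            (C * (1 / 2 : ℝ) ^ ((K + 1) * (n + 1)) * 2) := hasSum_geometric_two.mul_left _
        have h3 := h1.norm_le_of_bounded h2 (by
          intro j
          rw [norm_mul, norm_pow]
          have h4 : ‖(1 / 2 : ℂ)‖ = 1 / 2 := by norm_num
          rw [h4]
          have h5 : (1 / 2 : ℝ) ^ ((j + (K + 1)) * (n + 1)) ≤
              (1 / 2 : ℝ) ^ ((K + 1) * (n + 1)) * (1 / 2 : ℝ) ^ j := by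
            rw [← pow_add]
            apply pow_le_pow_of_le_one (by norm_num) (by norm_num)
            nlinarith
          calc (1 / 2 : ℝ) ^ ((j + (K + 1)) * (n + 1)) * ‖c (j + (K + 1)) n‖
              ≤ ((1 / 2 : ℝ) ^ ((K + 1) * (n + 1)) * (1 / 2 : ℝ) ^ j) * C :=
                mul_le_mul h5 (hc _ _) (norm_nonneg _) (by positivity)
            _ = _ := by ring)
        rw [norm_neg, norm_mul, norm_pow] at h3
        have h4 : ‖(1 / 2 : ℂ)‖ = 1 / 2 := by norm_num
        rw [h4] at h3
        have h5 : (1 / 2 : ℝ) ^ ((K + 1) * (n + 1)) =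
            (1 / 2 : ℝ) ^ (K * (n + 1)) * ((1 / 2 : ℝ) ^ n * (1 / 2)) := by
          rw [add_mul, one_mul, pow_add, pow_succ]
        rw [h5] at h3
        have h6 : (0 : ℝ) < (1 / 2 : ℝ) ^ (K * (n + 1)) := by positivity
        have h7 : (1 / 2 : ℝ) ^ (K * (n + 1)) * ‖c K n‖ ≤
            (1 / 2 : ℝ) ^ (K * (n + 1)) * (C * (1 / 2 : ℝ) ^ n) := by
          calc _ ≤ _ := h3
            _ = _ := by ring
        exact le_of_mul_le_mul_left h7 h6
      have hGCm : Measurable (fun x => (G K x : ℂ)) := Complex.measurable_ofReal.comp (hGm K)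
      have hmem : MemLp (fun x => (G K x : ℂ)) 2 hm :=
        MemLp.of_bound hGCm.aestronglyMeasurable C (Eventually.of_forall (fun x => by
          rw [Complex.norm_real]; exact hGC K x))
      have hs1 : Summable (fun n : ℕ => C * (1 / 2 : ℝ) ^ n) :=
        (summable_geometric_of_lt_one (by norm_num) (by norm_num)).mul_left _
      have hs : Summable (fourierCoeff (fun x => (G K x : ℂ))) := by
        apply Summable.of_nat_of_neg
        · apply Summable.of_norm_bounded hs1
          intro n
          have h1 : fourierCoeff (fun x => (G K x : ℂ)) (n : ℤ) = conj (c K n) := by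
            rw [fourierCoeff]
            change _ = conj (∫ x, fourier (n : ℤ) x * (G K x : ℂ) ∂hm)
            rw [← integral_conj]
            apply integral_congr_ae
            apply Eventually.of_forall
            intro x
            simp only [fourier_neg, smul_eq_mul, map_mul, Complex.conj_ofReal]
          rw [h1, RCLike.norm_conj]
          exact hcK n
        · apply Summable.of_norm_bounded hs1
          intro n
          have h1 : fourierCoeff (fun x => (G K x : ℂ)) (-(n : ℤ)) = c K n := by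
            rw [fourierCoeff]
            change _ = ∫ x, fourier (n : ℤ) x * (G K x : ℂ) ∂hm
            simp only [neg_neg, smul_eq_mul]
          rw [h1]
          exact hcK n
      obtain ⟨F, hF⟩ := exists_continuous_of_summable hmem hs
      have hF0 : F = 0 := by
        apply w_wild F C
        filter_upwards [hF] with x hx
        rw [← hx, Complex.norm_real]
        exact hGCw K x
      filter_upwards [hF] with x hx
      rw [hF0] at hx
      exact Complex.ofReal_eq_zero.mp hx
  rw [mu, Measure.ae_sum_iff]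
  intro k
  apply Measure.ae_smul_measure
  rw [muk, ae_map_iff (p := fun s => h s = 0) (psi_meas k).aemeasurable
    (measurableSet_eq_fun hmeas measurable_const)]
  rw [ae_withDensity_iff w_meas.coe_nnreal_ennreal]
  filter_upwards [key k] with x hx hwx
  have h1 : (w x : ℝ) * h (psi k x) = 0 := hx
  rcases mul_eq_zero.mp h1 with h2 | h2
  · exfalso
    apply hwx
    exact_mod_cast h2
  · exact h2

/-- Uniform probability measure on the circle of radius `2^{-k}`. -/
def sig (k : ℕ) : Measure Disc := hm.map (psi k)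

instance (k : ℕ) : IsProbabilityMeasure (sig k) :=
  Measure.isProbabilityMeasure_map (psi_meas k).aemeasurable

lemma sig_ac (k : ℕ) : sig k ≪ mu := by
  have h1 : hm ≪ hm.withDensity (fun x => (w x : ℝ≥0∞)) := by
    apply withDensity_absolutelyContinuous' w_meas.coe_nnreal_ennreal.aemeasurable
    filter_upwards [w_pos] with x hx
    exact_mod_cast hx.ne'
  have h2 : sig k ≪ muk k := h1.map (psi_meas k)
  have h3 : sig k ≪ ((2⁻¹ : ℝ≥0∞) ^ k) • muk k := by
    refine h2.trans ?_
    apply Measure.absolutelyContinuous_of_le_smul (c := (2 : ℝ≥0∞) ^ k)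
    rw [smul_smul, ← mul_pow, ENNReal.mul_inv_cancel (by simp) (by simp), one_pow, one_smul]
  exact Measure.absolutelyContinuous_sum_right k h3

lemma continuous_integral_C (ν : Measure Disc) [IsFiniteMeasure ν] :
    Continuous (fun f : C(Disc, ℂ) => ∫ s, f s ∂ν) := by
  have hint : ∀ f : C(Disc, ℂ), Integrable f ν := fun f =>
    Integrable.of_bound f.continuous.aestronglyMeasurable ‖f‖
      (Eventually.of_forall f.norm_coe_le_norm)
  apply LipschitzWith.continuous (K := (ν.real Set.univ).toNNReal)
  apply LipschitzWith.of_dist_le_mul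
  intro f g
  rw [dist_eq_norm, dist_eq_norm, ← integral_sub (hint f) (hint g),
    Real.coe_toNNReal _ measureReal_nonneg, mul_comm]
  exact norm_integral_le_of_norm_le_const (Eventually.of_forall (fun s => by
    exact (f - g).norm_coe_le_norm s))

/-- The mean value property. -/
lemma integral_sig (k : ℕ) : ∀ f ∈ DA, ∫ s, f s ∂(sig k) = f ⟨0, by simp⟩ := by
  have hcl : IsClosed {f : C(Disc, ℂ) | ∫ s, f s ∂(sig k) = f ⟨0, by simp⟩} :=
    isClosed_eq (continuous_integral_C (sig k)) (continuous_eval_const _)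
  have hpoly : (Poly : Set C(Disc, ℂ)) ⊆ {f : C(Disc, ℂ) | ∫ s, f s ∂(sig k) = f ⟨0, by simp⟩} := by
    intro f hf
    change f ∈ Algebra.adjoin ℂ {Z} at hf
    rw [Algebra.adjoin_singleton_eq_range_aeval] at hf
    obtain ⟨p, rfl⟩ := hf
    change ∫ s, (Polynomial.aeval Z p : C(Disc, ℂ)) s ∂(sig k)
      = (Polynomial.aeval Z p : C(Disc, ℂ)) ⟨0, by simp⟩
    have hint : ∀ f : C(Disc, ℂ), Integrable f (sig k) := fun f =>
      Integrable.of_bound f.continuous.aestronglyMeasurable ‖f‖
        (Eventually.of_forall f.norm_coe_le_norm)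
    induction p using Polynomial.induction_on' with
    | add p q hp hq =>
      simp only [map_add, ContinuousMap.add_apply]
      rw [integral_add (hint _) (hint _), hp, hq]
    | monomial n a =>
      have halg : ∀ s : Disc, (algebraMap ℂ C(Disc, ℂ) a) s = a := fun s => rfl
      simp only [Polynomial.aeval_monomial, ContinuousMap.mul_apply, ContinuousMap.pow_apply,
        Z_apply, halg]
      rw [integral_const_mul]
      congr 1
      rw [sig, integral_map (psi_meas k).aemeasurable
        (by exact (measurable_subtype_coe.pow_const n).aestronglyMeasurable)]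
      simp only [psi_pow]
      rw [integral_const_mul]
      have h1 : ∫ x, fourier (n : ℤ) x ∂hm = if n = 0 then 1 else 0 := by
        have h2 := congrFun (fourierCoeff_fourier (T := 1) (n : ℤ)) 0
        rw [fourierCoeff] at h2
        simp only [neg_zero, fourier_zero, one_smul] at h2
        rw [h2]
        by_cases hn : n = 0
        · subst hn; simp
        · rw [if_neg hn, Pi.single_apply, if_neg]
          intro h3
          exact hn (by exact_mod_cast h3.symm)
      rw [h1]
      by_cases hn : n = 0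
      · subst hn; simp
      · rw [if_neg hn, mul_zero, zero_pow hn]
  intro f hf
  have h1 : (DA : Set C(Disc, ℂ)) = closure (Poly : Set C(Disc, ℂ)) :=
    Subalgebra.topologicalClosure_coe _
  have h2 : f ∈ closure (Poly : Set C(Disc, ℂ)) := by rw [← h1]; exact hf
  exact closure_minimal hpoly hcl h2

end Pool.Agent.Helper58.Ext
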