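import Mathlib

/-!
# Pseudoconvex Reinhardt domains and the Kobayashi distance

Definitions for problem `MP_3c459d_an`.
-/

set_option autoImplicit false

noncomputable section

open scoped ComplexConjugate

namespace Pool.Agent.Helper58.Kob

/-- `ℂ^n` with the Euclidean norm. -/
abbrev Cn (n : ℕ) : Type := EuclideanSpace ℂ (Fin n)

variable {n : ℕ}

/-- Invariance under all rotations of the coordinates. -/
def IsReinhardt (D : Set (Cn n)) : Prop :=
  ∀ z ∈ D, ∀ (θ : Fin n → ℝ) (w : Cn n), (∀ i, w i = Complex.exp (θ i * Complex.I) * z i) → w ∈ D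

/-- `u` is a continuous plurisubharmonic exhaustion function of `D`. -/
structure IsPSHExhaustion (D : Set (Cn n)) (u : Cn n → ℝ) : Prop where
  continuousOn : ContinuousOn u D
  submean : ∀ a b : Cn n, (∀ l : ℂ, ‖l‖ ≤ 1 → a + l • b ∈ D) →
    u a ≤ Real.circleAverage (fun l : ℂ => u (a + l • b)) 0 1
  exhausts : ∀ c : ℝ, IsCompact {z | z ∈ D ∧ u z ≤ c}

/-- The open set `D` has a continuous plurisubharmonic exhaustion function. -/
def IsPseudoconvex (D : Set (Cn n)) : Prop := IsOpen D ∧ ∃ u, IsPSHExhaustion D u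

/-- The Poincare distance of the unit disc, normalised by `p(0, r) = (1/2) log ((1+r)/(1-r))`. -/
def poincare (a b : ℂ) : ℝ :=
  1 / 2 * Real.log ((1 + ‖(a - b) / (1 - conj b * a)‖) / (1 - ‖(a - b) / (1 - conj b * a)‖))

/-- `ChainSum D z w s`: there is a finite chain of holomorphic discs in `D` from `z` to `w` with
sum of Poincare distances `s`. -/
inductive ChainSum (D : Set (Cn n)) : Cn n → Cn n → ℝ → Prop
  | refl (z : Cn n) (hz : z ∈ D) : ChainSum D z z 0
  | step (z w : Cn n) (s : ℝ) (h : ChainSum D z w s) (f : ℂ → Cn n)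
      (hf : DifferentiableOn ℂ f (Metric.ball 0 1)) (hD : Set.MapsTo f (Metric.ball 0 1) D)
      (a b : ℂ) (ha : a ∈ Metric.ball (0 : ℂ) 1) (hb : b ∈ Metric.ball (0 : ℂ) 1) (hw : f a = w) :
      ChainSum D z (f b) (s + poincare a b)

/-- The Kobayashi (pseudo)distance. -/
def kobayashi (D : Set (Cn n)) (z w : Cn n) : ℝ := sInf {s | ChainSum D z w s}

/-- Euclidean distance to the boundary. -/
def bdist (D : Set (Cn n)) (z : Cn n) : ℝ := Metric.infDist z (frontier D)

/-- `D` is a pseudoconvex Reinhardt domain, `ζ` is a boundary point of `D` with all coordinates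
nonzero, and along some sequence of points of `D` converging to `ζ` the quantity
`k_D(z₀, z) + (1/2) log d_D(z)` tends to `-∞`, whatever the point `z₀` of `D`. -/
structure IsCounterexample (D : Set (Cn n)) (ζ : Cn n) : Prop where
  isOpen : IsOpen D
  isConnected : IsConnected D
  reinhardt : IsReinhardt D
  pseudoconvex : IsPseudoconvex D
  mem_frontier : ζ ∈ frontier D
  coord_ne_zero : ∀ i, ζ i ≠ 0
  lower_bound_fails : ∃ z : ℕ → Cn n, (∀ m, z m ∈ D) ∧
    Filter.Tendsto z Filter.atTop (nhds ζ) ∧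
    ∀ z₀ ∈ D, Filter.Tendsto (fun m => kobayashi D z₀ (z m) + 1 / 2 * Real.log (bdist D (z m)))
      Filter.atTop Filter.atBot

end Pool.Agent.Helper58.Kob
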