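import Pool.Agent.Helper58.KobPsh

/-!
# The domain
-/

set_option autoImplicit false

noncomputable section

open Filter Topology Real
open scoped ComplexConjugate

namespace Pool.Agent.Helper58.Kob

variable {n : ℕ}

/-- The bounded complete Reinhardt domain of the counterexample. -/
def Dom (i₀ i₁ i₂ : Fin n) : Set (Cn n) :=
  {z | ‖z i₀‖ < 1 ∧ (∀ i, ‖z i‖ < 2) ∧
    ∀ k : ℕ, 1 ≤ k → ‖z i₀‖ ^ (k ^ 3) * ‖z i₁‖ ^ (2 * k ^ 2) * ‖z i₂‖ < exp k}

variable {i₀ i₁ i₂ : Fin n}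

lemma Dom_mono {z w : Cn n} (hz : z ∈ Dom i₀ i₁ i₂) (hw : ∀ i, ‖w i‖ ≤ ‖z i‖) :
    w ∈ Dom i₀ i₁ i₂ := by
  obtain ⟨h1, h2, h3⟩ := hz
  refine ⟨(hw i₀).trans_lt h1, fun i => (hw i).trans_lt (h2 i), fun k hk => ?_⟩
  refine lt_of_le_of_lt ?_ (h3 k hk)
  gcongr
  · exact hw i₀
  · exact hw i₁
  · exact hw i₂

lemma Dom_reinhardt : IsReinhardt (Dom i₀ i₁ i₂) := by
  intro z hz θ w hw
  apply Dom_mono hz
  intro i
  rw [hw i, norm_mul, Complex.norm_exp_ofReal_mul_I, one_mul]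

lemma zero_mem_Dom : (0 : Cn n) ∈ Dom i₀ i₁ i₂ := by
  refine ⟨by simp, by simp, fun k _ => ?_⟩
  simp only [PiLp.zero_apply, norm_zero, mul_zero]
  exact exp_pos _

lemma Dom_connected : IsConnected (Dom i₀ i₁ i₂) := by
  apply IsPathConnected.isConnected
  apply StarConvex.isPathConnected (a := (0 : Cn n)) _ zero_mem_Dom
  intro z hz a b ha hb hab
  apply Dom_mono hz
  intro i
  rw [smul_zero, zero_add, PiLp.smul_apply, norm_smul, Real.norm_of_nonneg hb]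
  have hb1 : b ≤ 1 := by linarith
  have := norm_nonneg (z i)
  nlinarith

lemma Dom_bounded : Bornology.IsBounded (Dom i₀ i₁ i₂) := by
  rw [Metric.isBounded_iff_subset_closedBall 0]
  refine ⟨sqrt (∑ _ : Fin n, (2 : ℝ) ^ 2), ?_⟩
  intro z hz
  rw [mem_closedBall_zero_iff, EuclideanSpace.norm_eq]
  apply Real.sqrt_le_sqrt
  apply Finset.sum_le_sum
  intro i _
  exact pow_le_pow_left₀ (norm_nonneg _) (hz.2.1 i).le 2

/-- The defining family. -/
def Gfam (i₀ i₁ i₂ : Fin n) : Fin n ⊕ ℕ → Cn n → ℂ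
  | Sum.inl i, z => z i / 2
  | Sum.inr 0, z => z i₀
  | Sum.inr (k + 1), z => (exp (-((k + 1 : ℕ) : ℝ)) : ℂ) *
      (z i₀ ^ ((k + 1) ^ 3) * z i₁ ^ (2 * (k + 1) ^ 2) * z i₂)

lemma Gfam_diff (j : Fin n ⊕ ℕ) : Differentiable ℂ (Gfam i₀ i₁ i₂ j) := by
  have hc : ∀ i : Fin n, Differentiable ℂ (fun z : Cn n => z i) := fun i => by fun_prop
  rcases j with i | k
  · change Differentiable ℂ (fun z : Cn n => z i / 2)
    simp only [div_eq_mul_inv]
    exact (hc i).mul_const _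
  · rcases k with _ | k
    · exact hc i₀
    · change Differentiable ℂ (fun z : Cn n => (exp (-((k + 1 : ℕ) : ℝ)) : ℂ) *
        (z i₀ ^ ((k + 1) ^ 3) * z i₁ ^ (2 * (k + 1) ^ 2) * z i₂))
      exact (((hc i₀).pow _).mul ((hc i₁).pow _)).mul (hc i₂) |>.const_mul _

lemma norm_Gfam_succ (k : ℕ) (z : Cn n) : ‖Gfam i₀ i₁ i₂ (Sum.inr (k + 1)) z‖ =
    exp (-((k + 1 : ℕ) : ℝ)) *
      (‖z i₀‖ ^ ((k + 1) ^ 3) * ‖z i₁‖ ^ (2 * (k + 1) ^ 2) * ‖z i₂‖) := by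
  change ‖(exp (-((k + 1 : ℕ) : ℝ)) : ℂ) *
      (z i₀ ^ ((k + 1) ^ 3) * z i₁ ^ (2 * (k + 1) ^ 2) * z i₂)‖ = _
  rw [norm_mul, norm_mul, norm_mul, norm_pow, norm_pow, Complex.norm_real,
    Real.norm_of_nonneg (exp_pos _).le]

lemma mem_Dom_iff (z : Cn n) : z ∈ Dom i₀ i₁ i₂ ↔ ∀ j, ‖Gfam i₀ i₁ i₂ j z‖ < 1 := by
  constructor
  · rintro ⟨h1, h2, h3⟩ j
    rcases j with i | k
    · change ‖z i / 2‖ < 1
      rw [norm_div, Complex.norm_two, div_lt_one (by norm_num)]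
      exact h2 i
    · rcases k with _ | k
      · exact h1
      · rw [norm_Gfam_succ, Real.exp_neg, inv_mul_lt_iff₀ (exp_pos _), mul_one]
        exact h3 (k + 1) (by omega)
  · intro h
    refine ⟨h (Sum.inr 0), fun i => ?_, fun k hk => ?_⟩
    · have := h (Sum.inl i)
      change ‖z i / 2‖ < 1 at this
      rw [norm_div, Complex.norm_two, div_lt_one (by norm_num)] at this
      exact this
    · obtain ⟨k, rfl⟩ := Nat.exists_eq_add_of_le' hk
      have := h (Sum.inr (k + 1))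
      rw [norm_Gfam_succ, Real.exp_neg, inv_mul_lt_iff₀ (exp_pos _), mul_one] at this
      exact this

theorem Dom_pseudoconvex : IsPseudoconvex (Dom i₀ i₁ i₂) := by
  apply pseudoconvex_of_family (Gfam i₀ i₁ i₂) Gfam_diff _ mem_Dom_iff Dom_bounded
  intro z hz
  obtain ⟨q, hq1, hq2⟩ := exists_between hz.1
  have hq0 : 0 < q := (norm_nonneg _).trans_lt hq1
  -- choose `K₀`
  obtain ⟨K₀, hK₀⟩ : ∃ K₀ : ℕ, ∀ k ≥ K₀, q ^ k * 4 ≤ 1 / 2 := by
    have h1 : Tendsto (fun k : ℕ => q ^ k * 4) atTop (𝓝 (0 * 4)) :=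
      (tendsto_pow_atTop_nhds_zero_of_lt_one hq0.le hq2).mul_const 4
    rw [zero_mul] at h1
    exact eventually_atTop.mp (h1.eventually (ge_mem_nhds (by norm_num)))
  refine ⟨{w | ‖w i₀‖ < q ∧ ∀ i, ‖w i‖ < 2}, ?_,
    Finset.univ.disjSum (Finset.range (K₀ + 2)), Sum.elim (fun _ => 0) (fun k => (1 / 2) ^ k), ?_, ?_⟩
  · apply IsOpen.mem_nhds
    · have hc : ∀ i : Fin n, Continuous (fun z : Cn n => ‖z i‖) := fun i => by fun_prop
      have h1 : IsOpen {w : Cn n | ‖w i₀‖ < q} := isOpen_lt (hc i₀) continuous_const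
      have h2 : IsOpen (⋂ i, {w : Cn n | ‖w i‖ < 2}) :=
        isOpen_iInter_of_finite (fun i => isOpen_lt (hc i) continuous_const)
      have h3 : {w : Cn n | ‖w i₀‖ < q ∧ ∀ i, ‖w i‖ < 2}
          = {w : Cn n | ‖w i₀‖ < q} ∩ ⋂ i, {w : Cn n | ‖w i‖ < 2} := by
        ext w
        simp
      rw [h3]
      exact h1.inter h2
    · exact ⟨hq1, hz.2.1⟩
  · rw [← (Sum.inr_injective (α := Fin n) (β := ℕ)).summable_iff]
    · exact summable_geometric_of_lt_one (by norm_num) (by norm_num)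
    · intro x hx
      rcases x with i | k
      · rfl
      · exact absurd ⟨k, rfl⟩ hx
  · rintro w ⟨hw1, hw2⟩ j hj
    rcases j with i | k
    · exfalso
      apply hj
      rw [Finset.inl_mem_disjSum]
      exact Finset.mem_univ i
    · rw [Finset.inr_mem_disjSum, Finset.mem_range] at hj
      push Not at hj
      obtain ⟨k, rfl⟩ : ∃ k', k = k' + 1 := ⟨k - 1, by omega⟩
      have h1 : ‖Gfam i₀ i₁ i₂ (Sum.inr (k + 1)) w‖ ≤ (1 / 2) ^ (k + 1) := by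
        rw [norm_Gfam_succ]
        have h2 : exp (-((k + 1 : ℕ) : ℝ)) ≤ 1 := by
          rw [Real.exp_le_one_iff]
          have : (0 : ℝ) ≤ ((k + 1 : ℕ) : ℝ) := Nat.cast_nonneg _
          linarith
        have h3 : ‖w i₀‖ ^ ((k + 1) ^ 3) * ‖w i₁‖ ^ (2 * (k + 1) ^ 2) * ‖w i₂‖
            ≤ q ^ ((k + 1) ^ 3) * 2 ^ (2 * (k + 1) ^ 2) * 2 := by
          gcongr
          · exact (hw2 i₁).le
          · exact (hw2 i₂).le
        have h4 : q ^ ((k + 1) ^ 3) * 2 ^ (2 * (k + 1) ^ 2) = (q ^ (k + 1) * 4) ^ ((k + 1) ^ 2) := by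
          rw [mul_pow, ← pow_mul]
          congr 1
          · congr 1; ring
          · rw [pow_mul]; norm_num
        have h5 : (q ^ (k + 1) * 4) ^ ((k + 1) ^ 2) ≤ (1 / 2 : ℝ) ^ ((k + 1) ^ 2) :=
          pow_le_pow_left₀ (by positivity) (hK₀ (k + 1) (by omega)) _
        have h6 : (1 / 2 : ℝ) ^ ((k + 1) ^ 2) ≤ (1 / 2 : ℝ) ^ (k + 1 + 1) := by
          apply pow_le_pow_of_le_one (by norm_num) (by norm_num)
          have : 1 ≤ k := by omega
          nlinarith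
        calc exp (-((k + 1 : ℕ) : ℝ)) *
              (‖w i₀‖ ^ ((k + 1) ^ 3) * ‖w i₁‖ ^ (2 * (k + 1) ^ 2) * ‖w i₂‖)
            ≤ 1 * (q ^ ((k + 1) ^ 3) * 2 ^ (2 * (k + 1) ^ 2) * 2) :=
              mul_le_mul h2 h3 (by positivity) zero_le_one
          _ = (q ^ (k + 1) * 4) ^ ((k + 1) ^ 2) * 2 := by rw [one_mul, h4]
          _ ≤ (1 / 2 : ℝ) ^ (k + 1 + 1) * 2 :=
              mul_le_mul_of_nonneg_right (h5.trans h6) (by norm_num)
          _ = (1 / 2) ^ (k + 1) := by rw [pow_succ]; ring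
      refine ⟨h1, h1.trans ?_⟩
      calc (1 / 2 : ℝ) ^ (k + 1) ≤ (1 / 2) ^ 1 :=
            pow_le_pow_of_le_one (by norm_num) (by norm_num) (by omega)
        _ = 1 / 2 := pow_one _

lemma Dom_open : IsOpen (Dom i₀ i₁ i₂) := Dom_pseudoconvex.1

end Pool.Agent.Helper58.Kob
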