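import Pool.Agent.Helper58.KobDom

/-!
# The Kobayashi distance near the boundary point `(1, …, 1)`
-/

set_option autoImplicit false

noncomputable section

open Filter Topology Real
open scoped ComplexConjugate

namespace Pool.Agent.Helper58.Kob

variable {n : ℕ}

/-! ### General facts on the Kobayashi distance -/

lemma poincare_nonneg (a b : ℂ) : 0 ≤ poincare a b := by
  unfold poincare
  set t := ‖(a - b) / (1 - conj b * a)‖ with ht
  have ht0 : 0 ≤ t := norm_nonneg _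
  apply mul_nonneg (by norm_num)
  rcases eq_or_ne t 1 with h1 | h1
  · rw [h1]; simp
  · rw [← Real.log_abs]
    apply Real.log_nonneg
    rw [abs_div, le_div_iff₀ (abs_pos.mpr (by
      intro h; apply h1; linarith))]
    rw [one_mul]
    have h2 : |1 + t| = 1 + t := abs_of_nonneg (by linarith)
    rw [h2]
    exact abs_le.mpr ⟨by linarith, by linarith⟩

lemma poincare_zero_left (r : ℝ) (hr : 0 ≤ r) :
    poincare 0 (r : ℂ) = 1 / 2 * log ((1 + r) / (1 - r)) := by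
  unfold poincare
  have : ‖((0 : ℂ) - r) / (1 - conj (r : ℂ) * 0)‖ = r := by
    rw [mul_zero, sub_zero, div_one, zero_sub, norm_neg, Complex.norm_real,
      Real.norm_of_nonneg hr]
  rw [this]

/-- Bound for the cost of a disc through a point at distance `s` of the boundary. -/
lemma poincare_exp_le {s : ℝ} (hs0 : 0 < s) (hs1 : s ≤ 1) :
    poincare 0 ((exp (-s) : ℝ) : ℂ) ≤ 1 / 2 * log (4 / s) := by
  rw [poincare_zero_left _ (exp_pos _).le]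
  have h1 : exp (-s) < 1 := by rw [Real.exp_lt_one_iff]; linarith
  have h2 : s / 2 ≤ 1 - exp (-s) := by
    have h3 : s + 1 ≤ exp s := Real.add_one_le_exp s
    have h4 : exp (-s) ≤ 1 / (s + 1) := by
      rw [Real.exp_neg, inv_eq_one_div]
      exact one_div_le_one_div_of_le (by linarith) h3
    have h5 : 1 / (s + 1) ≤ 1 - s / 2 := by
      rw [div_le_iff₀ (by linarith)]
      nlinarith
    linarith
  apply mul_le_mul_of_nonneg_left _ (by norm_num)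
  apply Real.log_le_log (by
    apply div_pos
    · linarith [exp_pos (-s)]
    · linarith)
  rw [div_le_div_iff₀ (by linarith) hs0]
  have h6 := exp_pos (-s)
  nlinarith

lemma chainSum_nonneg {D : Set (Cn n)} {z w : Cn n} {s : ℝ} (h : ChainSum D z w s) : 0 ≤ s := by
  induction h with
  | refl => exact le_rfl
  | step w s h f hf hD a b ha hb hw ih => exact add_nonneg ih (poincare_nonneg a b)

lemma kobayashi_le {D : Set (Cn n)} {z w : Cn n} {s : ℝ} (h : ChainSum D z w s) :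
    kobayashi D z w ≤ s :=
  csInf_le ⟨0, fun _ ht => chainSum_nonneg ht⟩ h

/-- Extending a chain by one disc starting at the centre. -/
lemma ChainSum.extend {D : Set (Cn n)} {z w v : Cn n} {s c : ℝ} (h : ChainSum D z w s)
    (f : ℂ → Cn n) (hf : Differentiable ℂ f) (hD : ∀ l : ℂ, ‖l‖ < 1 → f l ∈ D)
    (r : ℝ) (hr0 : 0 ≤ r) (hr1 : r < 1) (h0 : f 0 = w) (h1 : f (r : ℂ) = v)
    (hc : poincare 0 (r : ℂ) = c) : ChainSum D z v (s + c) := by
  rw [← h1, ← hc]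
  refine ChainSum.step z w s h f hf.differentiableOn ?_ 0 r (by simp) ?_ h0
  · intro l hl
    exact hD l (by simpa using hl)
  · simp [abs_of_nonneg hr0, hr1]

/-! ### Points with three prescribed coordinates -/

/-- The point with coordinates `a, b, c` at `i₀, i₁, i₂` and `1` elsewhere. -/
def vec (i₀ i₁ i₂ : Fin n) (a b c : ℂ) : Cn n :=
  WithLp.toLp 2 (fun i => if i = i₀ then a else if i = i₁ then b else if i = i₂ then c else 1)

variable {i₀ i₁ i₂ : Fin n}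

lemma vec_apply (a b c : ℂ) (i : Fin n) : vec i₀ i₁ i₂ a b c i =
    if i = i₀ then a else if i = i₁ then b else if i = i₂ then c else 1 := rfl

lemma vec_i₀ (a b c : ℂ) : vec i₀ i₁ i₂ a b c i₀ = a := by rw [vec_apply, if_pos rfl]

lemma vec_i₁ (h01 : i₀ ≠ i₁) (a b c : ℂ) : vec i₀ i₁ i₂ a b c i₁ = b := by
  rw [vec_apply, if_neg h01.symm, if_pos rfl]

lemma vec_i₂ (h02 : i₀ ≠ i₂) (h12 : i₁ ≠ i₂) (a b c : ℂ) : vec i₀ i₁ i₂ a b c i₂ = c := by
  rw [vec_apply, if_neg h02.symm, if_neg h12.symm, if_pos rfl]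

lemma norm_vec_lt (a b c : ℂ) (ha : ‖a‖ < 2) (hb : ‖b‖ < 2) (hc : ‖c‖ < 2) (i : Fin n) :
    ‖vec i₀ i₁ i₂ a b c i‖ < 2 := by
  rw [vec_apply]
  split_ifs
  · exact ha
  · exact hb
  · exact hc
  · simp

lemma vec_mem_iff (h01 : i₀ ≠ i₁) (h02 : i₀ ≠ i₂) (h12 : i₁ ≠ i₂) (a b c : ℂ)
    (hb : ‖b‖ < 2) (hc : ‖c‖ < 2) : vec i₀ i₁ i₂ a b c ∈ Dom i₀ i₁ i₂ ↔
      ‖a‖ < 1 ∧ ∀ k : ℕ, 1 ≤ k → ‖a‖ ^ (k ^ 3) * ‖b‖ ^ (2 * k ^ 2) * ‖c‖ < exp k := by
  constructor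
  · rintro ⟨h1, -, h3⟩
    rw [vec_i₀] at h1
    refine ⟨h1, fun k hk => ?_⟩
    have := h3 k hk
    rw [vec_i₀, vec_i₁ h01, vec_i₂ h02 h12] at this
    exact this
  · rintro ⟨h1, h3⟩
    refine ⟨by rw [vec_i₀]; exact h1, norm_vec_lt a b c (by linarith) hb hc, fun k hk => ?_⟩
    rw [vec_i₀, vec_i₁ h01, vec_i₂ h02 h12]
    exact h3 k hk

lemma dist_vec (a a' b c : ℂ) : dist (vec i₀ i₁ i₂ a b c) (vec i₀ i₁ i₂ a' b c) = ‖a - a'‖ := by
  rw [EuclideanSpace.dist_eq, Finset.sum_eq_single i₀]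
  · rw [vec_i₀, vec_i₀, Real.sqrt_sq dist_nonneg, dist_eq_norm]
  · intro i _ hi
    rw [vec_apply, vec_apply, if_neg hi, if_neg hi, dist_self]
    simp
  · intro h
    exact absurd (Finset.mem_univ _) h

lemma vec_differentiable {a b c : ℂ → ℂ} (ha : Differentiable ℂ a) (hb : Differentiable ℂ b)
    (hc : Differentiable ℂ c) : Differentiable ℂ (fun l => vec i₀ i₁ i₂ (a l) (b l) (c l)) := by
  rw [differentiable_euclidean]
  intro i
  simp only [vec_apply]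
  split_ifs
  · exact ha
  · exact hb
  · exact hc
  · exact differentiable_const _

lemma vec_tendsto {a b c : ℕ → ℂ} {a' b' c' : ℂ} (ha : Tendsto a atTop (𝓝 a'))
    (hb : Tendsto b atTop (𝓝 b')) (hc : Tendsto c atTop (𝓝 c')) :
    Tendsto (fun m => vec i₀ i₁ i₂ (a m) (b m) (c m)) atTop (𝓝 (vec i₀ i₁ i₂ a' b' c')) := by
  apply ((PiLp.continuous_toLp 2 (fun _ : Fin n => ℂ)).tendsto _).comp
  rw [tendsto_pi_nhds]
  intro i
  split_ifs
  · exact ha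
  · exact hb
  · exact hc
  · exact tendsto_const_nhds

/-! ### The sequence -/

/-- The first coordinate. -/
def z0 (M : ℝ) : ℝ := exp (-(1 / M ^ 2 + 1 / M ^ 5))

/-- The second coordinate. -/
def z1 (M : ℝ) : ℝ := exp (1 / M)

lemma exp_half_lt : exp (1 / 2) < 5 / 3 := by
  have h1 : exp (1 / 2) ^ 2 = exp 1 := by
    rw [← Real.exp_nat_mul]
    norm_num
  have h2 := Real.exp_one_lt_d9
  have h3 := exp_pos (1 / 2)
  nlinarith

lemma z1_lt {M : ℝ} (hM : 2 ≤ M) : z1 M < 5 / 3 := by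
  refine lt_of_le_of_lt ?_ exp_half_lt
  unfold z1
  rw [Real.exp_le_exp]
  exact one_div_le_one_div_of_le (by norm_num) hM

lemma z1_pos (M : ℝ) : 0 < z1 M := exp_pos _

lemma z0_pos (M : ℝ) : 0 < z0 M := exp_pos _

lemma z0_lt {M : ℝ} (hM : 2 ≤ M) : z0 M < 1 := by
  unfold z0
  rw [Real.exp_lt_one_iff]
  have : 0 < 1 / M ^ 2 + 1 / M ^ 5 := by positivity
  linarith

/-- The slack of the constraint `k`. -/
lemma slack {m k : ℕ} (hm : 2 ≤ m) (hk : 1 ≤ k) :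
    -((k : ℝ) ^ 3 * (1 / (m : ℝ) ^ 2 + 1 / (m : ℝ) ^ 5)) + 2 * (k : ℝ) ^ 2 * (1 / (m : ℝ))
      + 1 / (m : ℝ) ^ 2 ≤ k := by
  have hm' : (0 : ℝ) < m := by exact_mod_cast (by omega : 0 < m)
  have hk' : (1 : ℝ) ≤ k := by exact_mod_cast hk
  have h1 : (k : ℝ) - (-((k : ℝ) ^ 3 * (1 / (m : ℝ) ^ 2 + 1 / (m : ℝ) ^ 5))
      + 2 * (k : ℝ) ^ 2 * (1 / (m : ℝ)) + 1 / (m : ℝ) ^ 2)
      = ((k : ℝ) * ((k : ℝ) - m) ^ 2 + ((k : ℝ) / m) ^ 3 - 1) / (m : ℝ) ^ 2 := by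
    field_simp
    ring
  have h2 : 0 ≤ (k : ℝ) * ((k : ℝ) - m) ^ 2 + ((k : ℝ) / m) ^ 3 - 1 := by
    rcases eq_or_ne k m with rfl | hne
    · rw [div_self hm'.ne', sub_self]
      norm_num
    · have h3 : (1 : ℝ) ≤ ((k : ℝ) - m) ^ 2 := by
        have h4 : (1 : ℤ) ≤ ((k : ℤ) - m) ^ 2 := by
          have h5 : (k : ℤ) - m ≠ 0 := by
            intro h
            apply hne
            omega
          have h6 : 0 < ((k : ℤ) - m) ^ 2 := by positivity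
          omega
        exact_mod_cast h4
      have h7 : 0 ≤ ((k : ℝ) / m) ^ 3 := by positivity
      nlinarith
  have h3 : 0 ≤ ((k : ℝ) * ((k : ℝ) - m) ^ 2 + ((k : ℝ) / m) ^ 3 - 1) / (m : ℝ) ^ 2 := by
    positivity
  linarith

lemma monomial_eq (m k : ℕ) (t : ℝ) :
    z0 m ^ (k ^ 3) * z1 m ^ (2 * k ^ 2) * exp t
      = exp (-((k : ℝ) ^ 3 * (1 / (m : ℝ) ^ 2 + 1 / (m : ℝ) ^ 5)) + 2 * (k : ℝ) ^ 2 * (1 / (m : ℝ))
          + t) := by
  unfold z0 z1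
  rw [← Real.exp_nat_mul, ← Real.exp_nat_mul, ← Real.exp_add, ← Real.exp_add]
  congr 1
  push_cast
  ring

lemma norm_z0 (M : ℝ) : ‖(z0 M : ℂ)‖ = z0 M := by
  rw [Complex.norm_real, Real.norm_of_nonneg (z0_pos M).le]

lemma norm_z1 (M : ℝ) : ‖(z1 M : ℂ)‖ = z1 M := by
  rw [Complex.norm_real, Real.norm_of_nonneg (z1_pos M).le]

/-- The points over the sequence, with third coordinate up to `exp (1/m^2)`. -/
lemma vec_mem {m : ℕ} (hm : 2 ≤ m) (h01 : i₀ ≠ i₁) (h02 : i₀ ≠ i₂) (h12 : i₁ ≠ i₂) (c : ℂ)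
    (hc : ‖c‖ < exp (1 / (m : ℝ) ^ 2)) :
    vec i₀ i₁ i₂ (z0 m : ℂ) (z1 m : ℂ) c ∈ Dom i₀ i₁ i₂ := by
  have hm' : (2 : ℝ) ≤ m := by exact_mod_cast hm
  have hc2 : ‖c‖ < 2 := by
    refine hc.trans_le ?_
    have h1 : exp (1 / (m : ℝ) ^ 2) ≤ exp (1 / 2) := by
      rw [Real.exp_le_exp]
      apply one_div_le_one_div_of_le (by norm_num)
      nlinarith
    linarith [exp_half_lt]
  rw [vec_mem_iff h01 h02 h12 _ _ _ (by rw [norm_z1]; linarith [z1_lt hm']) hc2]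
  rw [norm_z0, norm_z1]
  refine ⟨z0_lt hm', fun k hk => ?_⟩
  have hpos : 0 < z0 m ^ (k ^ 3) * z1 m ^ (2 * k ^ 2) := by
    have := z0_pos m
    have := z1_pos m
    positivity
  calc z0 m ^ (k ^ 3) * z1 m ^ (2 * k ^ 2) * ‖c‖
      < z0 m ^ (k ^ 3) * z1 m ^ (2 * k ^ 2) * exp (1 / (m : ℝ) ^ 2) :=
        mul_lt_mul_of_pos_left hc hpos
    _ = exp _ := monomial_eq m k _
    _ ≤ exp k := by rw [Real.exp_le_exp]; exact slack hm hk

/-- The sequence of points. -/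
def zseq (i₀ i₁ i₂ : Fin n) (m : ℕ) : Cn n :=
  vec i₀ i₁ i₂ (z0 ((m + 2 : ℕ) : ℝ) : ℂ) (z1 ((m + 2 : ℕ) : ℝ) : ℂ) 1

lemma zseq_mem (h01 : i₀ ≠ i₁) (h02 : i₀ ≠ i₂) (h12 : i₁ ≠ i₂) (m : ℕ) :
    zseq i₀ i₁ i₂ m ∈ Dom i₀ i₁ i₂ := by
  apply vec_mem (by omega) h01 h02 h12
  rw [norm_one, Real.one_lt_exp_iff]
  positivity

lemma zseq_tendsto : Tendsto (zseq i₀ i₁ i₂) atTop (𝓝 (vec i₀ i₁ i₂ 1 1 1)) := by
  have h1 : Tendsto (fun m : ℕ => (1 : ℝ) / ((m + 2 : ℕ) : ℝ)) atTop (𝓝 0) := by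
    have h2 := tendsto_one_div_atTop_nhds_zero_nat (𝕜 := ℝ)
    exact (tendsto_add_atTop_iff_nat 2).mpr h2
  have h3 : Tendsto (fun m : ℕ => exp (-((1 / ((m + 2 : ℕ) : ℝ)) ^ 2 + (1 / ((m + 2 : ℕ) : ℝ)) ^ 5)))
      atTop (𝓝 (exp (-(0 ^ 2 + 0 ^ 5)))) :=
    (Real.continuous_exp.tendsto _).comp ((h1.pow 2).add (h1.pow 5)).neg
  have h4 : Tendsto (fun m : ℕ => exp (1 / ((m + 2 : ℕ) : ℝ))) atTop (𝓝 (exp 0)) :=
    (Real.continuous_exp.tendsto _).comp h1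
  apply vec_tendsto
  · have h5 : (fun m : ℕ => ((z0 ((m + 2 : ℕ) : ℝ) : ℝ) : ℂ)) = fun m : ℕ =>
        ((exp (-((1 / ((m + 2 : ℕ) : ℝ)) ^ 2 + (1 / ((m + 2 : ℕ) : ℝ)) ^ 5)) : ℝ) : ℂ) := by
      funext m
      unfold z0
      simp only [div_pow, one_pow]
    rw [h5]
    have h6 := (Complex.continuous_ofReal.tendsto _).comp h3
    have h7 : ((exp (-(0 ^ 2 + 0 ^ 5)) : ℝ) : ℂ) = 1 := by norm_num
    rw [h7] at h6
    exact h6
  · have h6 := (Complex.continuous_ofReal.tendsto _).comp h4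
    have h7 : ((exp 0 : ℝ) : ℂ) = 1 := by norm_num
    rw [h7] at h6
    exact h6
  · exact tendsto_const_nhds

lemma one_mem_frontier (h01 : i₀ ≠ i₁) (h02 : i₀ ≠ i₂) (h12 : i₁ ≠ i₂) :
    vec i₀ i₁ i₂ 1 1 1 ∈ frontier (Dom i₀ i₁ i₂) := by
  rw [Dom_open.frontier_eq]
  refine ⟨?_, ?_⟩
  · exact mem_closure_of_tendsto zseq_tendsto (Eventually.of_forall (zseq_mem h01 h02 h12))
  · rintro ⟨h1, -⟩
    rw [vec_i₀, norm_one] at h1
    exact lt_irrefl _ h1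

/-- Upper bound for the distance to the boundary. -/
lemma bdist_le (h01 : i₀ ≠ i₁) (h02 : i₀ ≠ i₂) (h12 : i₁ ≠ i₂) (m : ℕ) :
    bdist (Dom i₀ i₁ i₂) (zseq i₀ i₁ i₂ m) ≤ 1 / ((m + 2 : ℕ) : ℝ) ^ 5 := by
  set M : ℝ := ((m + 2 : ℕ) : ℝ) with hM
  have hM2 : 2 ≤ M := by rw [hM]; push_cast; linarith [Nat.cast_nonneg (α := ℝ) m]
  set y : Cn n := vec i₀ i₁ i₂ ((exp (-(1 / M ^ 2)) : ℝ) : ℂ) (z1 M : ℂ) 1 with hy
  have hyD : y ∉ Dom i₀ i₁ i₂ := by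
    rintro ⟨-, -, h3⟩
    have h4 := h3 (m + 2) (by omega)
    rw [hy, vec_i₀, vec_i₁ h01, vec_i₂ h02 h12, norm_z1, norm_one, mul_one, Complex.norm_real,
      Real.norm_of_nonneg (exp_pos _).le] at h4
    unfold z1 at h4
    rw [← Real.exp_nat_mul, ← Real.exp_nat_mul, ← Real.exp_add, Real.exp_lt_exp] at h4
    push_cast at h4
    have h5 : ((m : ℝ) + 2) = M := by rw [hM]; push_cast; ring
    rw [h5] at h4
    have h6 : M ^ 3 * -(1 / M ^ 2) + 2 * M ^ 2 * (1 / M) = M := by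
      field_simp
      ring
    rw [h6] at h4
    exact lt_irrefl _ h4
  have hzD := zseq_mem h01 h02 h12 m
  have hne : Dom i₀ i₁ i₂ ≠ Set.univ := by
    intro h
    apply hyD
    rw [h]
    exact Set.mem_univ _
  obtain ⟨x, hx, hxd⟩ := exists_mem_frontier_infDist_compl_eq_dist hzD hne
  calc bdist (Dom i₀ i₁ i₂) (zseq i₀ i₁ i₂ m) ≤ dist (zseq i₀ i₁ i₂ m) x :=
        Metric.infDist_le_dist_of_mem hx
    _ = Metric.infDist (zseq i₀ i₁ i₂ m) (Dom i₀ i₁ i₂)ᶜ := hxd.symm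
    _ ≤ dist (zseq i₀ i₁ i₂ m) y := Metric.infDist_le_dist_of_mem hyD
    _ = ‖(z0 M : ℂ) - ((exp (-(1 / M ^ 2)) : ℝ) : ℂ)‖ := dist_vec _ _ _ _
    _ ≤ 1 / M ^ 5 := by
        rw [← Complex.ofReal_sub, Complex.norm_real, Real.norm_eq_abs, abs_sub_comm]
        have h1 : z0 M = exp (-(1 / M ^ 2)) * exp (-(1 / M ^ 5)) := by
          unfold z0
          rw [← Real.exp_add]
          congr 1
          ring
        have h2 : exp (-(1 / M ^ 2)) ≤ 1 := by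
          rw [Real.exp_le_one_iff]
          have : 0 < 1 / M ^ 2 := by positivity
          linarith
        have h3 : exp (-(1 / M ^ 5)) ≤ 1 := by
          rw [Real.exp_le_one_iff]
          have : 0 < 1 / M ^ 5 := by positivity
          linarith
        have h4 : -(1 / M ^ 5) + 1 ≤ exp (-(1 / M ^ 5)) := Real.add_one_le_exp _
        have h5 := exp_pos (-(1 / M ^ 2))
        rw [h1, abs_of_nonneg (by nlinarith)]
        nlinarith

lemma bdist_pos (h01 : i₀ ≠ i₁) (h02 : i₀ ≠ i₂) (h12 : i₁ ≠ i₂) (m : ℕ) :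
    0 < bdist (Dom i₀ i₁ i₂) (zseq i₀ i₁ i₂ m) := by
  unfold bdist
  rw [← isClosed_frontier.notMem_iff_infDist_pos ⟨_, one_mem_frontier h01 h02 h12⟩]
  rw [Dom_open.frontier_eq]
  rintro ⟨-, h⟩
  exact h (zseq_mem h01 h02 h12 m)

/-! ### The upper bound for the Kobayashi distance -/

lemma log_le_of_le {s : ℝ} {m : ℕ} (hm : 2 ≤ m) (hs : 1 / (m : ℝ) ^ 2 ≤ s) (hs1 : s ≤ 1) :
    poincare 0 ((exp (-s) : ℝ) : ℂ) ≤ log 2 + log m := by
  have hm' : (0 : ℝ) < m := by exact_mod_cast (by omega : 0 < m)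
  have hs0 : 0 < s := lt_of_lt_of_le (by positivity) hs
  refine (poincare_exp_le hs0 hs1).trans ?_
  have h1 : 4 / s ≤ (2 * (m : ℝ)) ^ 2 := by
    rw [div_le_iff₀ hs0]
    rw [div_le_iff₀ (by positivity)] at hs
    nlinarith
  have h2 : log (4 / s) ≤ log ((2 * (m : ℝ)) ^ 2) := Real.log_le_log (by positivity) h1
  rw [Real.log_pow, Real.log_mul (by norm_num) hm'.ne'] at h2
  push_cast at h2
  linarith

/-- The constant of the chain. -/
lemma chain_exists (h01 : i₀ ≠ i₁) (h02 : i₀ ≠ i₂) (h12 : i₁ ≠ i₂) (x : Cn n)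
    (hx : x ∈ Dom i₀ i₁ i₂) : ∃ C : ℝ, ∀ m : ℕ, 2 ≤ m →
      ∃ s, ChainSum (Dom i₀ i₁ i₂) x (vec i₀ i₁ i₂ (z0 m : ℂ) (z1 m : ℂ) 1) s ∧
        s ≤ C + 2 * log m := by
  -- a disc joining `x` to `0`
  obtain ⟨r, hr1, hrD⟩ : ∃ r : ℝ, 1 < r ∧ (r : ℂ) • x ∈ Dom i₀ i₁ i₂ := by
    have h1 : Continuous (fun r : ℝ => (r : ℂ) • x) := by fun_prop
    have h2 : ∀ᶠ r : ℝ in 𝓝 1, (r : ℂ) • x ∈ Dom i₀ i₁ i₂ := by
      apply (h1.tendsto 1).eventually
      rw [Complex.ofReal_one, one_smul]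
      exact Dom_open.mem_nhds hx
    have h3 : ∀ᶠ r : ℝ in 𝓝[>] 1, (r : ℂ) • x ∈ Dom i₀ i₁ i₂ := h2.filter_mono nhdsWithin_le_nhds
    obtain ⟨r, hr, hr1⟩ := (h3.and self_mem_nhdsWithin).exists
    exact ⟨r, hr1, hr⟩
  have hr0 : 0 < r := by linarith
  have hchain0 : ChainSum (Dom i₀ i₁ i₂) x 0 (0 + poincare ((1 / r : ℝ) : ℂ) 0) := by
    have h4 : (fun l : ℂ => (l * r) • x) 0 = 0 := by simp
    rw [← h4]
    refine ChainSum.step x x 0 (ChainSum.refl x hx) (fun l : ℂ => (l * r) • x)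
      (by fun_prop) ?_ _ _ ?_ (by simp) ?_
    · intro l hl
      apply Dom_mono hrD
      intro i
      rw [PiLp.smul_apply, PiLp.smul_apply, norm_smul, norm_smul, norm_mul]
      have : ‖l‖ < 1 := by simpa using hl
      have h5 := norm_nonneg (x i)
      have h6 := norm_nonneg (r : ℂ)
      have h7 : ‖l‖ * ‖(r : ℂ)‖ ≤ ‖(r : ℂ)‖ := by nlinarith
      exact mul_le_mul_of_nonneg_right h7 h5
    · rw [mem_ball_zero_iff, Complex.norm_real, Real.norm_of_nonneg (by positivity)]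
      rw [div_lt_one hr0]
      exact hr1
    · have : ((1 / r : ℝ) : ℂ) * (r : ℂ) = 1 := by
        rw [← Complex.ofReal_mul, one_div, inv_mul_cancel₀ hr0.ne', Complex.ofReal_one]
      simp only [this, one_smul]
  set C₀ : ℝ := 0 + poincare ((1 / r : ℝ) : ℂ) 0 with hC₀
  set C₁ : ℝ := poincare 0 ((5 / 6 : ℝ) : ℂ) with hC₁
  refine ⟨C₀ + C₁ + 2 * log 2, fun m hm => ?_⟩
  have hm' : (2 : ℝ) ≤ m := by exact_mod_cast hm
  have hm0 : (0 : ℝ) < m := by linarith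
  -- second disc
  have hchain1 : ChainSum (Dom i₀ i₁ i₂) x (vec i₀ i₁ i₂ 0 (z1 m : ℂ) 0) (C₀ + C₁) := by
    refine hchain0.extend (fun l : ℂ => (l * (6 / 5)) • vec i₀ i₁ i₂ 0 (z1 m : ℂ) 0)
      (by fun_prop) ?_ (5 / 6) (by norm_num) (by norm_num) (by simp) ?_ hC₁.symm
    · intro l hl
      have hco : ∀ i, ‖((l * (6 / 5)) • vec i₀ i₁ i₂ 0 (z1 m : ℂ) 0) i‖ < 2 := by
        intro i
        rw [PiLp.smul_apply, norm_smul, norm_mul]
        have h1 : ‖(6 / 5 : ℂ)‖ = 6 / 5 := by norm_num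
        have h2 : ‖vec i₀ i₁ i₂ 0 (z1 m : ℂ) 0 i‖ ≤ 5 / 3 := by
          rw [vec_apply]
          split_ifs
          · rw [norm_zero]; norm_num
          · rw [norm_z1]; exact (z1_lt hm').le
          · rw [norm_zero]; norm_num
          · rw [norm_one]; norm_num
        rw [h1]
        have h3 := norm_nonneg (vec i₀ i₁ i₂ 0 (z1 m : ℂ) 0 i)
        have h4 := norm_nonneg l
        have h5 : ‖l‖ * (6 / 5) < 6 / 5 := by linarith
        calc ‖l‖ * (6 / 5) * ‖vec i₀ i₁ i₂ 0 (z1 m : ℂ) 0 i‖ ≤ ‖l‖ * (6 / 5) * (5 / 3) :=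
              mul_le_mul_of_nonneg_left h2 (by positivity)
          _ < 6 / 5 * (5 / 3) := mul_lt_mul_of_pos_right h5 (by norm_num)
          _ = 2 := by norm_num
      refine ⟨?_, hco, fun k hk => ?_⟩
      · rw [PiLp.smul_apply, vec_i₀, smul_zero, norm_zero]
        exact one_pos
      · rw [PiLp.smul_apply, PiLp.smul_apply, PiLp.smul_apply, vec_i₂ h02 h12, smul_zero, norm_zero,
          mul_zero]
        exact exp_pos _
    · have : ((5 / 6 : ℝ) : ℂ) * (6 / 5) = 1 := by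
        push_cast
        norm_num
      simp only [this, one_smul]
  -- third disc
  have hchain2 : ChainSum (Dom i₀ i₁ i₂) x (vec i₀ i₁ i₂ (z0 m : ℂ) (z1 m : ℂ) 0)
      (C₀ + C₁ + poincare 0 (z0 m : ℂ)) := by
    refine hchain1.extend (fun l : ℂ => vec i₀ i₁ i₂ l (z1 m : ℂ) 0)
      (vec_differentiable differentiable_id (differentiable_const _) (differentiable_const _))
      ?_ (z0 m) (z0_pos _).le (z0_lt hm') rfl rfl rfl
    intro l hl
    rw [vec_mem_iff h01 h02 h12 _ _ _ (by rw [norm_z1]; linarith [z1_lt hm']) (by simp)]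
    refine ⟨hl, fun k _ => ?_⟩
    rw [norm_zero, mul_zero]
    exact exp_pos _
  -- fourth disc
  have hexp1 : ‖((exp (1 / (m : ℝ) ^ 2) : ℝ) : ℂ)‖ = exp (1 / (m : ℝ) ^ 2) := by
    rw [Complex.norm_real, Real.norm_of_nonneg (exp_pos _).le]
  have hchain3 : ChainSum (Dom i₀ i₁ i₂) x (vec i₀ i₁ i₂ (z0 m : ℂ) (z1 m : ℂ) 1)
      (C₀ + C₁ + poincare 0 (z0 m : ℂ) + poincare 0 ((exp (-(1 / (m : ℝ) ^ 2)) : ℝ) : ℂ)) := by
    refine hchain2.extend
      (fun l : ℂ => vec i₀ i₁ i₂ (z0 m : ℂ) (z1 m : ℂ) (((exp (1 / (m : ℝ) ^ 2) : ℝ) : ℂ) * l))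
      (vec_differentiable (differentiable_const _) (differentiable_const _)
        (differentiable_id.const_mul _)) ?_ (exp (-(1 / (m : ℝ) ^ 2))) (exp_pos _).le ?_ ?_ ?_ rfl
    · intro l hl
      apply vec_mem hm h01 h02 h12
      rw [norm_mul, hexp1]
      have := exp_pos (1 / (m : ℝ) ^ 2)
      nlinarith
    · rw [Real.exp_lt_one_iff]
      have : 0 < 1 / (m : ℝ) ^ 2 := by positivity
      linarith
    · simp only [mul_zero]
    · congr 1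
      rw [← Complex.ofReal_mul, ← Real.exp_add, add_neg_cancel, Real.exp_zero, Complex.ofReal_one]
  refine ⟨_, hchain3, ?_⟩
  have hb1 : poincare 0 (z0 m : ℂ) ≤ log 2 + log m := by
    apply log_le_of_le hm
    · have : 0 < 1 / (m : ℝ) ^ 5 := by positivity
      linarith
    · have h1 : 1 / (m : ℝ) ^ 2 ≤ 1 / 2 ^ 2 := by
        apply one_div_le_one_div_of_le (by norm_num)
        exact pow_le_pow_left₀ (by norm_num) hm' 2
      have h2 : 1 / (m : ℝ) ^ 5 ≤ 1 / 2 ^ 5 := by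
        apply one_div_le_one_div_of_le (by norm_num)
        exact pow_le_pow_left₀ (by norm_num) hm' 5
      linarith
  have hb2 : poincare 0 ((exp (-(1 / (m : ℝ) ^ 2)) : ℝ) : ℂ) ≤ log 2 + log m := by
    apply log_le_of_le hm le_rfl
    rw [div_le_one (by positivity)]
    nlinarith
  linarith

theorem tendsto_atBot (h01 : i₀ ≠ i₁) (h02 : i₀ ≠ i₂) (h12 : i₁ ≠ i₂) (x : Cn n)
    (hx : x ∈ Dom i₀ i₁ i₂) : Tendsto (fun m => kobayashi (Dom i₀ i₁ i₂) x (zseq i₀ i₁ i₂ m)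
      + 1 / 2 * log (bdist (Dom i₀ i₁ i₂) (zseq i₀ i₁ i₂ m))) atTop atBot := by
  obtain ⟨C, hC⟩ := chain_exists h01 h02 h12 x hx
  have hlog : Tendsto (fun m : ℕ => log ((m + 2 : ℕ) : ℝ)) atTop atTop := by
    apply Real.tendsto_log_atTop.comp
    exact (tendsto_add_atTop_iff_nat 2).mpr tendsto_natCast_atTop_atTop
  have h1 : Tendsto (fun m : ℕ => C + -(1 / 2) * log ((m + 2 : ℕ) : ℝ)) atTop atBot := by
    apply tendsto_atBot_add_const_left
    exact hlog.const_mul_atTop_of_neg (by norm_num)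
  apply tendsto_atBot_mono _ h1
  intro m
  obtain ⟨s, hs, hsC⟩ := hC (m + 2) (by omega)
  have h2 : kobayashi (Dom i₀ i₁ i₂) x (zseq i₀ i₁ i₂ m) ≤ C + 2 * log ((m + 2 : ℕ) : ℝ) :=
    (kobayashi_le hs).trans hsC
  have h3 : log (bdist (Dom i₀ i₁ i₂) (zseq i₀ i₁ i₂ m)) ≤ -(5 * log ((m + 2 : ℕ) : ℝ)) := by
    have h4 := Real.log_le_log (bdist_pos h01 h02 h12 m) (bdist_le h01 h02 h12 m)
    rw [one_div, Real.log_inv, Real.log_pow] at h4
    push_cast at h4 ⊢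
    exact h4
  linarith

theorem main (n : ℕ) (hn : 3 ≤ n) :
    ∃ (D : Set (Cn n)) (ζ : Cn n), Bornology.IsBounded D ∧ IsCounterexample D ζ := by
  set i₀ : Fin n := ⟨0, by omega⟩ with hi₀
  set i₁ : Fin n := ⟨1, by omega⟩ with hi₁
  set i₂ : Fin n := ⟨2, by omega⟩ with hi₂
  have h01 : i₀ ≠ i₁ := by simp [hi₀, hi₁]
  have h02 : i₀ ≠ i₂ := by simp [hi₀, hi₂]
  have h12 : i₁ ≠ i₂ := by simp [hi₁, hi₂]
  refine ⟨Dom i₀ i₁ i₂, vec i₀ i₁ i₂ 1 1 1, Dom_bounded, ?_⟩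
  refine ⟨Dom_open, Dom_connected, Dom_reinhardt, Dom_pseudoconvex,
    one_mem_frontier h01 h02 h12, ?_, zseq i₀ i₁ i₂, zseq_mem h01 h02 h12, zseq_tendsto,
    fun x hx => tendsto_atBot h01 h02 h12 x hx⟩
  intro i
  rw [vec_apply]
  split_ifs <;> exact one_ne_zero

end Pool.Agent.Helper58.Kob
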