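import Pool.Agent.Helper58.KobDefs

/-!
# Pseudoconvexity of sets defined by families of holomorphic functions
-/

set_option autoImplicit false

noncomputable section

open Filter Topology Real
open scoped ComplexConjugate

namespace Pool.Agent.Helper58.Kob

/-- The submean value property of `|G| / (1 - |G|)`. -/
theorem submean_aux {G : ℂ → ℂ} (hG : Differentiable ℂ G) (h1 : ∀ l, ‖l‖ ≤ 1 → ‖G l‖ < 1) :
    ‖G 0‖ / (1 - ‖G 0‖) ≤ circleAverage (fun l => ‖G l‖ / (1 - ‖G l‖)) 0 1 := by
  have hGc : Continuous G := hG.continuous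
  set t₀ : ℝ := ‖G 0‖ with ht₀
  have ht₀1 : t₀ < 1 := h1 0 (by simp)
  have hsph : ∀ l ∈ Metric.sphere (0 : ℂ) |1|, ‖G l‖ < 1 := by
    intro l hl
    apply h1
    simpa using hl.le
  have hmean : t₀ ≤ circleAverage (fun l => ‖G l‖) 0 1 := by
    have h2 : circleAverage G 0 1 = G 0 := by
      apply DiffContOnCl.circleAverage
      exact hG.diffContOnCl
    rw [ht₀, ← h2, circleAverage_def, circleAverage_def, norm_smul, smul_eq_mul,
      norm_of_nonneg (by positivity)]
    apply mul_le_mul_of_nonneg_left _ (by positivity)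
    exact intervalIntegral.norm_integral_le_integral_norm (by positivity)
  have hi1 : CircleIntegrable (fun l => ‖G l‖) 0 1 :=
    (hGc.norm.continuousOn).circleIntegrable zero_le_one
  have hi2 : CircleIntegrable (fun l => ‖G l‖ / (1 - ‖G l‖)) 0 1 := by
    apply ContinuousOn.circleIntegrable zero_le_one
    apply ContinuousOn.div hGc.norm.continuousOn (continuousOn_const.sub hGc.norm.continuousOn)
    intro l hl
    have := hsph l (by simpa using hl)
    exact ne_of_gt (show (0 : ℝ) < 1 - ‖G l‖ by linarith)
  have hi3 : CircleIntegrable (fun l => (‖G l‖ - t₀) / (1 - t₀) ^ 2 + t₀ / (1 - t₀)) 0 1 := by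
    apply ContinuousOn.circleIntegrable zero_le_one
    fun_prop
  have hle : circleAverage (fun l => (‖G l‖ - t₀) / (1 - t₀) ^ 2 + t₀ / (1 - t₀)) 0 1
      ≤ circleAverage (fun l => ‖G l‖ / (1 - ‖G l‖)) 0 1 := by
    apply circleAverage_mono hi3 hi2
    intro l hl
    have h3 := hsph l hl
    set t := ‖G l‖
    have h4 : 0 < 1 - t := by linarith
    have h5 : 0 < 1 - t₀ := by linarith
    have h6 : t / (1 - t) - ((t - t₀) / (1 - t₀) ^ 2 + t₀ / (1 - t₀))
        = (t - t₀) ^ 2 / ((1 - t) * (1 - t₀) ^ 2) := by
      field_simp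
      ring
    have h7 : 0 ≤ (t - t₀) ^ 2 / ((1 - t) * (1 - t₀) ^ 2) := by positivity
    linarith
  have heq : circleAverage (fun l => (‖G l‖ - t₀) / (1 - t₀) ^ 2 + t₀ / (1 - t₀)) 0 1
      = (circleAverage (fun l => ‖G l‖) 0 1 - t₀) / (1 - t₀) ^ 2 + t₀ / (1 - t₀) := by
    have h8 : (fun l => (‖G l‖ - t₀) / (1 - t₀) ^ 2 + t₀ / (1 - t₀))
        = fun l => ((1 - t₀) ^ 2)⁻¹ • ‖G l‖ + (t₀ / (1 - t₀) - t₀ / (1 - t₀) ^ 2) := by
      funext l
      rw [smul_eq_mul]
      ring
    rw [h8, circleAverage_fun_add, circleAverage_fun_smul, circleAverage_const]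
    · rw [smul_eq_mul]; ring
    · exact hi1.const_smul
    · exact circleIntegrable_const _ _ _
  rw [heq] at hle
  refine le_trans ?_ hle
  have h9 : 0 ≤ (circleAverage (fun l => ‖G l‖) 0 1 - t₀) / (1 - t₀) ^ 2 :=
    div_nonneg (by linarith) (by positivity)
  linarith

variable {n : ℕ} {J : Type}

theorem pseudoconvex_of_family (G : J → Cn n → ℂ) (hG : ∀ j, Differentiable ℂ (G j))
    (D : Set (Cn n)) (hD : ∀ z, z ∈ D ↔ ∀ j, ‖G j z‖ < 1) (hbdd : Bornology.IsBounded D)
    (hloc : ∀ z ∈ D, ∃ W ∈ 𝓝 z, ∃ (T : Finset J) (A : J → ℝ), Summable A ∧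
      ∀ w ∈ W, ∀ j ∉ T, ‖G j w‖ ≤ A j ∧ ‖G j w‖ ≤ 1 / 2) :
    IsPseudoconvex D := by
  classical
  have hGc : ∀ j, Continuous (G j) := fun j => (hG j).continuous
  -- local structure
  have hloc' : ∀ z ∈ D, ∃ W : Set (Cn n), IsOpen W ∧ z ∈ W ∧ W ⊆ D ∧
      ∃ (T : Finset J) (A : J → ℝ), Summable A ∧
      ∀ w ∈ W, ∀ j ∉ T, ‖G j w‖ / (1 - ‖G j w‖) ≤ A j := by
    intro z hz
    obtain ⟨W, hW, T, A, hA, hWA⟩ := hloc z hz
    refine ⟨interior W ∩ ⋂ j ∈ T, {w | ‖G j w‖ < 1}, ?_, ?_, ?_, T, fun j => 2 * A j,
      hA.mul_left 2, ?_⟩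
    · apply isOpen_interior.inter
      exact isOpen_biInter_finset (fun j _ => isOpen_lt (hGc j).norm continuous_const)
    · refine ⟨mem_interior_iff_mem_nhds.mpr hW, ?_⟩
      rw [Set.mem_iInter₂]
      intro j _
      exact (hD z).mp hz j
    · rintro w ⟨hw1, hw2⟩
      rw [hD]
      intro j
      by_cases hj : j ∈ T
      · rw [Set.mem_iInter₂] at hw2
        exact hw2 j hj
      · have := (hWA w (interior_subset hw1) j hj).2
        linarith
    · rintro w ⟨hw1, -⟩ j hj
      obtain ⟨h1, h2⟩ := hWA w (interior_subset hw1) j hj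
      have h3 := norm_nonneg (G j w)
      rw [div_le_iff₀ (by linarith)]
      nlinarith
  have hDo : IsOpen D := by
    rw [isOpen_iff_mem_nhds]
    intro z hz
    obtain ⟨W, hWo, hzW, hWD, -⟩ := hloc' z hz
    exact mem_of_superset (hWo.mem_nhds hzW) hWD
  set g : J → Cn n → ℝ := fun j w => ‖G j w‖ / (1 - ‖G j w‖) with hg
  have hgnn : ∀ w ∈ D, ∀ j, 0 ≤ g j w := by
    intro w hw j
    have := (hD w).mp hw j
    exact div_nonneg (norm_nonneg _) (by linarith)
  have hgcont : ∀ j, ContinuousOn (g j) D := by
    intro j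
    apply ContinuousOn.div (hGc j).norm.continuousOn
      (continuousOn_const.sub (hGc j).norm.continuousOn)
    intro w hw
    have := (hD w).mp hw j
    exact ne_of_gt (show (0 : ℝ) < 1 - ‖G j w‖ by linarith)
  have hgsum : ∀ w ∈ D, Summable (fun j => g j w) := by
    intro w hw
    obtain ⟨W, -, hwW, -, T, A, hA, hWA⟩ := hloc' w hw
    apply Summable.of_norm_bounded_eventually hA
    rw [Filter.eventually_cofinite]
    apply T.finite_toSet.subset
    intro j hj
    by_contra hjT
    apply hj
    rw [Real.norm_of_nonneg (hgnn w hw j)]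
    exact hWA w hwW j hjT
  have hcont : ContinuousOn (fun w => ∑' j, g j w) D := by
    intro z hz
    obtain ⟨W, hWo, hzW, hWD, T, A, hA, hWA⟩ := hloc' z hz
    have h1 : ContinuousOn (fun w => ∑ j ∈ T, g j w
        + ∑' j, (if j ∈ T then 0 else g j w)) W := by
      apply ContinuousOn.add
      · exact continuousOn_finsetSum _ (fun j _ => (hgcont j).mono hWD)
      · apply continuousOn_tsum (u := fun j => |A j|)
        · intro j
          by_cases hj : j ∈ T
          · simp only [hj, if_true]; exact continuousOn_const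
          · simp only [hj, if_false]; exact (hgcont j).mono hWD
        · exact hA.abs
        · intro j w hw
          by_cases hj : j ∈ T
          · simp only [hj, if_true, norm_zero]; exact abs_nonneg _
          · simp only [hj, if_false]
            rw [Real.norm_of_nonneg (hgnn w (hWD hw) j)]
            exact (hWA w hw j hj).trans (le_abs_self _)
    have h2 : ∀ w ∈ W, ∑' j, g j w = ∑ j ∈ T, g j w + ∑' j, (if j ∈ T then 0 else g j w) := by
      intro w hw
      have h3 : Summable (fun j => if j ∈ T then g j w else 0) := by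
        apply summable_of_ne_finset_zero (s := T)
        intro j hj
        simp [hj]
      have h4 : Summable (fun j => if j ∈ T then 0 else g j w) := by
        apply Summable.of_nonneg_of_le _ _ (hgsum w (hWD hw))
        · intro j
          by_cases hj : j ∈ T
          · simp [hj]
          · simp only [hj, if_false]; exact hgnn w (hWD hw) j
        · intro j
          by_cases hj : j ∈ T
          · simp only [hj, if_true]; exact hgnn w (hWD hw) j
          · simp [hj]
      have h5 : ∑' j, (if j ∈ T then g j w else 0) = ∑ j ∈ T, g j w := by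
        rw [tsum_eq_sum (s := T)]
        · apply Finset.sum_congr rfl
          intro j hj
          simp [hj]
        · intro j hj
          simp [hj]
      rw [← h5, ← h3.tsum_add h4]
      apply tsum_congr
      intro j
      by_cases hj : j ∈ T
      · simp [hj]
      · simp [hj]
    have h3 : ContinuousAt (fun w => ∑ j ∈ T, g j w
        + ∑' j, (if j ∈ T then 0 else g j w)) z := h1.continuousAt (hWo.mem_nhds hzW)
    have h4 : (fun w => ∑' j, g j w) =ᶠ[𝓝 z] (fun w => ∑ j ∈ T, g j w
        + ∑' j, (if j ∈ T then 0 else g j w)) := by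
      filter_upwards [hWo.mem_nhds hzW] with w hw
      exact h2 w hw
    exact (h3.congr h4.symm).continuousWithinAt
  refine ⟨hDo, fun w => ∑' j, g j w, hcont, ?_, ?_⟩
  · intro a b hab
    have ha : a ∈ D := by simpa using hab 0 (by simp)
    apply (hgsum a ha).tsum_le_of_sum_le
    intro T
    have hline : Continuous (fun l : ℂ => a + l • b) := by fun_prop
    have hi : ∀ j, CircleIntegrable (fun l : ℂ => g j (a + l • b)) 0 1 := by
      intro j
      apply ContinuousOn.circleIntegrable zero_le_one
      apply (hgcont j).comp hline.continuousOn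
      intro l hl
      exact hab l (by simpa using hl.le)
    have h1 : ∀ j, g j a ≤ circleAverage (fun l : ℂ => g j (a + l • b)) 0 1 := by
      intro j
      have h2 := submean_aux (G := fun l : ℂ => G j (a + l • b))
        ((hG j).comp (by fun_prop)) (fun l hl => (hD _).mp (hab l hl) j)
      simpa using h2
    calc ∑ j ∈ T, g j a ≤ ∑ j ∈ T, circleAverage (fun l : ℂ => g j (a + l • b)) 0 1 :=
          Finset.sum_le_sum (fun j _ => h1 j)
      _ = circleAverage (fun l : ℂ => ∑ j ∈ T, g j (a + l • b)) 0 1 := by
          rw [circleAverage_fun_sum (fun j _ => hi j)]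
      _ ≤ circleAverage (fun l : ℂ => ∑' j, g j (a + l • b)) 0 1 := by
          apply circleAverage_mono
          · apply ContinuousOn.circleIntegrable zero_le_one
            apply continuousOn_finsetSum
            intro j _
            apply (hgcont j).comp hline.continuousOn
            intro l hl
            exact hab l (by simpa using hl.le)
          · apply ContinuousOn.circleIntegrable zero_le_one
            apply ContinuousOn.comp hcont hline.continuousOn
            intro l hl
            exact hab l (by simpa using hl.le)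
          · intro l hl
            have hl' : a + l • b ∈ D := hab l (by simpa using hl.le)
            exact (hgsum _ hl').sum_le_tsum T (fun j _ => hgnn _ hl' j)
  · intro c
    apply Metric.isCompact_of_isClosed_isBounded
    · rw [← closure_subset_iff_isClosed]
      intro z hz
      obtain ⟨x, hx, hlim⟩ := mem_closure_iff_seq_limit.mp hz
      have hc0 : 0 ≤ c := (tsum_nonneg (fun j => hgnn _ (hx 0).1 j)).trans (hx 0).2
      have hle : ∀ m j, ‖G j (x m)‖ ≤ c / (1 + c) := by
        intro m j
        have h1 : g j (x m) ≤ c := by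
          refine le_trans ?_ (hx m).2
          have h2 := (hgsum _ (hx m).1).sum_le_tsum {j} (fun j _ => hgnn _ (hx m).1 j)
          simpa using h2
        have h3 := (hD _).mp (hx m).1 j
        change ‖G j (x m)‖ / (1 - ‖G j (x m)‖) ≤ c at h1
        rw [div_le_iff₀ (by linarith)] at h1
        rw [le_div_iff₀ (by linarith)]
        linarith
      have hzD : z ∈ D := by
        rw [hD]
        intro j
        have h1 : Tendsto (fun m => ‖G j (x m)‖) atTop (𝓝 ‖G j z‖) :=
          ((hGc j).norm.tendsto z).comp hlim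
        have h2 : ‖G j z‖ ≤ c / (1 + c) := le_of_tendsto h1 (Eventually.of_forall (fun m => hle m j))
        refine lt_of_le_of_lt h2 ?_
        rw [div_lt_one (by linarith)]
        linarith
      refine ⟨hzD, ?_⟩
      have h1 : Tendsto (fun m => ∑' j, g j (x m)) atTop (𝓝 (∑' j, g j z)) :=
        (hcont.continuousAt (hDo.mem_nhds hzD)).tendsto.comp hlim
      exact le_of_tendsto h1 (Eventually.of_forall (fun m => (hx m).2))
    · exact hbdd.subset (fun z hz => hz.1)

end Pool.Agent.Helper58.Kob
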