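import Mathlib

/-!
# Rays and orbits of linear semigroups

Definitions for problem `MP_c0f1e3_an`.
-/

set_option autoImplicit false

noncomputable section

namespace Pool.Agent.Helper58.Rays

universe u

variable (𝕜 : Type) [RCLike 𝕜] {V : Type u} [NormedAddCommGroup V] [NormedSpace 𝕜 V]

/-- The ray `{t w : t > 0}`. -/
def ray (w : V) : Set V := {x | ∃ t : ℝ, 0 < t ∧ x = (t : 𝕜) • w}

/-- The open balls of some radius `D > 0` centred at the points of `A` cover `Y`. -/
def CoarselyDenseAlong (A Y : Set V) : Prop := ∃ D : ℝ, 0 < D ∧ Y ⊆ ⋃ a ∈ A, Metric.ball a D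

/-- The closure of `A` has nonempty interior. -/
def SomewhereDense (A : Set V) : Prop := (interior (closure A)).Nonempty

/-- `S` is generated by a finite (nonempty) set of pairwise commuting invertible linear maps. -/
def IsFGComm (S : Subsemigroup (V ≃ₗ[𝕜] V)) : Prop :=
  ∃ F : Set (V ≃ₗ[𝕜] V), F.Finite ∧ F.Nonempty ∧ (∀ a ∈ F, ∀ b ∈ F, a * b = b * a) ∧
    S = Subsemigroup.closure F

/-- The orbit of `v`. -/
def orbit (S : Subsemigroup (V ≃ₗ[𝕜] V)) (v : V) : Set V := {x | ∃ s ∈ S, x = s v}

/-- The finite family of rays spanned by the `w i` forces somewhere dense orbits: every finitely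
generated commutative linear semigroup with an orbit that is coarsely dense along the union of
the rays has a somewhere dense orbit. -/
def Forcing {m : ℕ} (w : Fin m → V) : Prop :=
  ∀ S : Subsemigroup (V ≃ₗ[𝕜] V), IsFGComm 𝕜 S →
    (∃ v, CoarselyDenseAlong (orbit 𝕜 S v) (⋃ i, ray 𝕜 (w i))) →
      ∃ v, SomewhereDense (orbit 𝕜 S v)

variable (V) in
/-- There are finitely many rays in `V` that force somewhere dense orbits. -/
def HasForcingRays : Prop :=
  ∃ (m : ℕ) (w : Fin m → V), (∀ i, w i ≠ 0) ∧ Forcing 𝕜 w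

end Pool.Agent.Helper58.Rays
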