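import Pool.Agent.Helper58.RayDefs

/-!
# In dimension at most one finitely many rays force somewhere dense orbits
-/

set_option autoImplicit false

noncomputable section

open Filter Topology

namespace Pool.Agent.Helper58.Rays

universe u

/-- A finitely generated multiplicative monoid of reals `≥ 1` is sparse. -/
lemma summable_inv_closure {F : Set ℝ} (hF : F.Finite) (h1 : ∀ r ∈ F, 1 ≤ r) :
    Summable (fun a : Submonoid.closure F => (a : ℝ)⁻¹) := by
  induction F, hF using Set.Finite.induction_on with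
  | empty =>
    have hfin : ((Submonoid.closure (∅ : Set ℝ) : Submonoid ℝ) : Set ℝ).Finite := by
      rw [Submonoid.closure_empty, Submonoid.coe_bot]
      exact Set.finite_singleton 1
    have : Finite (Submonoid.closure (∅ : Set ℝ)) := hfin.to_subtype
    exact Summable.of_finite
  | @insert r F _ _ ih =>
    have ih' := ih (fun r hr => h1 r (Set.mem_insert_of_mem _ hr))
    have hr := h1 r (Set.mem_insert _ _)
    rcases hr.eq_or_lt with hr1 | hr1
    · have heq : Submonoid.closure (insert r F) = Submonoid.closure F := by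
        apply le_antisymm
        · rw [Submonoid.closure_le]
          rintro x (rfl | hx)
          · rw [← hr1]; exact (Submonoid.closure F).one_mem
          · exact Submonoid.subset_closure hx
        · exact Submonoid.closure_mono (Set.subset_insert _ _)
      rw [heq]
      exact ih'
    · have hex : ∀ a : Submonoid.closure (insert r F), ∃ (n : ℕ) (y : Submonoid.closure F),
          r ^ n * (y : ℝ) = a := by
        rintro ⟨a, ha⟩
        rw [Set.insert_eq, Submonoid.closure_union, Submonoid.mem_sup] at ha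
        obtain ⟨x, hx, y, hy, rfl⟩ := ha
        rw [Submonoid.mem_closure_singleton] at hx
        obtain ⟨n, rfl⟩ := hx
        exact ⟨n, ⟨y, hy⟩, rfl⟩
      choose n y hny using hex
      have hpos : ∀ y : Submonoid.closure F, 0 ≤ (y : ℝ)⁻¹ := by
        intro y
        have : ∀ z ∈ Submonoid.closure F, (0 : ℝ) ≤ z := by
          intro z hz
          induction hz using Submonoid.closure_induction with
          | mem z hz => exact zero_le_one.trans (h1 z (Set.mem_insert_of_mem _ hz))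
          | one => exact zero_le_one
          | mul a b _ _ ha hb => exact mul_nonneg ha hb
        exact inv_nonneg.mpr (this y y.2)
      have h2 : Summable (fun p : ℕ × Submonoid.closure F => (r⁻¹) ^ p.1 * ((p.2 : ℝ))⁻¹) := by
        apply Summable.mul_of_nonneg (f := fun n : ℕ => (r⁻¹) ^ n)
          (g := fun y : Submonoid.closure F => (y : ℝ)⁻¹) _ ih'
        · intro n; positivity
        · exact hpos
        · exact summable_geometric_of_lt_one (by positivity) (inv_lt_one_of_one_lt₀ hr1)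
      have hinj : Function.Injective (fun a : Submonoid.closure (insert r F) => (n a, y a)) := by
        intro a b hab
        simp only [Prod.mk.injEq] at hab
        apply Subtype.ext
        rw [← hny a, ← hny b, hab.1, hab.2]
      have h3 := h2.comp_injective hinj
      have h4 : (fun a : Submonoid.closure (insert r F) => (a : ℝ)⁻¹)
          = (fun p : ℕ × Submonoid.closure F => (r⁻¹) ^ p.1 * ((p.2 : ℝ))⁻¹) ∘
            (fun a : Submonoid.closure (insert r F) => (n a, y a)) := by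
        funext a
        simp only [Function.comp_apply]
        rw [← hny a, mul_inv, inv_pow]
      rw [h4]
      exact h3

/-- Recurrence of rotations. -/
lemma recurrence {𝕜 : Type} [RCLike 𝕜] {u : 𝕜} (hu : ‖u‖ = 1) (ε : ℝ) (hε : 0 < ε) (N : ℕ) :
    ∃ n, N ≤ n ∧ ‖u ^ n - 1‖ < ε := by
  obtain ⟨a, -, φ, hφ, hlim⟩ := (isCompact_closedBall (0 : 𝕜) 1).tendsto_subseq
    (x := fun n => u ^ n) (fun n => by simp [hu])
  have h1 : Tendsto (fun j => ((fun n => u ^ n) ∘ φ) (j + N) - ((fun n => u ^ n) ∘ φ) j) atTop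
      (𝓝 (a - a)) := ((tendsto_add_atTop_iff_nat N).mpr hlim).sub hlim
  rw [sub_self] at h1
  obtain ⟨j, hj⟩ := ((tendsto_zero_iff_norm_tendsto_zero.mp h1).eventually (gt_mem_nhds hε)).exists
  have h2 : N + φ j ≤ φ (j + N) := by
    rw [add_comm j N]
    exact hφ.add_le_nat N j
  refine ⟨φ (j + N) - φ j, by omega, ?_⟩
  simp only [Function.comp_apply] at hj
  have h3 : u ^ φ (j + N) = u ^ φ j * u ^ (φ (j + N) - φ j) := by
    rw [← pow_add]
    congr 1
    omega
  rw [h3, ← mul_sub_one, norm_mul, norm_pow, hu, one_pow, one_mul] at hj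
  exact hj

variable {𝕜 : Type} [RCLike 𝕜] {V : Type u} [NormedAddCommGroup V] [NormedSpace 𝕜 V]

lemma exists_sc (hdim : Module.finrank 𝕜 V = 1) :
    ∃ sc : (V ≃ₗ[𝕜] V) → 𝕜, ∀ s x, s x = sc s • x := by
  have : Nontrivial V := Module.nontrivial_of_finrank_pos (R := 𝕜) (by omega)
  obtain ⟨w₀, hw₀⟩ := exists_ne (0 : V)
  have hspan := (finrank_eq_one_iff_of_nonzero' w₀ hw₀).mp hdim
  have hex : ∀ s : V ≃ₗ[𝕜] V, ∃ c : 𝕜, ∀ x, s x = c • x := by
    intro s
    obtain ⟨c, hc⟩ := hspan (s w₀)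
    refine ⟨c, fun x => ?_⟩
    obtain ⟨d, rfl⟩ := hspan x
    rw [map_smul, ← hc, smul_comm]
  choose sc hsc using hex
  exact ⟨sc, hsc⟩

/-- A coarsely dense orbit needs a contraction among the generators. -/
lemma exists_contraction {sc : (V ≃ₗ[𝕜] V) → 𝕜} (hsc : ∀ s x, s x = sc s • x)
    {F : Set (V ≃ₗ[𝕜] V)} (hF : F.Finite) {v w : V} (hw : w ≠ 0)
    (hcd : CoarselyDenseAlong (orbit 𝕜 (Subsemigroup.closure F) v) (ray 𝕜 w)) :
    ∃ g ∈ F, ‖sc g‖ < 1 := by
  by_contra hcon
  push Not at hcon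
  obtain ⟨D, hD, hcov⟩ := hcd
  have hw' : 0 < ‖w‖ := norm_pos_iff.mpr hw
  have hscmul : ∀ s t : V ≃ₗ[𝕜] V, sc (s * t) = sc s * sc t := by
    intro s t
    have h1 : sc (s * t) • w = (sc s * sc t) • w := by
      rw [← hsc, LinearEquiv.mul_apply, hsc t, map_smul, hsc s, smul_smul, mul_comm]
    exact smul_left_injective 𝕜 hw h1
  set F' : Set ℝ := (fun g => ‖sc g‖) '' F with hF'
  have hF'1 : ∀ r ∈ F', 1 ≤ r := by
    rintro r ⟨g, hg, rfl⟩
    exact hcon g hg
  have hM : ∀ s ∈ Subsemigroup.closure F, ‖sc s‖ ∈ Submonoid.closure F' := by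
    intro s hs
    induction hs using Subsemigroup.closure_induction with
    | mem s hs => exact Submonoid.subset_closure ⟨s, hs, rfl⟩
    | mul s t _ _ h1 h2 =>
      rw [hscmul, norm_mul]
      exact (Submonoid.closure F').mul_mem h1 h2
  have hsum := summable_inv_closure (hF.image _) hF'1
  -- choose points
  have hex : ∀ n : ℕ, ∃ s ∈ Subsemigroup.closure F,
      |‖sc s‖ * ‖v‖ - 3 * D * (n + 1)| < D := by
    intro n
    have h1 : (((3 * D * (n + 1) / ‖w‖ : ℝ)) : 𝕜) • w ∈ ray 𝕜 w :=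
      ⟨_, by positivity, rfl⟩
    have h2 := hcov h1
    rw [Set.mem_iUnion₂] at h2
    obtain ⟨_, ⟨s, hs, rfl⟩, h3⟩ := h2
    refine ⟨s, hs, ?_⟩
    rw [Metric.mem_ball, dist_comm, dist_eq_norm] at h3
    refine lt_of_le_of_lt ?_ h3
    have h4 : ‖s v‖ = ‖sc s‖ * ‖v‖ := by rw [hsc, norm_smul]
    have h5 : ‖(((3 * D * (n + 1) / ‖w‖ : ℝ)) : 𝕜) • w‖ = 3 * D * (n + 1) := by
      rw [norm_smul, RCLike.norm_ofReal, abs_of_pos (by positivity)]
      field_simp
    calc |‖sc s‖ * ‖v‖ - 3 * D * (n + 1)|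
        = |‖s v‖ - ‖(((3 * D * (n + 1) / ‖w‖ : ℝ)) : 𝕜) • w‖| := by rw [h4, h5]
      _ ≤ _ := abs_norm_sub_norm_le _ _
  choose s hs hsb using hex
  have hb1 : ∀ n, 3 * D * (n + 1) - D < ‖sc (s n)‖ * ‖v‖ := fun n => by
    have := (abs_lt.mp (hsb n)).1; linarith
  have hb2 : ∀ n, ‖sc (s n)‖ * ‖v‖ < 3 * D * (n + 1) + D := fun n => by
    have := (abs_lt.mp (hsb n)).2; linarith
  have hv : 0 < ‖v‖ := by
    rcases (norm_nonneg v).eq_or_lt with h | h
    · exfalso
      have h1 := hb1 0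
      rw [← h] at h1
      push_cast at h1
      linarith
    · exact h
  have hmono : StrictMono (fun n => ‖sc (s n)‖ * ‖v‖) := by
    apply strictMono_nat_of_lt_succ
    intro n
    have h1 := hb2 n
    have h2 := hb1 (n + 1)
    push_cast at h2
    linarith
  have hinj : Function.Injective (fun n => (⟨‖sc (s n)‖, hM _ (hs n)⟩ : Submonoid.closure F')) := by
    intro n m hnm
    simp only [Subtype.mk.injEq] at hnm
    apply hmono.injective
    simp only [hnm]
  have h1 := hsum.comp_injective hinj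
  have h2 : Summable (fun n : ℕ => (‖v‖ / (4 * D)) * (1 / ((n + 1 : ℕ) : ℝ))) := by
    apply Summable.of_nonneg_of_le (fun n => by positivity) _ h1
    intro n
    simp only [Function.comp_apply]
    have h3 := hb2 n
    have h4 : 0 < ‖sc (s n)‖ := by
      have := hb1 n
      have h5 : (0 : ℝ) ≤ n := Nat.cast_nonneg n
      by_contra h6
      push Not at h6
      have h7 : ‖sc (s n)‖ * ‖v‖ ≤ 0 := mul_nonpos_of_nonpos_of_nonneg h6 hv.le
      nlinarith
    rw [div_mul_div_comm, mul_one, div_le_iff₀ (by positivity), ← div_eq_inv_mul,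
      le_div_iff₀ h4]
    push_cast
    have h5 : (0 : ℝ) ≤ n := Nat.cast_nonneg n
    nlinarith
  have h3 : Summable (fun n : ℕ => (1 / ((n + 1 : ℕ) : ℝ))) := by
    have hne : (‖v‖ / (4 * D)) ≠ 0 := by positivity
    exact (summable_mul_left_iff hne).mp h2
  rw [summable_nat_add_iff (f := fun n : ℕ => 1 / (n : ℝ)) 1] at h3
  exact Real.not_summable_one_div_natCast h3

/-- The closure of the orbit contains the ray. -/
lemma ray_subset_closure {sc : (V ≃ₗ[𝕜] V) → 𝕜} (hsc : ∀ s x, s x = sc s • x)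
    {F : Set (V ≃ₗ[𝕜] V)} (hF : F.Finite) {v w : V} (hw : w ≠ 0)
    (hcd : CoarselyDenseAlong (orbit 𝕜 (Subsemigroup.closure F) v) (ray 𝕜 w)) :
    ray 𝕜 w ⊆ closure (orbit 𝕜 (Subsemigroup.closure F) v) := by
  obtain ⟨g, hg, hg1⟩ := exists_contraction hsc hF hw hcd
  obtain ⟨D, hD, hcov⟩ := hcd
  have hw' : 0 < ‖w‖ := norm_pos_iff.mpr hw
  have hy0 : sc g ≠ 0 := by
    intro h
    have h1 := hsc g w
    rw [h, zero_smul] at h1
    exact hw ((LinearEquiv.map_eq_zero_iff g).mp h1)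
  set r : ℝ := ‖sc g‖ with hr
  have hrpos : 0 < r := norm_pos_iff.mpr hy0
  set u : 𝕜 := sc g / (r : 𝕜) with hu
  have hrne : (r : 𝕜) ≠ 0 := by
    rw [Ne, RCLike.ofReal_eq_zero]; exact hrpos.ne'
  have hu1 : ‖u‖ = 1 := by
    rw [hu, norm_div, RCLike.norm_ofReal, abs_of_pos hrpos, ← hr, div_self hrpos.ne']
  have hgpow : ∀ (n : ℕ) (x : V), (g ^ n) x = (sc g) ^ n • x := by
    intro n x
    induction n with
    | zero => simp
    | succ n ih => rw [pow_succ', LinearEquiv.mul_apply, ih, hsc, smul_smul, pow_succ']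
  have hgS : ∀ (n : ℕ), ∀ s ∈ Subsemigroup.closure F, g ^ n * s ∈ Subsemigroup.closure F := by
    intro n
    induction n with
    | zero => intro s hs; simpa using hs
    | succ n ih =>
      intro s hs
      rw [pow_succ, mul_assoc]
      exact ih _ ((Subsemigroup.closure F).mul_mem (Subsemigroup.subset_closure hg) hs)
  rintro _ ⟨t, ht, rfl⟩
  rw [Metric.mem_closure_iff]
  intro ε hε
  -- choose n
  obtain ⟨N, hN⟩ : ∃ N : ℕ, ∀ n ≥ N, r ^ n * D < ε / 2 := by
    have h1 : Tendsto (fun n : ℕ => r ^ n * D) atTop (𝓝 (0 * D)) :=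
      (tendsto_pow_atTop_nhds_zero_of_lt_one hrpos.le hg1).mul_const D
    rw [zero_mul] at h1
    exact eventually_atTop.mp (h1.eventually (gt_mem_nhds (by positivity)))
  obtain ⟨n, hn, hun⟩ := recurrence hu1 (ε / (2 * (t * ‖w‖))) (by positivity) N
  have h1 : ((t / r ^ n : ℝ) : 𝕜) • w ∈ ray 𝕜 w := ⟨_, by positivity, rfl⟩
  have h2 := hcov h1
  rw [Set.mem_iUnion₂] at h2
  obtain ⟨_, ⟨s, hs, rfl⟩, h3⟩ := h2
  rw [Metric.mem_ball, dist_eq_norm] at h3
  refine ⟨(g ^ n * s) v, ⟨_, hgS n s hs, rfl⟩, ?_⟩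
  rw [LinearEquiv.mul_apply, hgpow, dist_eq_norm]
  have h4 : (sc g) ^ n = u ^ n * (r : 𝕜) ^ n := by
    rw [← mul_pow, hu, div_mul_cancel₀ _ hrne]
  have h5 : (t : 𝕜) • w - (sc g) ^ n • s v
      = (sc g) ^ n • (((t / r ^ n : ℝ) : 𝕜) • w - s v) - ((u ^ n - 1) * (t : 𝕜)) • w := by
    rw [smul_sub, smul_smul, h4]
    have h6 : u ^ n * (r : 𝕜) ^ n * ((t / r ^ n : ℝ) : 𝕜) = u ^ n * t := by
      push_cast
      field_simp
    rw [h6]
    module
  rw [h5]
  calc _ ≤ ‖(sc g) ^ n • (((t / r ^ n : ℝ) : 𝕜) • w - s v)‖ + ‖((u ^ n - 1) * (t : 𝕜)) • w‖ :=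
        norm_sub_le _ _
    _ = r ^ n * ‖((t / r ^ n : ℝ) : 𝕜) • w - s v‖ + ‖u ^ n - 1‖ * (t * ‖w‖) := by
        rw [norm_smul, norm_smul, norm_pow, norm_mul, RCLike.norm_ofReal, abs_of_pos ht]
        ring
    _ ≤ r ^ n * D + ‖u ^ n - 1‖ * (t * ‖w‖) := by
        gcongr
    _ < ε / 2 + ε / 2 := by
        apply add_lt_add (hN n hn)
        have h6 : 0 < t * ‖w‖ := by positivity
        calc ‖u ^ n - 1‖ * (t * ‖w‖) < ε / (2 * (t * ‖w‖)) * (t * ‖w‖) :=
              mul_lt_mul_of_pos_right hun h6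
          _ = ε / 2 := by field_simp
    _ = ε := by ring

lemma coarse_mono {A Y Y' : Set V} (h : CoarselyDenseAlong A Y) (hY : Y' ⊆ Y) :
    CoarselyDenseAlong A Y' := by
  obtain ⟨D, hD, hc⟩ := h
  exact ⟨D, hD, hY.trans hc⟩

/-- Dimension zero. -/
lemma hasForcing_zero (hdim : Module.finrank 𝕜 V = 0) [FiniteDimensional 𝕜 V] :
    HasForcingRays 𝕜 V := by
  have : Subsingleton V := Module.finrank_zero_iff.mp hdim
  refine ⟨0, Fin.elim0, fun i => i.elim0, ?_⟩
  rintro S ⟨F, -, ⟨s, hs⟩, -, rfl⟩ -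
  refine ⟨0, 0, ?_⟩
  have h1 : orbit 𝕜 (Subsemigroup.closure F) (0 : V) = Set.univ := by
    apply Set.eq_univ_of_forall
    intro x
    exact ⟨s, Subsemigroup.subset_closure hs, Subsingleton.elim _ _⟩
  rw [h1]
  simp

/-- Real dimension one. -/
lemma hasForcing_real {V : Type u} [NormedAddCommGroup V] [NormedSpace ℝ V]
    [FiniteDimensional ℝ V] (hdim : Module.finrank ℝ V = 1) : HasForcingRays ℝ V := by
  have : Nontrivial V := Module.nontrivial_of_finrank_pos (R := ℝ) (by omega)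
  obtain ⟨w, hw⟩ := exists_ne (0 : V)
  obtain ⟨sc, hsc⟩ := exists_sc hdim
  refine ⟨1, fun _ => w, fun _ => hw, ?_⟩
  rintro S ⟨F, hF, -, -, rfl⟩ ⟨v, hv⟩
  refine ⟨v, w, ?_⟩
  have h1 := ray_subset_closure hsc hF hw (coarse_mono hv (fun x hx => by
    rw [Set.mem_iUnion]; exact ⟨0, hx⟩))
  have hspan := (finrank_eq_one_iff_of_nonzero' w hw).mp hdim
  obtain ⟨f, hf⟩ := Module.exists_dual_forall_apply_ne_zero (K := ℝ) (fun _ : Unit => w)
    (fun _ => hw)
  have hfw : f w ≠ 0 := hf ()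
  have hfc : Continuous f := f.continuous_of_finiteDimensional
  rw [mem_interior]
  refine ⟨{x | 0 < f x / f w}, ?_, ?_, ?_⟩
  · intro x hx
    apply h1
    obtain ⟨c, rfl⟩ := hspan x
    refine ⟨c, ?_, rfl⟩
    rw [Set.mem_ofPred_eq, map_smul, smul_eq_mul, mul_div_assoc, div_self hfw, mul_one] at hx
    exact hx
  · exact isOpen_lt continuous_const (hfc.div_const _)
  · rw [Set.mem_ofPred_eq, div_self hfw]
    exact one_pos

/-- Powers of an element of infinite order are dense in the circle. -/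
lemma dense_pow_circle (u : Circle) (hu : ¬ IsOfFinOrder u) :
    DenseRange (fun n : ℕ => u ^ n) := by
  obtain ⟨a, ha⟩ := (AddCircle.homeomorphCircle' ).surjective u
  have h2pi : Fact (0 < 2 * Real.pi) := ⟨by positivity⟩
  have hcoe : ∀ a : AddCircle (2 * Real.pi), AddCircle.homeomorphCircle' a
      = AddCircle.toCircle a := by
    intro a
    induction a using QuotientAddGroup.induction_on with
    | H x =>
      rw [AddCircle.homeomorphCircle'_apply_mk, AddCircle.toCircle_apply_mk]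
      congr 1
      field_simp
  have hmul : ∀ n : ℕ, AddCircle.homeomorphCircle' (n • a) = u ^ n := by
    intro n
    rw [hcoe, AddCircle.toCircle_nsmul, ← hcoe, ha]
  have hord : addOrderOf a = 0 := by
    rw [addOrderOf_eq_zero_iff]
    intro hfin
    apply hu
    rw [isOfFinAddOrder_iff_nsmul_eq_zero] at hfin
    obtain ⟨n, hn, hna⟩ := hfin
    rw [isOfFinOrder_iff_pow_eq_one]
    refine ⟨n, hn, ?_⟩
    rw [← hmul, hna, hcoe]
    simp
  have hd : DenseRange (fun n : ℕ => n • a) := by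
    rw [← denseRange_zsmul_iff_nsmul]
    exact AddCircle.denseRange_zsmul_iff.mpr hord
  have h3 := (AddCircle.homeomorphCircle'.surjective.denseRange).comp hd
    AddCircle.homeomorphCircle'.continuous
  convert h3 using 1
  funext n
  exact (hmul n).symm

lemma exp_one_not_finOrder : ¬ IsOfFinOrder (Circle.exp 1) := by
  intro h
  rw [isOfFinOrder_iff_pow_eq_one] at h
  obtain ⟨n, hn, h1⟩ := h
  rw [← Circle.exp_natCast_mul, Circle.exp_eq_one] at h1
  obtain ⟨k, hk⟩ := h1
  have hn' : (0 : ℝ) < n := by exact_mod_cast hn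
  have hk0 : (k : ℝ) ≠ 0 := by
    intro h0
    rw [h0] at hk
    linarith
  apply irrational_pi
  refine ⟨(n : ℚ) / (2 * k), ?_⟩
  push_cast
  rw [div_eq_iff (by positivity)]
  linarith

/-- Complex dimension one. -/
lemma hasForcing_complex {V : Type u} [NormedAddCommGroup V] [NormedSpace ℂ V]
    [FiniteDimensional ℂ V] (hdim : Module.finrank ℂ V = 1) : HasForcingRays ℂ V := by
  have : Nontrivial V := Module.nontrivial_of_finrank_pos (R := ℂ) (by omega)
  obtain ⟨w, hw⟩ := exists_ne (0 : V)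
  obtain ⟨sc, hsc⟩ := exists_sc hdim
  have hξ : ((Circle.exp 1 : Circle) : ℂ) ≠ 0 := Circle.coe_ne_zero _
  have hw' : ((Circle.exp 1 : Circle) : ℂ) • w ≠ 0 := smul_ne_zero hξ hw
  refine ⟨2, ![w, ((Circle.exp 1 : Circle) : ℂ) • w], ?_, ?_⟩
  · intro i
    fin_cases i
    · exact hw
    · exact hw'
  rintro S ⟨F, hF, -, -, rfl⟩ ⟨v, hv⟩
  refine ⟨v, ?_⟩
  have h1 := ray_subset_closure hsc hF hw (coarse_mono hv (fun x hx => by
    rw [Set.mem_iUnion]; exact ⟨0, hx⟩))
  have h2 := ray_subset_closure hsc hF hw' (coarse_mono hv (fun x hx => by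
    rw [Set.mem_iUnion]; exact ⟨1, hx⟩))
  have hspanw := (finrank_eq_one_iff_of_nonzero' w hw).mp hdim
  -- `v ≠ 0`
  have hv0 : v ≠ 0 := by
    rintro rfl
    have h3 : orbit ℂ (Subsemigroup.closure F) (0 : V) ⊆ {0} := by
      rintro x ⟨s, -, rfl⟩
      simp
    have h4 : w ∈ closure (orbit ℂ (Subsemigroup.closure F) (0 : V)) :=
      h1 ⟨1, one_pos, by simp⟩
    have h5 := closure_minimal h3 isClosed_singleton h4
    exact hw h5
  have hspan := (finrank_eq_one_iff_of_nonzero' v hv0).mp hdim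
  -- coordinate functional
  obtain ⟨φ₀, hφ₀⟩ := Module.exists_dual_forall_apply_ne_zero (K := ℂ) (fun _ : Unit => v)
    (fun _ => hv0)
  have hφ₀v : φ₀ v ≠ 0 := hφ₀ ()
  set φ : V →ₗ[ℂ] ℂ := (φ₀ v)⁻¹ • φ₀ with hφ
  have hφv : φ v = 1 := by
    rw [hφ, LinearMap.smul_apply, smul_eq_mul, inv_mul_cancel₀ hφ₀v]
  have hφc : Continuous φ := φ.continuous_of_finiteDimensional
  have hφx : ∀ x, φ x • v = x := by
    intro x
    obtain ⟨c, rfl⟩ := hspan x
    rw [map_smul, hφv, smul_eq_mul, mul_one]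
  -- scalars
  set Sg : Set ℂ := {c | ∃ s ∈ Subsemigroup.closure F, sc s = c} with hSg
  have hscmul : ∀ s t : V ≃ₗ[ℂ] V, sc (s * t) = sc s * sc t := by
    intro s t
    have h1 : sc (s * t) • w = (sc s * sc t) • w := by
      rw [← hsc, LinearEquiv.mul_apply, hsc t, map_smul, hsc s, smul_smul, mul_comm]
    exact smul_left_injective ℂ hw h1
  have hCmul : ∀ x ∈ closure Sg, ∀ y ∈ closure Sg, x * y ∈ closure Sg := by
    intro x hx y hy
    refine map_mem_closure₂ continuous_mul hx hy ?_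
    rintro a ⟨s, hs, rfl⟩ b ⟨t, ht, rfl⟩
    exact ⟨s * t, (Subsemigroup.closure F).mul_mem hs ht, hscmul s t⟩
  have hto : ∀ x ∈ closure (orbit ℂ (Subsemigroup.closure F) v), φ x ∈ closure Sg := by
    intro x hx
    refine map_mem_closure hφc hx ?_
    rintro _ ⟨s, hs, rfl⟩
    refine ⟨s, hs, ?_⟩
    rw [hsc, map_smul, hφv, smul_eq_mul, mul_one]
  have hfrom : ∀ c ∈ closure Sg, c • v ∈ closure (orbit ℂ (Subsemigroup.closure F) v) := by
    intro c hc
    refine map_mem_closure (f := fun c : ℂ => c • v) (by fun_prop) hc ?_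
    rintro _ ⟨s, hs, rfl⟩
    exact ⟨s, hs, (hsc s v).symm⟩
  -- the unit vectors
  have hφw : φ w ≠ 0 := by
    intro h
    apply hw
    rw [← hφx w, h, zero_smul]
  have hnorm : (‖φ w‖ : ℂ) ≠ 0 := by
    rw [Ne, Complex.ofReal_eq_zero, norm_eq_zero]; exact hφw
  set u₁ : Circle := Circle.exp (Complex.arg (φ w)) with hu₁
  have hpolar : ∀ z : ℂ, (‖z‖ : ℂ) * (Circle.exp (Complex.arg z) : Circle) = z := by
    intro z
    rw [Circle.coe_exp]
    exact Complex.norm_mul_exp_arg_mul_I z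
  have hpφ : (‖φ w‖ : ℂ) * (u₁ : ℂ) = φ w := hpolar (φ w)
  have hdivt : ∀ t : ℝ, ((t / ‖φ w‖ : ℝ) : ℂ) * φ w = (t : ℂ) * (u₁ : ℂ) := by
    intro t
    have h3 : ((t / ‖φ w‖ : ℝ) : ℂ) * ((‖φ w‖ : ℂ) * (u₁ : ℂ)) = (t : ℂ) * (u₁ : ℂ) := by
      rw [Complex.ofReal_div, ← mul_assoc, div_mul_cancel₀ _ hnorm]
    rwa [hpφ] at h3
  have hgood₁ : ∀ t : ℝ, 0 < t → (t : ℂ) * (u₁ : ℂ) ∈ closure Sg := by
    intro t ht
    have h3 := hto _ (h1 ⟨t / ‖φ w‖, by positivity, rfl⟩)
    rw [map_smul, smul_eq_mul] at h3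
    rw [← hdivt t]
    exact h3
  have hgood₂ : ∀ t : ℝ, 0 < t → (t : ℂ) * ((Circle.exp 1 * u₁ : Circle) : ℂ) ∈ closure Sg := by
    intro t ht
    have h3 := hto _ (h2 ⟨t / ‖φ w‖, by positivity, rfl⟩)
    rw [map_smul, map_smul, smul_eq_mul, smul_eq_mul] at h3
    have h4 : (t : ℂ) * ((Circle.exp 1 * u₁ : Circle) : ℂ)
        = ((Circle.exp 1 : Circle) : ℂ) * ((t : ℂ) * (u₁ : ℂ)) := by
      rw [Circle.coe_mul]; ring
    rw [h4, ← hdivt t]
    convert h3 using 1
    change _ = ((t / ‖φ w‖ : ℝ) : ℂ) * _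
    ring
  have hfinal : ∀ u : Circle, (∀ t : ℝ, 0 < t → (t : ℂ) * (u : ℂ) ∈ closure Sg) →
      ¬ IsOfFinOrder u → SomewhereDense (orbit ℂ (Subsemigroup.closure F) v) := by
    intro u hgood hinf
    have hpow : ∀ n : ℕ, ∀ t : ℝ, 0 < t → (t : ℂ) * ((u * u ^ n : Circle) : ℂ) ∈ closure Sg := by
      intro n
      induction n with
      | zero => intro t ht; simpa using hgood t ht
      | succ n ih =>
        intro t ht
        have h3 := hCmul _ (ih t ht) _ (hgood 1 one_pos)
        convert h3 using 1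
        push_cast
        ring
    have hdense : DenseRange (fun n : ℕ => u * u ^ n) :=
      ((Homeomorph.mulLeft u).surjective.denseRange).comp (dense_pow_circle u hinf)
        (Homeomorph.mulLeft u).continuous
    have hall : ∀ z : ℂ, z ≠ 0 → z ∈ closure Sg := by
      intro z hz
      have h3 : Circle.exp (Complex.arg z) ∈ closure (Set.range (fun n : ℕ => u * u ^ n)) :=
        hdense _
      have h4 := map_mem_closure (f := fun ζ : Circle => (‖z‖ : ℂ) * (ζ : ℂ))
        (t := closure Sg) (by fun_prop) h3 (by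
          rintro _ ⟨n, rfl⟩
          exact hpow n ‖z‖ (norm_pos_iff.mpr hz))
      rw [closure_closure] at h4
      rw [← hpolar z]
      exact h4
    refine ⟨v, ?_⟩
    rw [mem_interior]
    refine ⟨{x | φ x ≠ 0}, ?_, isOpen_ne_fun hφc continuous_const, ?_⟩
    · intro x hx
      rw [← hφx x]
      exact hfrom _ (hall _ hx)
    · change φ v ≠ 0
      rw [hφv]
      exact one_ne_zero
  by_cases hfin : IsOfFinOrder u₁
  · apply hfinal _ hgood₂
    intro h3
    apply exp_one_not_finOrder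
    have h4 := h3.mul hfin.inv
    rwa [mul_inv_cancel_right] at h4
  · exact hfinal _ hgood₁ hfin

end Pool.Agent.Helper58.Rays
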