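import Pool.Agent.Helper58.RayNeg
import Pool.Agent.Helper58.RayPos

/-!
# Rays forcing somewhere dense orbits exist exactly in dimension at most one
-/

set_option autoImplicit false

noncomputable section

namespace Pool.Agent.Helper58.Rays

universe u

theorem dim_le_one_of_hasForcing {𝕜 : Type} [RCLike 𝕜] {V : Type u} [NormedAddCommGroup V]
    [NormedSpace 𝕜 V] [FiniteDimensional 𝕜 V] (h : HasForcingRays 𝕜 V) :
    Module.finrank 𝕜 V ≤ 1 := by
  by_contra hcon
  push Not at hcon
  obtain ⟨m, w, hw, hf⟩ := h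
  exact not_forcing hcon w hw hf

theorem main :
    (∀ (V : Type u) [NormedAddCommGroup V] [NormedSpace ℝ V] [FiniteDimensional ℝ V],
      HasForcingRays ℝ V ↔ Module.finrank ℝ V ≤ 1) ∧
    (∀ (V : Type u) [NormedAddCommGroup V] [NormedSpace ℂ V] [FiniteDimensional ℂ V],
      HasForcingRays ℂ V ↔ Module.finrank ℂ V ≤ 1) := by
  refine ⟨?_, ?_⟩
  · intro V _ _ _
    refine ⟨dim_le_one_of_hasForcing, fun h => ?_⟩
    rcases Nat.le_one_iff_eq_zero_or_eq_one.mp h with h0 | h1
    · exact hasForcing_zero h0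
    · exact hasForcing_real h1
  · intro V _ _ _
    refine ⟨dim_le_one_of_hasForcing, fun h => ?_⟩
    rcases Nat.le_one_iff_eq_zero_or_eq_one.mp h with h0 | h1
    · exact hasForcing_zero h0
    · exact hasForcing_complex h1

end Pool.Agent.Helper58.Rays
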