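import Pool.Agent.Helper58.RayDefs

/-!
# In dimension at least two no finite family of rays forces somewhere dense orbits
-/

set_option autoImplicit false

noncomputable section

open Filter Topology

namespace Pool.Agent.Helper58.Rays

universe u

/-- The numbers `a - b √2` with `a, b` natural are dense in the line. -/
lemma exists_nat_sub_sqrt (t ε : ℝ) (hε : 0 < ε) :
    ∃ a b : ℕ, |(a : ℝ) - b * Real.sqrt 2 - t| < ε := by
  have hdense : DenseRange (fun n : ℕ => n • ((Real.sqrt 2 : ℝ) : AddCircle (1 : ℝ))) := by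
    rw [← denseRange_zsmul_iff_nsmul, AddCircle.denseRange_zsmul_coe_iff]
    simpa using irrational_sqrt_two
  have hs1 : (1 : ℝ) ≤ Real.sqrt 2 := by
    rw [Real.one_le_sqrt]; norm_num
  -- a large shift
  obtain ⟨K, hK⟩ := exists_nat_gt (|t| + 1 + ε)
  -- target: `n√2 ≡ - t - K √2`
  let x : AddCircle (1 : ℝ) := ((-t - K * Real.sqrt 2 : ℝ) : AddCircle (1 : ℝ))
  obtain ⟨n, hn⟩ := hdense.exists_mem_open (Metric.isOpen_ball (x := x) (ε := ε))
    ⟨x, Metric.mem_ball_self hε⟩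
  rw [Metric.mem_ball, dist_eq_norm] at hn
  have h1 : n • ((Real.sqrt 2 : ℝ) : AddCircle (1 : ℝ)) - x
      = ((n * Real.sqrt 2 + t + K * Real.sqrt 2 : ℝ) : AddCircle (1 : ℝ)) := by
    rw [← AddCircle.coe_nsmul, ← AddCircle.coe_sub]
    congr 1
    rw [nsmul_eq_mul]
    ring
  rw [h1, AddCircle.norm_eq] at hn
  simp only [inv_one, one_mul, mul_one] at hn
  set y : ℝ := n * Real.sqrt 2 + t + K * Real.sqrt 2 with hy
  have hround : 0 ≤ round y := by
    rw [round_eq]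
    apply Int.floor_nonneg.mpr
    have h2 : (0 : ℝ) ≤ n * Real.sqrt 2 := by positivity
    have h3 : (K : ℝ) ≤ K * Real.sqrt 2 := by
      have : (0 : ℝ) ≤ K := Nat.cast_nonneg K
      nlinarith
    have h4 := neg_abs_le t
    rw [hy]
    linarith
  obtain ⟨a, ha⟩ := Int.eq_ofNat_of_zero_le hround
  refine ⟨a, n + K, ?_⟩
  rw [ha] at hn
  rw [abs_sub_comm] at hn
  convert hn using 2
  rw [hy]
  push_cast
  ring

variable {𝕜 : Type} [RCLike 𝕜] {V : Type u} [NormedAddCommGroup V] [NormedSpace 𝕜 V]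

/-- The operator `x ↦ a x + f(x) n`. -/
def Tm (f : V →ₗ[𝕜] 𝕜) (a : 𝕜) (n : V) (ha : a ≠ 0) (hn : f n = 0) : V ≃ₗ[𝕜] V where
  toFun x := a • x + f x • n
  map_add' x y := by
    simp only [map_add, smul_add, add_smul]
    abel
  map_smul' c x := by
    simp only [map_smul, smul_eq_mul, RingHom.id_apply, smul_add, smul_smul]
    rw [mul_comm]
  invFun y := a⁻¹ • y - (a⁻¹ * a⁻¹ * f y) • n
  left_inv x := by
    simp only [map_add, map_smul, smul_eq_mul, hn, mul_zero, add_zero, smul_add, smul_smul]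
    rw [inv_mul_cancel₀ ha, one_smul]
    have : a⁻¹ * a⁻¹ * (a * f x) = a⁻¹ * f x := by field_simp
    rw [this]
    abel
  right_inv y := by
    simp only [map_sub, map_smul, smul_eq_mul, hn, mul_zero, sub_zero, smul_sub, smul_smul]
    rw [mul_inv_cancel₀ ha, one_smul]
    have : a * (a⁻¹ * a⁻¹ * f y) = a⁻¹ * f y := by field_simp
    rw [this]
    abel

lemma Tm_apply (f : V →ₗ[𝕜] 𝕜) (a : 𝕜) (n : V) (ha : a ≠ 0) (hn : f n = 0) (x : V) :
    Tm f a n ha hn x = a • x + f x • n := rfl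

lemma Tm_comm (f : V →ₗ[𝕜] 𝕜) (a : 𝕜) (n : V) (ha : a ≠ 0) (hn : f n = 0)
    (a' : 𝕜) (n' : V) (ha' : a' ≠ 0) (hn' : f n' = 0) :
    Tm f a n ha hn * Tm f a' n' ha' hn' = Tm f a' n' ha' hn' * Tm f a n ha hn := by
  ext x
  rw [LinearEquiv.mul_apply, LinearEquiv.mul_apply]
  simp only [Tm_apply, map_add, map_smul, hn, hn']
  module

/-- The additive monoid generated by finitely many numbers. -/
def Lset {m : ℕ} (β : Fin m → 𝕜) : Set 𝕜 := Set.range (fun n : Fin m → ℕ => ∑ i, (n i : 𝕜) * β i)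

lemma Lset_zero {m : ℕ} (β : Fin m → 𝕜) : (0 : 𝕜) ∈ Lset β := ⟨0, by simp⟩

lemma Lset_add {m : ℕ} {β : Fin m → 𝕜} {x y : 𝕜} (hx : x ∈ Lset β) (hy : y ∈ Lset β) :
    x + y ∈ Lset β := by
  obtain ⟨a, rfl⟩ := hx
  obtain ⟨b, rfl⟩ := hy
  refine ⟨a + b, ?_⟩
  simp [add_mul, Finset.sum_add_distrib]

lemma Lset_gen {m : ℕ} (β : Fin m → 𝕜) (i : Fin m) : β i ∈ Lset β := by
  refine ⟨Pi.single i 1, ?_⟩
  simp [Pi.single_apply]

lemma Lset_finite {m : ℕ} {β : Fin m → 𝕜} (hβ : ∀ i, 1 ≤ RCLike.re (β i)) (R : ℝ) :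
    {x | x ∈ Lset β ∧ RCLike.re x ≤ R}.Finite := by
  obtain ⟨N, hN⟩ := exists_nat_ge R
  apply ((Set.finite_Iic (fun _ : Fin m => N)).image
    (fun n : Fin m → ℕ => ∑ i, (n i : 𝕜) * β i)).subset
  rintro x ⟨⟨n, rfl⟩, hx⟩
  refine ⟨n, ?_, rfl⟩
  rw [Set.mem_Iic]
  intro i
  have h1 : RCLike.re (∑ i, (n i : 𝕜) * β i) = ∑ i, (n i : ℝ) * RCLike.re (β i) := by
    rw [map_sum]
    apply Finset.sum_congr rfl
    intro j _
    rw [RCLike.mul_re, RCLike.natCast_re, RCLike.natCast_im, zero_mul, sub_zero]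
  simp only [h1] at hx
  have h2 : (n i : ℝ) ≤ ∑ i, (n i : ℝ) * RCLike.re (β i) := by
    calc (n i : ℝ) = (n i : ℝ) * 1 := (mul_one _).symm
      _ ≤ (n i : ℝ) * RCLike.re (β i) := mul_le_mul_of_nonneg_left (hβ i) (Nat.cast_nonneg _)
      _ ≤ _ := Finset.single_le_sum (f := fun i => (n i : ℝ) * RCLike.re (β i))
        (fun j _ => mul_nonneg (Nat.cast_nonneg _) (zero_le_one.trans (hβ j))) (Finset.mem_univ i)
  have h3 : (n i : ℝ) ≤ N := h2.trans (hx.trans hN)
  exact_mod_cast h3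

/-- The main counterexample. -/
theorem not_forcing [FiniteDimensional 𝕜 V] (hdim : 2 ≤ Module.finrank 𝕜 V) {m : ℕ} (w : Fin m → V)
    (hw : ∀ i, w i ≠ 0) : ¬ Forcing 𝕜 w := by
  -- the functional
  have : Nontrivial V := Module.nontrivial_of_finrank_pos (R := 𝕜) (by omega)
  obtain ⟨w₀, hw₀⟩ := exists_ne (0 : V)
  obtain ⟨f, hf⟩ := Module.exists_dual_forall_apply_ne_zero (K := 𝕜)
    (fun o : Option (Fin m) => o.elim w₀ w) (by
      intro o
      cases o with
      | none => exact hw₀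
      | some i => exact hw i)
  have hf₀ : f w₀ ≠ 0 := hf none
  have hfw : ∀ i, f (w i) ≠ 0 := fun i => hf (some i)
  -- a vector in the kernel
  obtain ⟨n₀, hn₀, hn₀ne⟩ : ∃ n₀ : V, f n₀ = 0 ∧ n₀ ≠ 0 := by
    by_contra hcon
    push Not at hcon
    have hinj : Function.Injective f := by
      rw [← LinearMap.ker_eq_bot, LinearMap.ker_eq_bot']
      exact hcon
    have := LinearMap.finrank_le_finrank_of_injective hinj
    rw [Module.finrank_self] at this
    omega
  set v₀ : V := (f w₀)⁻¹ • w₀ with hv₀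
  have hfv₀ : f v₀ = 1 := by
    rw [hv₀, map_smul, smul_eq_mul, inv_mul_cancel₀ hf₀]
  obtain ⟨φ, hφ⟩ := Module.exists_dual_forall_apply_ne_zero (K := 𝕜) (fun _ : Unit => n₀)
    (fun _ => hn₀ne)
  have hφn₀ : φ n₀ ≠ 0 := hφ ()
  set g : V →ₗ[𝕜] 𝕜 := (φ n₀)⁻¹ • (φ - φ v₀ • f) with hg
  have hgn₀ : g n₀ = 1 := by
    rw [hg]
    simp [hn₀, hφn₀]
  have hgv₀ : g v₀ = 0 := by
    rw [hg]
    simp [hfv₀]
  -- the constant
  obtain ⟨c, hc⟩ : ∃ c : ℝ, ∀ i, 1 ≤ RCLike.re (g (w i) / f (w i)) + c := by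
    obtain ⟨c, hc⟩ := (Set.finite_range (fun i => 1 - RCLike.re (g (w i) / f (w i)))).bddAbove
    refine ⟨c, fun i => ?_⟩
    have := hc ⟨i, rfl⟩
    simp only at this
    linarith
  set v : V := v₀ - (c : 𝕜) • n₀ with hv
  have hfv : f v = 1 := by rw [hv, map_sub, hfv₀, map_smul, hn₀]; simp
  have hgv : g v = -(c : 𝕜) := by rw [hv, map_sub, hgv₀, map_smul, hgn₀]; simp
  have hker : ∀ i, f (w i - f (w i) • v) = 0 := by
    intro i
    rw [map_sub, map_smul, hfv]
    simp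
  let T : Fin m → (V ≃ₗ[𝕜] V) := fun i => Tm f (f (w i)) (w i - f (w i) • v) (hfw i) (hker i)
  have hTv : ∀ i, T i v = w i := by
    intro i
    change Tm f (f (w i)) (w i - f (w i) • v) (hfw i) (hker i) v = w i
    rw [Tm_apply, hfv, one_smul]
    abel
  have hexp : ∀ x : ℝ, ((Real.exp x : ℝ) : 𝕜) ≠ 0 := fun x => by
    rw [Ne, RCLike.ofReal_eq_zero]; exact (Real.exp_pos x).ne'
  let P : ℝ → (V ≃ₗ[𝕜] V) := fun x => Tm f ((Real.exp x : ℝ) : 𝕜) 0 (hexp x) (map_zero f)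
  have hP : ∀ x y, P x y = ((Real.exp x : ℝ) : 𝕜) • y := by
    intro x y
    change Tm f _ 0 _ _ y = _
    rw [Tm_apply, smul_zero, add_zero]
  let F : Set (V ≃ₗ[𝕜] V) := {P 1, P (-Real.sqrt 2)} ∪ Set.range T
  let S : Subsemigroup (V ≃ₗ[𝕜] V) := Subsemigroup.closure F
  have hform : ∀ s ∈ F, ∃ (a : 𝕜) (n : V) (ha : a ≠ 0) (hn : f n = 0), s = Tm f a n ha hn := by
    rintro s ((rfl | rfl) | ⟨i, rfl⟩)
    · exact ⟨_, _, _, _, rfl⟩
    · exact ⟨_, _, _, _, rfl⟩
    · exact ⟨_, _, _, _, rfl⟩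
  have hSfg : IsFGComm 𝕜 S := by
    refine ⟨F, ?_, ⟨P 1, Or.inl (Or.inl rfl)⟩, ?_, rfl⟩
    · exact (Set.toFinite _).union (Set.finite_range T)
    · intro a ha b hb
      obtain ⟨a₁, n₁, h1, h1', rfl⟩ := hform a ha
      obtain ⟨a₂, n₂, h2, h2', rfl⟩ := hform b hb
      exact Tm_comm _ _ _ _ _ _ _ _ _
  intro hforce
  -- coarse density
  have hP1 : ∀ a : ℕ, ∀ s ∈ S, (P 1) ^ a * s ∈ S := by
    intro a
    induction a with
    | zero => intro s hs; simpa using hs
    | succ a ih =>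
      intro s hs
      rw [pow_succ, mul_assoc]
      exact ih _ (S.mul_mem (Subsemigroup.subset_closure (Or.inl (Or.inl rfl))) hs)
  have hP2 : ∀ a : ℕ, ∀ s ∈ S, (P (-Real.sqrt 2)) ^ a * s ∈ S := by
    intro a
    induction a with
    | zero => intro s hs; simpa using hs
    | succ a ih =>
      intro s hs
      rw [pow_succ, mul_assoc]
      exact ih _ (S.mul_mem (Subsemigroup.subset_closure (Or.inl (Or.inr rfl))) hs)
  have hPpow : ∀ (x : ℝ) (a : ℕ) (y : V), ((P x) ^ a) y = ((Real.exp (a * x) : ℝ) : 𝕜) • y := by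
    intro x a y
    induction a with
    | zero => simp
    | succ a ih =>
      rw [pow_succ', LinearEquiv.mul_apply, ih, hP, smul_smul, ← RCLike.ofReal_mul,
        ← Real.exp_add]
      congr 3
      push_cast
      ring
  have hcoarse : CoarselyDenseAlong (orbit 𝕜 S v) (⋃ i, ray 𝕜 (w i)) := by
    refine ⟨1, one_pos, ?_⟩
    intro y hy
    rw [Set.mem_iUnion] at hy
    obtain ⟨i, t, ht, rfl⟩ := hy
    -- choose the scalar
    have hcont : ContinuousAt Real.exp (Real.log t) := Real.continuous_exp.continuousAt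
    rw [Metric.continuousAt_iff] at hcont
    obtain ⟨δ, hδ, hexpδ⟩ := hcont (1 / (‖w i‖ + 1)) (by positivity)
    obtain ⟨a, b, hab⟩ := exists_nat_sub_sqrt (Real.log t) δ hδ
    rw [Set.mem_iUnion₂]
    refine ⟨((Real.exp (a - b * Real.sqrt 2) : ℝ) : 𝕜) • w i, ?_, ?_⟩
    · refine ⟨(P 1) ^ a * ((P (-Real.sqrt 2)) ^ b * T i),
        hP1 a _ (hP2 b _ (Subsemigroup.subset_closure (Or.inr ⟨i, rfl⟩))), ?_⟩
      rw [LinearEquiv.mul_apply, LinearEquiv.mul_apply, hTv, hPpow, hPpow, smul_smul,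
        ← RCLike.ofReal_mul, ← Real.exp_add]
      congr 3
      ring
    · rw [Metric.mem_ball, dist_eq_norm, ← sub_smul, norm_smul, ← RCLike.ofReal_sub,
        RCLike.norm_ofReal]
      have h1 := @hexpδ (a - b * Real.sqrt 2) (by rw [Real.dist_eq]; exact hab)
      rw [Real.exp_log ht, Real.dist_eq, abs_sub_comm] at h1
      have hpos : 0 < ‖w i‖ + 1 := by positivity
      rw [lt_div_iff₀ hpos] at h1
      have h2 := norm_nonneg (w i)
      have h3 := abs_nonneg (t - Real.exp (a - b * Real.sqrt 2))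
      nlinarith
  obtain ⟨x, hx⟩ := hforce S hSfg ⟨v, hcoarse⟩
  -- the invariant
  let β : Fin m → 𝕜 := fun i => g (w i) / f (w i) + c
  have hβ : ∀ i, 1 ≤ RCLike.re (β i) := by
    intro i
    change 1 ≤ RCLike.re (g (w i) / f (w i) + (c : 𝕜))
    rw [map_add, RCLike.ofReal_re]
    exact hc i
  have hinv : ∀ s ∈ S, (∀ y, f y = 0 → f (s y) = 0) ∧
      ∃ ℓ ∈ Lset β, ∀ y, f y ≠ 0 → f (s y) ≠ 0 ∧ g (s y) / f (s y) = g y / f y + ℓ := by
    intro s hs
    induction hs using Subsemigroup.closure_induction with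
    | mem s hs =>
      rcases hs with (hs | hs) | ⟨i, rfl⟩
      · subst hs
        refine ⟨?_, 0, Lset_zero β, ?_⟩
        · intro y hy
          rw [hP, map_smul, hy, smul_zero]
        · intro y hy
          rw [hP, map_smul, map_smul, smul_eq_mul, smul_eq_mul]
          refine ⟨mul_ne_zero (hexp 1) hy, ?_⟩
          rw [mul_div_mul_left _ _ (hexp 1), add_zero]
      · rw [Set.mem_singleton_iff] at hs
        subst hs
        refine ⟨?_, 0, Lset_zero β, ?_⟩
        · intro y hy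
          rw [hP, map_smul, hy, smul_zero]
        · intro y hy
          rw [hP, map_smul, map_smul, smul_eq_mul, smul_eq_mul]
          refine ⟨mul_ne_zero (hexp _) hy, ?_⟩
          rw [mul_div_mul_left _ _ (hexp _), add_zero]
      · have hfT : ∀ y, f (T i y) = f (w i) * f y := by
          intro y
          change f (Tm f _ _ _ _ y) = _
          rw [Tm_apply, map_add, map_smul, map_smul, hker i]
          simp
        have hgT : ∀ y, g (T i y) = f (w i) * g y + f y * (g (w i) + f (w i) * c) := by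
          intro y
          change g (Tm f _ _ _ _ y) = _
          rw [Tm_apply, map_add, map_smul, map_smul, map_sub, map_smul, hgv]
          simp only [smul_eq_mul]
          ring
        refine ⟨?_, β i, Lset_gen β i, ?_⟩
        · intro y hy
          rw [hfT, hy, mul_zero]
        · intro y hy
          refine ⟨by rw [hfT]; exact mul_ne_zero (hfw i) hy, ?_⟩
          rw [hfT, hgT]
          change _ = g y / f y + (g (w i) / f (w i) + c)
          have := hfw i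
          field_simp
    | mul s₁ s₂ _ _ ih₁ ih₂ =>
      obtain ⟨h1, ℓ₁, hℓ₁, H₁⟩ := ih₁
      obtain ⟨h2, ℓ₂, hℓ₂, H₂⟩ := ih₂
      refine ⟨fun y hy => h1 _ (h2 y hy), ℓ₁ + ℓ₂, Lset_add hℓ₁ hℓ₂, ?_⟩
      intro y hy
      obtain ⟨h3, h4⟩ := H₂ y hy
      obtain ⟨h5, h6⟩ := H₁ _ h3
      refine ⟨h5, ?_⟩
      rw [LinearEquiv.mul_apply, h6, h4]
      ring
  have hfc : Continuous f := f.continuous_of_finiteDimensional
  have hgc : Continuous g := g.continuous_of_finiteDimensional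
  -- the interior contains a point with `f ≠ 0`
  have hshift : ∀ y : V, ∀ z : V, Tendsto (fun t : ℝ => y + (t : 𝕜) • z) (𝓝[>] 0) (𝓝 y) := by
    intro y z
    have h1 : Continuous (fun t : ℝ => y + (t : 𝕜) • z) := by fun_prop
    have h2 := h1.tendsto 0
    simp only [RCLike.ofReal_zero, zero_smul, add_zero] at h2
    exact h2.mono_left nhdsWithin_le_nhds
  obtain ⟨y₀, hy₀, hfy₀⟩ : ∃ y ∈ interior (closure (orbit 𝕜 S x)), f y ≠ 0 := by
    obtain ⟨y, hy⟩ := hx
    by_cases hfy : f y = 0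
    · have h1 := (hshift y v₀).eventually (isOpen_interior.mem_nhds hy)
      obtain ⟨t, ht, htpos⟩ := (h1.and self_mem_nhdsWithin).exists
      refine ⟨y + (t : 𝕜) • v₀, ht, ?_⟩
      rw [map_add, map_smul, hfy, hfv₀]
      simp only [smul_eq_mul, mul_one, zero_add, Ne, RCLike.ofReal_eq_zero]
      exact (ne_of_gt htpos)
    · exact ⟨y, hy, hfy⟩
  -- hence `f x ≠ 0`
  have hfx : f x ≠ 0 := by
    intro hfx
    have h1 : orbit 𝕜 S x ⊆ {y | f y = 0} := by
      rintro y ⟨s, hs, rfl⟩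
      exact (hinv s hs).1 x hfx
    have h2 : closure (orbit 𝕜 S x) ⊆ {y | f y = 0} :=
      closure_minimal h1 (isClosed_eq hfc continuous_const)
    exact hfy₀ (h2 (interior_subset hy₀))
  -- the finite set of values
  set R : ℝ := RCLike.re (g y₀ / f y₀) + 1 with hR
  let E : Set 𝕜 := (fun ℓ => g x / f x + ℓ) ''
    {ℓ | ℓ ∈ Lset β ∧ RCLike.re ℓ ≤ R - RCLike.re (g x / f x)}
  have hEfin : E.Finite := (Lset_finite hβ _).image _
  let O : Set V := {y | f y ≠ 0 ∧ RCLike.re (g y / f y) < R}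
  have hOopen : IsOpen O := by
    have h1 : IsOpen {y | f y ≠ 0} := isOpen_ne_fun hfc continuous_const
    have h2 : ContinuousOn (fun y => RCLike.re (g y / f y)) {y | f y ≠ 0} :=
      RCLike.continuous_re.comp_continuousOn
        (hgc.continuousOn.div hfc.continuousOn (fun y hy => hy))
    exact h2.isOpen_inter_preimage h1 isOpen_Iio
  have hval : ∀ y ∈ closure (orbit 𝕜 S x), y ∈ O → g y / f y ∈ E := by
    intro y hy hyO
    have h1 : y ∈ closure (orbit 𝕜 S x ∩ O) :=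
      (mem_closure_iff.mpr (fun U hU hyU => by
        obtain ⟨z, hz1, hz2⟩ := mem_closure_iff.mp hy (U ∩ O) (hU.inter hOopen) ⟨hyU, hyO⟩
        exact ⟨z, hz1.1, hz2, hz1.2⟩))
    have h2 : ContinuousWithinAt (fun y => g y / f y) (orbit 𝕜 S x ∩ O) y :=
      (hgc.continuousAt.div hfc.continuousAt hyO.1).continuousWithinAt
    have h3 := h2.mem_closure_image h1
    have h4 : (fun y => g y / f y) '' (orbit 𝕜 S x ∩ O) ⊆ E := by
      rintro _ ⟨z, ⟨⟨s, hs, rfl⟩, hzO⟩, rfl⟩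
      obtain ⟨-, ℓ, hℓ, Hs⟩ := hinv s hs
      obtain ⟨h5, h6⟩ := Hs x hfx
      refine ⟨ℓ, ⟨hℓ, ?_⟩, h6.symm⟩
      have h7 := hzO.2
      rw [h6, map_add] at h7
      linarith
    exact hEfin.isClosed.closure_subset_iff.mpr h4 h3
  -- infinitely many values near `y₀`
  have hUO : ∀ᶠ t : ℝ in 𝓝[>] 0, y₀ + (t : 𝕜) • n₀ ∈ interior (closure (orbit 𝕜 S x)) ∩ O :=
    (hshift y₀ n₀).eventually ((isOpen_interior.inter hOopen).mem_nhds
      ⟨hy₀, hfy₀, by rw [hR]; linarith⟩)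
  have hinf : (Set.univ : Set ℕ).Infinite := Set.infinite_univ
  rw [eventually_nhdsWithin_iff, Metric.eventually_nhds_iff] at hUO
  obtain ⟨δ, hδ, hball⟩ := hUO
  have hIoo : Set.Ioo 0 δ ⊆ (fun t : ℝ => g y₀ / f y₀ + (t : 𝕜) / f y₀) ⁻¹' E := by
    intro t ht
    have h1 := hball (y := t) (by rw [Real.dist_eq, sub_zero, abs_of_pos ht.1]; exact ht.2) ht.1
    have h2 := hval _ (interior_subset h1.1) h1.2
    rw [map_add, map_add, map_smul, map_smul, hn₀, hgn₀] at h2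
    simp only [smul_eq_mul, mul_zero, add_zero, mul_one, add_div] at h2
    exact h2
  have hfin : (Set.Ioo 0 δ).Finite := by
    apply (hEfin.preimage _).subset hIoo
    intro t _ t' _ htt'
    simp only [add_right_inj] at htt'
    rw [div_left_inj' hfy₀] at htt'
    exact_mod_cast htt'
  exact (Set.Ioo_infinite hδ) hfin

end Pool.Agent.Helper58.Rays
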