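import Pool.Agent.Helper58.RoeDefs

/-!
# Basic facts on operators on spaces of square summable functions
-/

set_option autoImplicit false

noncomputable section

namespace Pool.Agent.Helper58.Roe

open scoped Classical

/-- The Hilbert space of square summable complex valued functions on `X`. -/
abbrev Hil (X : Type) : Type := lp (fun _ : X => ℂ) 2

/-- The bounded operators on `Hil X`. -/
abbrev Op (X : Type) : Type := Hil X →L[ℂ] Hil X

/-- The standard basis vector at `x`. -/
def delta {X : Type} (x : X) : Hil X := lp.single 2 x (1 : ℂ)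

/-- The matrix entry of `a` at `(x, y)`. -/
def entry {X : Type} (a : Op X) (x y : X) : ℂ := inner ℂ (delta x) (a (delta y))

variable {X : Type}

lemma stdBasis_apply (x : X) : (stdBasis X) x = delta x := rfl

lemma Hil.ext {v w : Hil X} (h : ∀ x, v x = w x) : v = w := lp.ext (funext h)

lemma inner_eq_tsum (v w : Hil X) : inner ℂ v w = ∑' x, inner ℂ (v x) (w x) :=
  lp.inner_eq_tsum _ _

lemma summable_inner (v w : Hil X) : Summable (fun x => inner ℂ (v x) (w x)) :=
  lp.summable_inner (𝕜 := ℂ) (G := fun _ : X => ℂ) v w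

lemma inner_delta (x : X) (v : Hil X) : inner ℂ (delta x) v = v x := by
  have h := lp.inner_single_left (𝕜 := ℂ) (G := fun _ : X => ℂ) x (1 : ℂ) v
  have h2 : inner ℂ (1 : ℂ) (v x) = v x := by simp
  exact h.trans h2

lemma entry_eq_apply (a : Op X) (x y : X) : entry a x y = (a (delta y)) x :=
  inner_delta x _

lemma delta_apply (x z : X) : (delta x : Hil X) z = if z = x then 1 else 0 := by
  have h := lp.single_apply (E := fun _ : X => ℂ) 2 x (1 : ℂ) z
  refine h.trans ?_
  by_cases h : z = x
  · subst h; simp
  · simp [h]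

lemma norm_delta (x : X) : ‖(delta x : Hil X)‖ = 1 := by
  have h := lp.norm_single (E := fun _ : X => ℂ) (p := 2) (by norm_num) x (1 : ℂ)
  exact h.trans (by simp)

lemma entry_add (a b : Op X) (x y : X) : entry (a + b) x y = entry a x y + entry b x y := by
  simp [entry]

lemma entry_sub (a b : Op X) (x y : X) : entry (a - b) x y = entry a x y - entry b x y := by
  simp [entry]

lemma entry_star (a : Op X) (x y : X) : entry (star a) x y = (starRingEnd ℂ) (entry a y x) := by
  unfold entry
  rw [ContinuousLinearMap.star_eq_adjoint, ContinuousLinearMap.adjoint_inner_right,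
    inner_conj_symm]

lemma entry_one (x y : X) : entry (1 : Op X) x y = if x = y then 1 else 0 := by
  rw [entry_eq_apply]
  exact delta_apply y x

lemma norm_entry_le (a : Op X) (x y : X) : ‖entry a x y‖ ≤ ‖a‖ := by
  unfold entry
  calc ‖inner ℂ (delta x) (a (delta y))‖ ≤ ‖(delta x : Hil X)‖ * ‖a (delta y)‖ :=
        norm_inner_le_norm _ _
    _ ≤ 1 * (‖a‖ * ‖(delta y : Hil X)‖) := by
        rw [norm_delta]
        gcongr
        exact a.le_opNorm _
    _ = ‖a‖ := by rw [norm_delta]; ring

variable [MetricSpace X]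

lemma finProp_iff (a : Op X) :
    FinProp (stdBasis X) a ↔ ∃ r : ℝ, ∀ x y : X, entry a x y ≠ 0 → dist x y ≤ r := Iff.rfl

/-- The uniform Roe algebra of `X`. -/
abbrev RoeOf (X : Type) [MetricSpace X] : Set (Op X) := uniformRoe (stdBasis X)

lemma mem_roe_of_finProp {a : Op X} (h : FinProp (stdBasis X) a) : a ∈ RoeOf X :=
  subset_closure h

lemma one_mem_roe : (1 : Op X) ∈ RoeOf X := by
  apply mem_roe_of_finProp
  rw [finProp_iff]
  refine ⟨0, fun x y h => ?_⟩
  rw [entry_one] at h
  by_cases hxy : x = y
  · rw [hxy, dist_self]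
  · simp [hxy] at h

lemma zero_mem_roe : (0 : Op X) ∈ RoeOf X := by
  apply mem_roe_of_finProp
  rw [finProp_iff]
  refine ⟨0, fun x y h => ?_⟩
  simp [entry] at h

end Pool.Agent.Helper58.Roe
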