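import Pool.Agent.Helper58.RoeDefs

/-!
# The metric spaces used in the examples
-/

set_option autoImplicit false

noncomputable section

namespace Pool.Agent.Helper58.Roe

open scoped Classical Topology
open Filter

/-- The metric with `dist a b = 1 + max (h a) (h b)` for `a ≠ b`. -/
@[reducible] def sparseMetric (T : Type) (h : T → ℕ) : MetricSpace T where
  dist a b := if a = b then 0 else 1 + max (h a : ℝ) (h b)
  dist_self a := by simp
  dist_comm a b := by
    by_cases hab : a = b
    · simp [hab]
    · have : ¬ b = a := fun h => hab h.symm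
      simp [hab, this, max_comm]
  dist_triangle a b c := by
    have ha : (0 : ℝ) ≤ h a := Nat.cast_nonneg _
    have hb : (0 : ℝ) ≤ h b := Nat.cast_nonneg _
    have hc : (0 : ℝ) ≤ h c := Nat.cast_nonneg _
    by_cases hab : a = b
    · subst hab; simp
    · by_cases hbc : b = c
      · subst hbc; simp
      · by_cases hac : a = c
        · subst hac
          simp only [if_true, hab, hbc, if_false]
          positivity
        · simp only [hab, hbc, hac, if_false]
          have h1 : max (h a : ℝ) (h c) ≤ max (h a : ℝ) (h b) + max (h b : ℝ) (h c) := by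
            apply max_le
            · have := le_max_left (h a : ℝ) (h b)
              have := le_max_left (h b : ℝ) (h c)
              linarith
            · have := le_max_right (h a : ℝ) (h b)
              have := le_max_right (h b : ℝ) (h c)
              linarith
          linarith
  eq_of_dist_eq_zero := by
    intro a b hab
    by_contra hne
    have ha : (0 : ℝ) ≤ h a := Nat.cast_nonneg _
    have : (0 : ℝ) < 1 + max (h a : ℝ) (h b) := by
      have := le_max_left (h a : ℝ) (h b)
      linarith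
    simp only [hne, if_false] at hab
    linarith

lemma sparse_ulf (T : Type) (h : T → ℕ) (hfin : ∀ n : ℕ, {t | h t ≤ n}.Finite) :
    @ULF T (sparseMetric T h) := by
  let _ := sparseMetric T h
  intro r hr
  obtain ⟨n, hn⟩ := exists_nat_ge r
  refine ⟨(hfin n).toFinset.card + 1, fun x => ?_⟩
  have hsub : Metric.closedBall x r ⊆ (((hfin n).toFinset ∪ {x} : Finset T) : Set T) := by
    intro y hy
    rw [Metric.mem_closedBall] at hy
    by_cases hxy : y = x
    · simp [hxy]
    · have h1 : dist y x = 1 + max (h y : ℝ) (h x) := if_neg hxy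
      rw [h1] at hy
      have h2 : (h y : ℝ) ≤ n := by
        have := le_max_left (h y : ℝ) (h x)
        linarith
      have h3 : h y ≤ n := by exact_mod_cast h2
      simp [h3]
  refine ⟨(Finset.finite_toSet _).subset hsub, ?_⟩
  calc (Metric.closedBall x r).ncard
      ≤ (((hfin n).toFinset ∪ {x} : Finset T) : Set T).ncard :=
        Set.ncard_le_ncard hsub (Finset.finite_toSet _)
    _ = ((hfin n).toFinset ∪ {x} : Finset T).card := Set.ncard_coe_finset _
    _ ≤ (hfin n).toFinset.card + 1 := by
        refine (Finset.card_union_le _ _).trans ?_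
        simp

/-- A combinatorial criterion for property A. -/
lemma propertyA_of_rep (T : Type) [MetricSpace T]
    (H : ∀ R : ℝ, 0 < R → ∃ S : ℝ, 0 < S ∧ ∃ rep : T → T, (∀ x, dist (rep x) x ≤ S) ∧
      ∀ x y, dist x y ≤ R → rep x = rep y) : PropertyA T := by
  intro R ε hR hε
  obtain ⟨S, hS, rep, h1, h2⟩ := H R hR
  refine ⟨S, hS, fun x z => if z = rep x then 1 else 0, ?_, ?_, ?_, ?_⟩
  · intro x z
    dsimp only
    split_ifs <;> norm_num
  · intro x
    exact hasSum_ite_eq (rep x) 1
  · intro x z hz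
    have : z = rep x := by
      by_contra h
      apply hz
      simp [h]
    rw [this, Metric.mem_closedBall]
    exact h1 x
  · intro x y hxy
    simp only [h2 x y hxy, sub_self, abs_zero, tsum_zero]
    exact hε.le

lemma sparse_rep (T : Type) (h : T → ℕ) (t0 : T) :
    letI := sparseMetric T h
    ∀ R : ℝ, 0 < R → ∃ S : ℝ, 0 < S ∧ ∃ rep : T → T, (∀ x, dist (rep x) x ≤ S) ∧
      ∀ x y, dist x y ≤ R → rep x = rep y := by
  let _ := sparseMetric T h
  intro R hR
  have h0 : (0 : ℝ) ≤ h t0 := Nat.cast_nonneg _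
  refine ⟨1 + R + h t0, by positivity, fun x => if 1 + (h x : ℝ) ≤ R then t0 else x, ?_, ?_⟩
  · intro x
    by_cases hx : 1 + (h x : ℝ) ≤ R
    · simp only [hx, if_true]
      by_cases hxt : t0 = x
      · rw [hxt, dist_self]; positivity
      · have h1 : dist t0 x = 1 + max (h t0 : ℝ) (h x) := if_neg hxt
        rw [h1]
        have : max (h t0 : ℝ) (h x) ≤ h t0 + R := by
          apply max_le <;> linarith
        linarith
    · simp only [hx, if_false, dist_self]
      positivity
  · intro x y hxy
    by_cases hne : x = y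
    · rw [hne]
    · have h1 : dist x y = 1 + max (h x : ℝ) (h y) := if_neg hne
      rw [h1] at hxy
      have hx : 1 + (h x : ℝ) ≤ R := by
        have := le_max_left (h x : ℝ) (h y)
        linarith
      have hy : 1 + (h y : ℝ) ≤ R := by
        have := le_max_right (h x : ℝ) (h y)
        linarith
      simp [hx, hy]

/-! ### The sparse space -/

/-- `ℕ` with the metric `d(m,n) = 1 + max m n` for `m ≠ n`. -/
def SpN : Type := ℕ

/-- The natural number underlying a point of `SpN`. -/
def nv (m : SpN) : ℕ := m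

/-- A natural number as a point of `SpN`. -/
def mkN (m : ℕ) : SpN := m

instance : MetricSpace SpN := sparseMetric SpN nv

lemma spN_dist {m n : SpN} (h : m ≠ n) : dist m n = 1 + max (nv m : ℝ) (nv n : ℝ) :=
  if_neg h

/-! ### The space of finite subsets of `ℕ` -/

/-- Finite subsets of `ℕ`, with the ultrametric `dist A B = sup {i + 1 : i ∈ A ∆ B}`. -/
def Fin2 : Type := Finset ℕ

/-- The level of a finite set. -/
def lev (A : Finset ℕ) : ℕ := A.sup (fun i => i + 1)

lemma lev_le_iff (A : Finset ℕ) (n : ℕ) : lev A ≤ n ↔ A ⊆ Finset.range n := by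
  unfold lev
  rw [Finset.sup_le_iff]
  constructor
  · intro h i hi
    exact Finset.mem_range.2 (h i hi)
  · intro h i hi
    exact Finset.mem_range.1 (h hi)

lemma lev_empty : lev ∅ = 0 := rfl

lemma lev_eq_zero {A : Finset ℕ} (h : lev A = 0) : A = ∅ := by
  have := (lev_le_iff A 0).1 h.le
  simpa using this

lemma lev_triangle (A B C : Finset ℕ) :
    lev (symmDiff A C) ≤ max (lev (symmDiff A B)) (lev (symmDiff B C)) := by
  rw [lev_le_iff]
  have h1 := (lev_le_iff (symmDiff A B) _).1
    (le_max_left (lev (symmDiff A B)) (lev (symmDiff B C)))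
  have h2 := (lev_le_iff (symmDiff B C) _).1
    (le_max_right (lev (symmDiff A B)) (lev (symmDiff B C)))
  refine (symmDiff_triangle A B C).trans ?_
  exact Finset.union_subset h1 h2

/-- The symmetric difference of two points of `Fin2`, as a finite set. -/
def sd (A B : Finset ℕ) : Finset ℕ := symmDiff A B

lemma sd_self (A : Finset ℕ) : sd A A = ∅ := symmDiff_self A

lemma sd_comm (A B : Finset ℕ) : sd A B = sd B A := symmDiff_comm A B

lemma sd_eq {A B : Finset ℕ} (h : sd A B = ∅) : A = B := symmDiff_eq_bot.1 h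

lemma sd_sd (A B : Finset ℕ) : sd A (sd A B) = B := symmDiff_symmDiff_cancel_left A B

lemma mem_sd {A B : Finset ℕ} {i : ℕ} : i ∈ sd A B ↔ (i ∈ A ∧ i ∉ B) ∨ (i ∈ B ∧ i ∉ A) :=
  Finset.mem_symmDiff

instance : MetricSpace Fin2 where
  dist A B := (lev (sd A B) : ℝ)
  dist_self A := by
    rw [sd_self A, lev_empty, Nat.cast_zero]
  dist_comm A B := by
    rw [sd_comm A B]
  dist_triangle A B C := by
    have h := lev_triangle A B C
    have h2 : lev (sd A C) ≤ lev (sd A B) + lev (sd B C) :=
      h.trans (max_le (Nat.le_add_right _ _) (Nat.le_add_left _ _))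
    exact_mod_cast h2
  eq_of_dist_eq_zero := by
    intro A B h
    have h1 : lev (sd A B) = 0 := by exact_mod_cast h
    exact sd_eq (lev_eq_zero h1)

lemma fin2_dist (A B : Fin2) : dist A B = (lev (sd A B) : ℝ) := rfl

lemma fin2_ulf : ULF Fin2 := by
  intro r hr
  obtain ⟨n, hn⟩ := exists_nat_ge r
  refine ⟨2 ^ n, fun A => ?_⟩
  have hsub : Metric.closedBall A r ⊆
      (((Finset.range n).powerset.image (fun D => sd A D) :
        Finset (Finset ℕ)) : Set (Finset ℕ)) := by
    intro B hB
    rw [Metric.mem_closedBall, dist_comm, fin2_dist] at hB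
    have h1 : lev (sd A B) ≤ n := by
      exact_mod_cast hB.trans hn
    rw [lev_le_iff] at h1
    have h2 : (sd A (sd A B)) ∈ (Finset.range n).powerset.image (fun D => sd A D) :=
      Finset.mem_image_of_mem _ (Finset.mem_powerset.2 h1)
    rw [sd_sd] at h2
    exact h2
  refine ⟨(Finset.finite_toSet _).subset hsub, ?_⟩
  calc (Metric.closedBall A r).ncard
      ≤ (((Finset.range n).powerset.image (fun D => sd A D) :
        Finset (Finset ℕ)) : Set (Finset ℕ)).ncard :=
        Set.ncard_le_ncard hsub (Finset.finite_toSet _)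
    _ = ((Finset.range n).powerset.image (fun D => sd A D)).card :=
        Set.ncard_coe_finset _
    _ ≤ (Finset.range n).powerset.card := Finset.card_image_le
    _ = 2 ^ n := by simp

/-- Remove from a finite set all elements below `n`. -/
def cut (n : ℕ) (A : Finset ℕ) : Finset ℕ := A \ Finset.range n

lemma fin2_rep (R : ℝ) (_hR : 0 < R) : ∃ S : ℝ, 0 < S ∧ ∃ rep : Fin2 → Fin2,
    (∀ x, dist (rep x) x ≤ S) ∧ ∀ x y, dist x y ≤ R → rep x = rep y := by
  obtain ⟨n, hn⟩ := exists_nat_ge R
  refine ⟨n + 1, by positivity, fun A => cut n A, ?_, ?_⟩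
  · intro A
    rw [fin2_dist]
    have h1 : lev (sd (cut n A) A) ≤ n := by
      rw [lev_le_iff]
      intro i hi
      rw [mem_sd] at hi
      rcases hi with ⟨h1, h2⟩ | ⟨h1, h2⟩
      · exact absurd (Finset.mem_sdiff.1 h1).1 h2
      · by_contra h3
        exact h2 (Finset.mem_sdiff.2 ⟨h1, h3⟩)
    have h2 : (lev (sd (cut n A) A) : ℝ) ≤ n := by
      exact_mod_cast h1
    linarith
  · intro A B hAB
    rw [fin2_dist] at hAB
    have h1 : lev (sd A B) ≤ n := by
      exact_mod_cast hAB.trans hn
    rw [lev_le_iff] at h1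
    change cut n A = cut n B
    apply Finset.ext
    intro i
    unfold cut
    rw [Finset.mem_sdiff, Finset.mem_sdiff]
    by_cases hi : i ∈ Finset.range n
    · simp [hi]
    · have h2 : ¬ i ∈ sd A B := fun h => hi (h1 h)
      rw [mem_sd] at h2
      push Not at h2
      constructor
      · rintro ⟨h3, h4⟩
        exact ⟨h2.1 h3, h4⟩
      · rintro ⟨h3, h4⟩
        exact ⟨h2.2 h3, h4⟩

/-! ### Products -/

lemma prod_ulf {T T' : Type} [MetricSpace T] [MetricSpace T'] (h : ULF T) (h' : ULF T') :
    ULF (T × T') := by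
  intro r hr
  obtain ⟨N, hN⟩ := h r hr
  obtain ⟨N', hN'⟩ := h' r hr
  refine ⟨N * N', fun x => ?_⟩
  obtain ⟨a, b⟩ := x
  rw [← closedBall_prod_same]
  refine ⟨(hN a).1.prod (hN' b).1, ?_⟩
  rw [Set.ncard_prod]
  exact Nat.mul_le_mul (hN a).2 (hN' b).2

lemma prod_rep {T T' : Type} [MetricSpace T] [MetricSpace T']
    (H : ∀ R : ℝ, 0 < R → ∃ S : ℝ, 0 < S ∧ ∃ rep : T → T, (∀ x, dist (rep x) x ≤ S) ∧
      ∀ x y, dist x y ≤ R → rep x = rep y)
    (H' : ∀ R : ℝ, 0 < R → ∃ S : ℝ, 0 < S ∧ ∃ rep : T' → T', (∀ x, dist (rep x) x ≤ S) ∧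
      ∀ x y, dist x y ≤ R → rep x = rep y) :
    ∀ R : ℝ, 0 < R → ∃ S : ℝ, 0 < S ∧ ∃ rep : T × T' → T × T', (∀ x, dist (rep x) x ≤ S) ∧
      ∀ x y, dist x y ≤ R → rep x = rep y := by
  intro R hR
  obtain ⟨S, hS, rep, h1, h2⟩ := H R hR
  obtain ⟨S', hS', rep', h1', h2'⟩ := H' R hR
  refine ⟨max S S', lt_max_of_lt_left hS, fun x => (rep x.1, rep' x.2), ?_, ?_⟩
  · intro x
    rw [Prod.dist_eq]
    exact max_le_max (h1 x.1) (h1' x.2)
  · intro x y hxy
    rw [Prod.dist_eq] at hxy
    have e1 := h2 x.1 y.1 ((le_max_left _ _).trans hxy)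
    have e2 := h2' x.2 y.2 ((le_max_right _ _).trans hxy)
    simp only [e1, e2]

end Pool.Agent.Helper58.Roe
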