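import Pool.Agent.Helper58.RoeMain
import Pool.Agent.Helper58.RoeSpaces

/-!
# Embeddings of uniform Roe algebras without compact preserving cut-downs

We answer question Q2 of `MP_ab5103_an` negatively, even under property A of the target.
The source is `ℕ` with the metric `d(m,n) = 1 + max m n` for `m ≠ n`, the target is the
product of the finite subsets of `ℕ` (with an ultrametric) with this space.
-/

set_option autoImplicit false

noncomputable section

namespace Pool.Agent.Helper58.RoeCompact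

open scoped Classical Topology
open Filter
open Pool.Agent.Helper58.Roe

/-- A finite set as a point of `Fin2`. -/
def mkF (A : Finset ℕ) : Fin2 := A

/-- The finite set underlying a point of `Fin2`. -/
def fv (A : Fin2) : Finset ℕ := A

/-- The point `A ∆ {m}`. -/
def flip (A : Fin2) (m : ℕ) : Fin2 := mkF (sd (fv A) {m})

lemma flip_flip (A : Fin2) (m : ℕ) : flip (flip A m) m = A := by
  unfold flip
  change sd (sd (fv A) {m}) {m} = fv A
  rw [sd_comm _ {m}, sd_comm (fv A) _, sd_sd]

/-- The involution. -/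
def sig (y : Fin2 × SpN) : Fin2 × SpN := (flip y.1 (nv y.2), y.2)

lemma sig_sig (y : Fin2 × SpN) : sig (sig y) = y := by
  exact Prod.ext (flip_flip y.1 (nv y.2)) rfl

/-- `(√2)⁻¹` -/
def c2 : ℝ := (Real.sqrt 2)⁻¹

lemma c2_sq : c2 ^ 2 = 1 / 2 := by
  unfold c2
  rw [inv_pow, Real.sq_sqrt (by norm_num)]
  norm_num

/-- The diagonal coefficients. -/
def alp (y : Fin2 × SpN) : ℝ := if nv y.2 ∈ fv y.1 then -c2 else c2

lemma alp_sig (y : Fin2 × SpN) : alp (sig y) = - alp y := by
  unfold alp
  change (if nv y.2 ∈ sd (fv y.1) {nv y.2} then -c2 else c2) = _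
  by_cases h : nv y.2 ∈ fv y.1
  · have h2 : ¬ nv y.2 ∈ sd (fv y.1) {nv y.2} := by
      rw [mem_sd]; simp [h]
    rw [if_neg h2, if_pos h, neg_neg]
  · have h2 : nv y.2 ∈ sd (fv y.1) {nv y.2} := by
      rw [mem_sd]; simp [h]
    rw [if_pos h2, if_neg h]

lemma alp_sq (y : Fin2 × SpN) : alp y ^ 2 = 1 / 2 := by
  unfold alp
  split_ifs
  · rw [neg_sq, c2_sq]
  · exact c2_sq

/-- The reflection. -/
def U : Refl (Fin2 × SpN) where
  σ := sig
  α := alp
  β := fun _ => c2
  hσ := sig_sig
  h1 := fun y => by rw [alp_sq, c2_sq]; norm_num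
  h2 := fun _ => rfl
  h3 := fun y => by rw [alp_sig]; ring

lemma dist_flip (A : Fin2) (m : ℕ) : dist A (flip A m) = (m : ℝ) + 1 := by
  have h : dist A (flip A m) = (lev (sd (fv A) (sd (fv A) {m})) : ℝ) := rfl
  rw [h, sd_sd]
  unfold lev
  simp

lemma finProp_tw (a : Op SpN) (ha : FinProp (stdBasis SpN) a) :
    FinProp (stdBasis (Fin2 × SpN)) (tw U a) := by
  obtain ⟨r, hr⟩ := (finProp_iff a).1 ha
  rw [finProp_iff]
  refine ⟨2 * max r 0, fun y y' h => ?_⟩
  rcases entry_tw_ne U (fun y => rfl) h with h1 | ⟨h1, h2, u, u', hu, hu', huu⟩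
  · rw [h1, dist_self]; positivity
  · have h3 := hr _ _ h2
    rw [spN_dist h1] at h3
    have hm : (nv y.2 : ℝ) + 1 ≤ r := by
      have := le_max_left (nv y.2 : ℝ) (nv y'.2 : ℝ)
      linarith
    have hm' : (nv y'.2 : ℝ) + 1 ≤ r := by
      have := le_max_right (nv y.2 : ℝ) (nv y'.2 : ℝ)
      linarith
    have hr0 : 0 ≤ r := by
      have : (0 : ℝ) ≤ (nv y.2 : ℝ) := Nat.cast_nonneg _
      linarith
    have k1 : dist y.1 u.1 ≤ r := by
      rcases hu with rfl | rfl
      · rw [dist_self]; exact hr0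
      · change dist y.1 (flip y.1 (nv y.2)) ≤ r
        rw [dist_flip]; exact hm
    have k2 : dist u'.1 y'.1 ≤ r := by
      rcases hu' with rfl | rfl
      · rw [dist_self]; exact hr0
      · rw [dist_comm]
        change dist y'.1 (flip y'.1 (nv y'.2)) ≤ r
        rw [dist_flip]; exact hm'
    rw [Prod.dist_eq, max_eq_left hr0]
    apply max_le
    · calc dist y.1 y'.1 ≤ dist y.1 u.1 + dist u.1 y'.1 := dist_triangle _ _ _
        _ = dist y.1 u.1 + dist u'.1 y'.1 := by rw [huu]
        _ ≤ 2 * r := by linarith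
    · have := hr _ _ h2
      linarith

instance : Nonempty Fin2 := ⟨mkF ∅⟩

lemma isEmbedding : IsEmbedding (stdBasis SpN) (stdBasis (Fin2 × SpN)) (tw U) :=
  tw_isEmbedding U finProp_tw

lemma flip_injective (A : Fin2) {m n : ℕ} (h : flip A m = flip A n) : m = n := by
  have h1 : sd (fv A) {m} = sd (fv A) {n} := h
  have h2 : sd (fv A) (sd (fv A) {m}) = sd (fv A) (sd (fv A) {n}) := by rw [h1]
  rw [sd_sd, sd_sd] at h2
  exact Finset.singleton_injective h2

lemma injective_level (A : Fin2) :
    Function.Injective (fun m : ℕ => (flip A m, mkN 0)) := by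
  intro m n h
  exact flip_injective A (Prod.mk.inj h).1

/-- The key lemma: a projection in the relative commutant whose cut-down of the rank-one
projection `e_00` is compact must vanish. -/
lemma proj_eq_zero (p : Op (Fin2 × SpN)) (hp : p ∈ RoeOf (Fin2 × SpN))
    (hproj : IsStarProjection p)
    (hcomm : ∀ a ∈ RoeOf SpN, p * tw U a = tw U a * p)
    (hcpt : IsCompactOperator (p * tw U (matUnit (mkN 0) (mkN 0)) * p)) : p = 0 := by
  set q : Op (Fin2 × SpN) := U.op * p * U.op with hq
  have hUU := U.op_mul_op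
  have hpq : p = U.op * q * U.op := by
    rw [hq]
    calc p = 1 * p * 1 := by rw [one_mul, mul_one]
      _ = (U.op * U.op) * p * (U.op * U.op) := by rw [hUU]
      _ = U.op * (U.op * p * U.op) * U.op := by simp only [mul_assoc]
  have hqq : q * q = q := by
    rw [hq]
    calc U.op * p * U.op * (U.op * p * U.op) = U.op * p * (U.op * U.op) * p * U.op := by
          simp only [mul_assoc]
      _ = U.op * (p * p) * U.op := by rw [hUU, mul_one]; simp only [mul_assoc]
      _ = U.op * p * U.op := by rw [hproj.isIdempotentElem.eq]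
  have hqs : star q = q := by
    rw [hq, star_mul, star_mul, U.op_star, hproj.isSelfAdjoint.star_eq, mul_assoc]
  have hqcomm : ∀ a ∈ RoeOf SpN, q * amp Fin2 a = amp Fin2 a * q := by
    intro a ha
    have h := hcomm a ha
    have h2 : U.op * (p * tw U a) * U.op = U.op * (tw U a * p) * U.op := by rw [h]
    unfold tw at h2
    calc q * amp Fin2 a = U.op * p * U.op * amp Fin2 a * 1 := by rw [hq, mul_one]
      _ = U.op * p * U.op * amp Fin2 a * (U.op * U.op) := by rw [hUU]
      _ = U.op * (p * (U.op * amp Fin2 a * U.op)) * U.op := by simp only [mul_assoc]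
      _ = U.op * (U.op * amp Fin2 a * U.op * p) * U.op := h2
      _ = (U.op * U.op) * amp Fin2 a * (U.op * p * U.op) := by simp only [mul_assoc]
      _ = amp Fin2 a * q := by rw [hUU, one_mul]
  -- the entries of `q` do not depend on the second coordinate
  have hqent : ∀ (A B : Fin2) (m : SpN), entry q (A, m) (B, m) = entry q (A, mkN 0) (B, mkN 0) := by
    intro A B m
    exact entry_commutant q m (mkN 0) (hqcomm _ (matUnit_mem _ _)) A B
  -- the compact operator
  set C : Op (Fin2 × SpN) := q * amp Fin2 (matUnit (mkN 0) (mkN 0)) with hC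
  have hCc : IsCompactOperator C := by
    have h1 : C = U.op * (p * tw U (matUnit (mkN 0) (mkN 0)) * p) * U.op := by
      have e := hqcomm _ (matUnit_mem (mkN 0) (mkN 0))
      calc C = q * q * amp Fin2 (matUnit (mkN 0) (mkN 0)) := by rw [hqq]
        _ = q * (q * amp Fin2 (matUnit (mkN 0) (mkN 0))) := by rw [mul_assoc]
        _ = q * (amp Fin2 (matUnit (mkN 0) (mkN 0)) * q) := by rw [e]
        _ = U.op * (p * tw U (matUnit (mkN 0) (mkN 0)) * p) * U.op := by
          rw [hq]; unfold tw; simp only [mul_assoc]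
    rw [h1]
    exact (hcpt.comp_clm U.op).clm_comp U.op
  have hCent : ∀ (y : Fin2 × SpN) (B : Fin2),
      entry C y (B, mkN 0) = entry q y (B, mkN 0) := by
    intro y B
    exact entry_mul_amp_matUnit q y B (mkN 0) (mkN 0)
  -- diagonal entries vanish
  have hdiag : ∀ A : Fin2, entry q (A, mkN 0) (A, mkN 0) = 0 := by
    intro A
    have hlim := compact_delta_tendsto hCc (injective_level A)
    -- bounds for the small entries
    have hb : ∀ (y : Fin2 × SpN) (m : ℕ),
        ‖entry q y (flip A m, mkN 0)‖ ≤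
          ‖C (delta (flip A m, mkN 0))‖ := by
      intro y m
      rw [← hCent]
      unfold entry
      calc _ ≤ ‖(delta y : Hil (Fin2 × SpN))‖ * _ := norm_inner_le_norm _ _
        _ = _ := by rw [norm_delta, one_mul]
    by_contra hne
    have hpos : 0 < ‖entry q (A, mkN 0) (A, mkN 0)‖ := norm_pos_iff.2 hne
    set δ := ‖entry q (A, mkN 0) (A, mkN 0)‖ with hδ
    obtain ⟨R, hR⟩ := entry_small hp (ε := δ / 8) (by positivity)
    have hev : ∀ᶠ m : ℕ in atTop, ‖C (delta (flip A m, mkN 0))‖ < δ / 8 := by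
      exact hlim.eventually_lt_const (by positivity)
    obtain ⟨m, hm1, hm2⟩ := (hev.and (eventually_gt_atTop ⌈R⌉₊)).exists
    -- the two points
    set y : Fin2 × SpN := (A, mkN m) with hy
    have hsy : U.σ y = (flip A m, mkN m) := rfl
    have hdist : R < dist y (U.σ y) := by
      rw [hsy, hy, Prod.dist_eq]
      refine lt_of_lt_of_le ?_ (le_max_left _ _)
      change R < dist A (flip A m)
      rw [dist_flip]
      have h1 : R ≤ ⌈R⌉₊ := Nat.le_ceil R
      have h2 : ((⌈R⌉₊ : ℕ) : ℝ) < m := by exact_mod_cast hm2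
      linarith
    have hsmall := hR y (U.σ y) hdist
    have hent := U.entry_conj q y (U.σ y)
    rw [← hpq, U.hσ y] at hent
    have ea : (U.α (U.σ y) : ℂ) = -(U.α y : ℂ) := by
      have := alp_sig y
      change ((alp (sig y) : ℝ) : ℂ) = -((alp y : ℝ) : ℂ)
      rw [this]; push_cast; ring
    have eb : (U.β (U.σ y) : ℂ) = (U.β y : ℂ) := rfl
    rw [ea, eb] at hent
    have ebb : (U.β y : ℂ) * (U.β y : ℂ) = 1 / 2 := by
      have h9 : ((c2 ^ 2 : ℝ) : ℂ) = ((1 / 2 : ℝ) : ℂ) := by rw [c2_sq]
      change ((c2 : ℝ) : ℂ) * ((c2 : ℝ) : ℂ) = 1 / 2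
      rw [← sq, ← Complex.ofReal_pow, h9]
      push_cast
      rfl
    have eaa : (U.α y : ℂ) * (U.α y : ℂ) = 1 / 2 := by
      have h9 : ((alp y ^ 2 : ℝ) : ℂ) = ((1 / 2 : ℝ) : ℂ) := by rw [alp_sq]
      change ((alp y : ℝ) : ℂ) * ((alp y : ℝ) : ℂ) = 1 / 2
      rw [← sq, ← Complex.ofReal_pow, h9]
      push_cast
      rfl
    have nab : ‖(U.α y : ℂ) * (U.β y : ℂ)‖ = 1 / 2 := by
      have h1 : ‖(U.α y : ℂ) * (U.β y : ℂ)‖ ^ 2 = (1 / 2) ^ 2 := by
        rw [sq, ← norm_mul]
        have : (U.α y : ℂ) * (U.β y : ℂ) * ((U.α y : ℂ) * (U.β y : ℂ)) = 1 / 4 := by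
          calc _ = ((U.α y : ℂ) * (U.α y : ℂ)) * ((U.β y : ℂ) * (U.β y : ℂ)) := by ring
            _ = 1 / 4 := by rw [eaa, ebb]; norm_num
        rw [this]; norm_num
      exact (pow_left_inj₀ (norm_nonneg _) (by norm_num) two_ne_zero).1 h1
    -- the entries of q
    have q1 : ‖entry q y (U.σ y)‖ < δ / 8 := by
      have : entry q y (U.σ y) = entry q (A, mkN 0) (flip A m, mkN 0) :=
        hqent A _ m
      rw [this]
      exact (hb _ m).trans_lt hm1
    have q2 : ‖entry q (U.σ y) y‖ < δ / 8 := by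
      have : entry q (U.σ y) y = (starRingEnd ℂ) (entry q y (U.σ y)) := by
        rw [← entry_star, hqs]
      rw [this, RCLike.norm_conj]
      exact q1
    have q3 : ‖entry q (U.σ y) (U.σ y)‖ < δ / 8 := by
      have : entry q (U.σ y) (U.σ y) = entry q (flip A m, mkN 0)
          (flip A m, mkN 0) :=
        hqent _ _ m
      rw [this]
      exact (hb _ m).trans_lt hm1
    have q4 : entry q y y = entry q (A, mkN 0) (A, mkN 0) := hqent A A m
    -- combine
    have hcomb : (U.α y : ℂ) * (U.β y : ℂ) * entry q y y =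
        entry p y (U.σ y) + (1 / 2) * entry q y (U.σ y)
        + (U.α y : ℂ) * (U.β y : ℂ) * entry q (U.σ y) (U.σ y)
        - (1 / 2) * entry q (U.σ y) y := by
      rw [hent]
      linear_combination (entry q y (U.σ y)) * eaa - (entry q (U.σ y) y) * ebb
    have hn : ‖(U.α y : ℂ) * (U.β y : ℂ) * entry q y y‖ ≤
        δ / 8 + (1 / 2) * (δ / 8) + (1 / 2) * (δ / 8) + (1 / 2) * (δ / 8) := by
      rw [hcomb]
      have t1 : ‖(1 / 2 : ℂ) * entry q y (U.σ y)‖ ≤ (1 / 2) * (δ / 8) := by
        rw [norm_mul]; norm_num; linarith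
      have t2 : ‖(U.α y : ℂ) * (U.β y : ℂ) * entry q (U.σ y) (U.σ y)‖ ≤ (1 / 2) * (δ / 8) := by
        rw [norm_mul, nab]; linarith
      have t3 : ‖(1 / 2 : ℂ) * entry q (U.σ y) y‖ ≤ (1 / 2) * (δ / 8) := by
        rw [norm_mul]; norm_num; linarith
      calc _ ≤ ‖entry p y (U.σ y) + (1 / 2) * entry q y (U.σ y)
            + (U.α y : ℂ) * (U.β y : ℂ) * entry q (U.σ y) (U.σ y)‖ + _ := norm_sub_le _ _
        _ ≤ (‖entry p y (U.σ y) + (1 / 2) * entry q y (U.σ y)‖ + _) + _ := by
            gcongr; exact norm_add_le _ _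
        _ ≤ ((‖entry p y (U.σ y)‖ + _) + _) + _ := by
            gcongr; exact norm_add_le _ _
        _ ≤ _ := by linarith
    rw [norm_mul, nab, q4, ← hδ] at hn
    linarith
  -- hence `q` kills all basis vectors
  have hq0 : ∀ y : Fin2 × SpN, q (delta y) = 0 := by
    rintro ⟨A, m⟩
    have h1 : entry q (A, m) (A, m) = 0 := by
      have := hqent A A m
      rw [this, hdiag]
    have h2 : inner ℂ (q (delta (A, m))) (q (delta (A, m))) = (0 : ℂ) := by
      have h3 : inner ℂ (q (delta (A, m))) (q (delta (A, m))) = entry (star q * q) (A, m) (A, m) := by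
        unfold entry
        change _ = inner ℂ (delta (A, m)) ((star q) (q (delta (A, m))))
        rw [ContinuousLinearMap.star_eq_adjoint,
          ContinuousLinearMap.adjoint_inner_right]
      rw [h3, hqs, hqq, h1]
    exact inner_self_eq_zero.1 h2
  have hq00 : q = 0 := op_eq_zero_of_delta q hq0
  rw [hpq, hq00, mul_zero, zero_mul]

/-- **Negative answer to Q2 of `MP_ab5103_an`, also under property A.** There are uniformly
locally finite metric spaces `X`, `Y`, where `Y` has property A, and a (unital) embedding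
`Φ` of the uniform Roe algebra of `X` into that of `Y`, such that for no projection `p` in the
relative commutant of the image of `Φ` the map `a ↦ p Φ(a) p` is a compact preserving
embedding. -/
theorem main : ∃ (X Y : Type) (_ : MetricSpace X) (_ : MetricSpace Y),
    ULF X ∧ ULF Y ∧ PropertyA Y ∧
    ExistsEmbeddingWithoutCompactCutdown (stdBasis X) (stdBasis Y) := by
  refine ⟨SpN, Fin2 × SpN, inferInstance, inferInstance, ?_, ?_, ?_, tw U, isEmbedding,
    tw_one U, ?_⟩
  · exact sparse_ulf SpN _ (fun n => Set.finite_le_nat n)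
  · exact prod_ulf fin2_ulf (sparse_ulf SpN _ (fun n => Set.finite_le_nat n))
  · exact propertyA_of_rep _ (prod_rep fin2_rep (sparse_rep SpN _ (mkN 0)))
  · rintro ⟨p, ⟨hpm, hproj, hcomm⟩, hemb, hcpt⟩
    have hp0 : p = 0 :=
      proj_eq_zero p hpm hproj hcomm (hcpt _ (matUnit_mem _ _) (matUnit_compact (mkN 0) (mkN 0)))
    have h2 : (1 : Op SpN) = 0 := by
      refine hemb.injective 1 one_mem_roe 0 zero_mem_roe ?_
      simp [hp0]
    have h4 : entry (1 : Op SpN) (mkN 0) (mkN 0) = 0 := by
      rw [h2]; simp [entry]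
    rw [entry_one] at h4
    simp at h4

end Pool.Agent.Helper58.RoeCompact
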