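import Pool.Agent.Helper58.RoeBase

/-!
# Amplifications and reflections on spaces of square summable functions
-/

set_option autoImplicit false

noncomputable section

namespace Pool.Agent.Helper58.Roe

open scoped Classical

variable {X Y Z : Type}

lemma summable_sq (v : Hil Y) : Summable (fun y => ‖v y‖ ^ 2) := by
  have h := (lp.memℓp v).summable (by norm_num)
  simpa using h

lemma norm_sq_eq (v : Hil Y) : ‖v‖ ^ 2 = ∑' y, ‖v y‖ ^ 2 := by
  have h := lp.norm_rpow_eq_tsum (p := 2) (by norm_num) v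
  simp only [ENNReal.toReal_ofNat, Real.rpow_ofNat] at h
  exact h

/-- Build an element of `Hil Y` from a square summable function. -/
def mkHil (f : Y → ℂ) (hf : Summable fun y => ‖f y‖ ^ 2) : Hil Y :=
  ⟨f, memℓp_gen (by simpa using hf)⟩

@[simp] lemma mkHil_apply (f : Y → ℂ) (hf : Summable fun y => ‖f y‖ ^ 2) (y : Y) :
    mkHil f hf y = f y := rfl

/-! ### Slices and amplifications -/

/-- The slice of `v` at `z`. -/
def slice (v : Hil (Z × X)) (z : Z) : Hil X :=
  mkHil (fun x => v (z, x)) ((summable_sq v).comp_injective (Prod.mk_right_injective z))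

@[simp] lemma slice_apply (v : Hil (Z × X)) (z : Z) (x : X) : slice v z x = v (z, x) := rfl

lemma slice_add (v w : Hil (Z × X)) (z : Z) : slice (v + w) z = slice v z + slice w z := rfl

lemma slice_smul (c : ℂ) (v : Hil (Z × X)) (z : Z) : slice (c • v) z = c • slice v z := rfl

lemma summable_norm_slice (v : Hil (Z × X)) : Summable (fun z => ‖slice v z‖ ^ 2) := by
  have h := (summable_prod_of_nonneg (f := fun p : Z × X => ‖v p‖ ^ 2)
    (fun p => by positivity)).1 (summable_sq v)
  refine h.2.congr (fun z => ?_)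
  exact (norm_sq_eq (slice v z)).symm

lemma norm_sq_eq_slice (v : Hil (Z × X)) : ‖v‖ ^ 2 = ∑' z, ‖slice v z‖ ^ 2 := by
  rw [norm_sq_eq, (summable_sq v).tsum_prod]
  refine tsum_congr (fun z => ?_)
  exact (norm_sq_eq (slice v z)).symm

lemma inner_eq_slice (v w : Hil (Z × X)) :
    inner ℂ v w = ∑' z, inner ℂ (slice v z) (slice w z) := by
  have hs : Summable (fun p : Z × X => inner ℂ (v p) (w p)) := summable_inner v w
  have h1 : inner ℂ v w = ∑' p : Z × X, inner ℂ (v p) (w p) := inner_eq_tsum v w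
  have h2 : ∀ z : Z, inner ℂ (slice v z) (slice w z) = ∑' x : X, inner ℂ (v (z, x)) (w (z, x)) :=
    fun z => inner_eq_tsum _ _
  rw [h1, hs.tsum_prod]
  exact tsum_congr (fun z => (h2 z).symm)

lemma amp_aux (a : Op X) (v : Hil (Z × X)) :
    Summable (fun p : Z × X => ‖(a (slice v p.1)) p.2‖ ^ 2) := by
  have hnn : 0 ≤ (fun p : Z × X => ‖(a (slice v p.1)) p.2‖ ^ 2) := fun p => sq_nonneg _
  refine (summable_prod_of_nonneg hnn).2 ⟨fun z => summable_sq (a (slice v z)), ?_⟩
  have h : ∀ z : Z, ∑' x, ‖(a (slice v z)) x‖ ^ 2 = ‖a (slice v z)‖ ^ 2 := fun z =>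
    (norm_sq_eq _).symm
  simp only [h]
  refine Summable.of_nonneg_of_le (fun z => by positivity) (fun z => ?_)
    ((summable_norm_slice v).mul_left (‖a‖ ^ 2))
  rw [← mul_pow]
  exact pow_le_pow_left₀ (norm_nonneg _) (a.le_opNorm _) 2

/-- The amplification of `a` acting on `Hil (Z × X)`, as a function. -/
def ampFun (a : Op X) (v : Hil (Z × X)) : Hil (Z × X) :=
  mkHil (fun p => (a (slice v p.1)) p.2) (amp_aux a v)

lemma slice_ampFun (a : Op X) (v : Hil (Z × X)) (z : Z) :
    slice (ampFun a v) z = a (slice v z) := rfl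

lemma norm_ampFun_le (a : Op X) (v : Hil (Z × X)) : ‖ampFun a v‖ ≤ ‖a‖ * ‖v‖ := by
  refine le_of_sq_le_sq ?_ (by positivity)
  rw [mul_pow, norm_sq_eq_slice, norm_sq_eq_slice v, ← tsum_mul_left]
  refine (summable_norm_slice _).tsum_le_tsum (fun z => ?_)
    ((summable_norm_slice v).mul_left (‖a‖ ^ 2))
  rw [slice_ampFun, ← mul_pow]
  exact pow_le_pow_left₀ (norm_nonneg _) (a.le_opNorm _) 2

/-- The amplification of `a` acting on `Hil (Z × X)`. -/
def amp (Z : Type) (a : Op X) : Op (Z × X) :=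
  LinearMap.mkContinuous
    { toFun := ampFun a
      map_add' := by
        intro v w
        refine Hil.ext (fun p => ?_)
        change (a (slice (v + w) p.1)) p.2 = (a (slice v p.1)) p.2 + (a (slice w p.1)) p.2
        rw [slice_add, map_add]
        rfl
      map_smul' := by
        intro c v
        refine Hil.ext (fun p => ?_)
        change (a (slice (c • v) p.1)) p.2 = c • (a (slice v p.1)) p.2
        rw [slice_smul, map_smul]
        rfl }
    ‖a‖ (norm_ampFun_le a)

lemma amp_apply (a : Op X) (v : Hil (Z × X)) (p : Z × X) :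
    (amp Z a v) p = (a (slice v p.1)) p.2 := rfl

lemma slice_amp (a : Op X) (v : Hil (Z × X)) (z : Z) :
    slice (amp Z a v) z = a (slice v z) := rfl

lemma norm_amp_le (a : Op X) : ‖amp Z a‖ ≤ ‖a‖ :=
  LinearMap.mkContinuous_norm_le _ (norm_nonneg _) _

lemma amp_add (a b : Op X) : amp Z (a + b) = amp Z a + amp Z b := by
  refine ContinuousLinearMap.ext (fun v => Hil.ext (fun p => ?_))
  rfl

lemma amp_smul (c : ℂ) (a : Op X) : amp Z (c • a) = c • amp Z a := by
  refine ContinuousLinearMap.ext (fun v => Hil.ext (fun p => ?_))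
  rfl

lemma amp_mul (a b : Op X) : amp Z (a * b) = amp Z a * amp Z b := by
  refine ContinuousLinearMap.ext (fun v => Hil.ext (fun p => ?_))
  rfl

lemma amp_one : amp Z (1 : Op X) = 1 := by
  refine ContinuousLinearMap.ext (fun v => Hil.ext (fun p => ?_))
  rfl

lemma amp_star (a : Op X) : amp Z (star a) = star (amp Z a) := by
  rw [ContinuousLinearMap.star_eq_adjoint, ContinuousLinearMap.star_eq_adjoint,
    ContinuousLinearMap.eq_adjoint_iff]
  intro v w
  rw [inner_eq_slice, inner_eq_slice]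
  refine tsum_congr (fun z => ?_)
  rw [slice_amp, slice_amp, ContinuousLinearMap.adjoint_inner_left]

lemma entry_amp (a : Op X) (p p' : Z × X) :
    entry (amp Z a) p p' = if p.1 = p'.1 then entry a p.2 p'.2 else 0 := by
  obtain ⟨z, x⟩ := p
  obtain ⟨z', x'⟩ := p'
  rw [entry_eq_apply, amp_apply]
  by_cases h : z = z'
  · subst h
    have : slice (delta (z, x')) z = (delta x' : Hil X) := by
      refine Hil.ext (fun y => ?_)
      change (delta (z, x') : Hil (Z × X)) (z, y) = (delta x' : Hil X) y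
      rw [delta_apply, delta_apply]
      simp
    simp only [if_true]
    rw [this, entry_eq_apply]
  · have : slice (delta (z', x')) z = (0 : Hil X) := by
      refine Hil.ext (fun y => ?_)
      change (delta (z', x') : Hil (Z × X)) (z, y) = 0
      rw [delta_apply]
      simp [h]
    simp only [this, h, if_false]
    rw [map_zero]
    rfl

/-! ### Reflections -/

/-- Data of a self-adjoint unitary on `Hil Y` mixing each point with at most one other point. -/
structure Refl (Y : Type) where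
  /-- the involution -/
  σ : Y → Y
  /-- diagonal coefficients -/
  α : Y → ℝ
  /-- off-diagonal coefficients -/
  β : Y → ℝ
  hσ : Function.Involutive σ
  h1 : ∀ y, α y ^ 2 + β y ^ 2 = 1
  h2 : ∀ y, β (σ y) = β y
  h3 : ∀ y, β y * (α y + α (σ y)) = 0

namespace Refl

variable (U : Refl Y)

lemma abs_α (y : Y) : |U.α y| ≤ 1 := by
  rw [← sq_le_one_iff_abs_le_one]
  nlinarith [U.h1 y, sq_nonneg (U.β y)]

lemma abs_β (y : Y) : |U.β y| ≤ 1 := by
  rw [← sq_le_one_iff_abs_le_one]
  nlinarith [U.h1 y, sq_nonneg (U.α y)]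

/-- The function underlying the reflection. -/
def fn (v : Y → ℂ) (y : Y) : ℂ := (U.α y : ℂ) * v y + (U.β y : ℂ) * v (U.σ y)

lemma norm_fn_sq_le (v : Y → ℂ) (y : Y) :
    ‖U.fn v y‖ ^ 2 ≤ 2 * (‖v y‖ ^ 2 + ‖v (U.σ y)‖ ^ 2) := by
  have h : ‖U.fn v y‖ ≤ ‖v y‖ + ‖v (U.σ y)‖ := by
    unfold fn
    refine (norm_add_le _ _).trans ?_
    rw [norm_mul, norm_mul, Complex.norm_real, Complex.norm_real, Real.norm_eq_abs,
      Real.norm_eq_abs]
    have h1 := U.abs_α y
    have h2 := U.abs_β y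
    have h3 := norm_nonneg (v y)
    have h4 := norm_nonneg (v (U.σ y))
    nlinarith
  calc ‖U.fn v y‖ ^ 2 ≤ (‖v y‖ + ‖v (U.σ y)‖) ^ 2 := pow_le_pow_left₀ (norm_nonneg _) h 2
    _ ≤ 2 * (‖v y‖ ^ 2 + ‖v (U.σ y)‖ ^ 2) := by
        nlinarith [sq_nonneg (‖v y‖ - ‖v (U.σ y)‖)]

lemma summable_comp (v : Hil Y) : Summable (fun y => ‖v (U.σ y)‖ ^ 2) :=
  (summable_sq v).comp_injective U.hσ.injective

lemma tsum_comp (f : Y → ℂ) : ∑' y, f (U.σ y) = ∑' y, f y :=
  (U.hσ.toPerm U.σ).tsum_eq f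

lemma tsum_comp' (f : Y → ℝ) : ∑' y, f (U.σ y) = ∑' y, f y :=
  (U.hσ.toPerm U.σ).tsum_eq f

lemma fn_aux (v : Hil Y) : Summable (fun y => ‖U.fn v y‖ ^ 2) :=
  Summable.of_nonneg_of_le (fun y => by positivity) (fun y => U.norm_fn_sq_le v y)
    (((summable_sq v).add (U.summable_comp v)).mul_left 2)

/-- The reflection as a bounded operator. -/
def op : Op Y :=
  LinearMap.mkContinuous
    { toFun := fun v => mkHil (U.fn v) (U.fn_aux v)
      map_add' := by
        intro v w
        refine Hil.ext (fun y => ?_)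
        change U.fn (v + w : Hil Y) y = U.fn v y + U.fn w y
        unfold fn
        change _ * (v y + w y) + _ * (v (U.σ y) + w (U.σ y)) = _
        ring
      map_smul' := by
        intro c v
        refine Hil.ext (fun y => ?_)
        change U.fn (c • v : Hil Y) y = c • U.fn v y
        unfold fn
        change _ * (c • v y) + _ * (c • v (U.σ y)) = _
        simp only [smul_eq_mul]
        ring }
    2 (by
      intro v
      refine le_of_sq_le_sq ?_ (by positivity)
      change ‖mkHil (U.fn v) (U.fn_aux v)‖ ^ 2 ≤ _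
      rw [norm_sq_eq]
      calc ∑' y, ‖(mkHil (U.fn v) (U.fn_aux v)) y‖ ^ 2
          ≤ ∑' y, 2 * (‖v y‖ ^ 2 + ‖v (U.σ y)‖ ^ 2) :=
            (U.fn_aux v).tsum_le_tsum (fun y => U.norm_fn_sq_le v y)
              (((summable_sq v).add (U.summable_comp v)).mul_left 2)
        _ = 2 * (∑' y, ‖v y‖ ^ 2 + ∑' y, ‖v (U.σ y)‖ ^ 2) := by
            rw [tsum_mul_left, (summable_sq v).tsum_add (U.summable_comp v)]
        _ = (2 * ‖v‖) ^ 2 := by
            rw [U.tsum_comp' (fun y => ‖v y‖ ^ 2), norm_sq_eq v |>.symm]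
            ring)

lemma op_apply (v : Hil Y) (y : Y) :
    (U.op v) y = (U.α y : ℂ) * v y + (U.β y : ℂ) * v (U.σ y) := rfl

lemma op_mul_op : U.op * U.op = 1 := by
  refine ContinuousLinearMap.ext (fun v => Hil.ext (fun y => ?_))
  change (U.op (U.op v)) y = v y
  rw [op_apply, op_apply, op_apply, U.hσ y, U.h2 y]
  have h1 : (U.α y : ℂ) ^ 2 + (U.β y : ℂ) ^ 2 = 1 := by exact_mod_cast U.h1 y
  have h3 : (U.β y : ℂ) * ((U.α y : ℂ) + (U.α (U.σ y) : ℂ)) = 0 := by exact_mod_cast U.h3 y
  linear_combination v y * h1 + v (U.σ y) * h3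

lemma op_star : star U.op = U.op := by
  rw [ContinuousLinearMap.star_eq_adjoint]
  symm
  rw [ContinuousLinearMap.eq_adjoint_iff]
  intro v w
  rw [inner_eq_tsum, inner_eq_tsum]
  have e1 : ∀ y, inner ℂ ((U.op v) y) (w y) =
      inner ℂ (v y) ((U.α y : ℂ) * w y) + inner ℂ (v (U.σ y)) ((U.β y : ℂ) * w y) := by
    intro y
    rw [op_apply]
    simp
    ring
  have e2 : ∀ y, inner ℂ (v y) ((U.op w) y) =
      inner ℂ (v y) ((U.α y : ℂ) * w y) + inner ℂ (v y) ((U.β y : ℂ) * w (U.σ y)) := by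
    intro y
    rw [op_apply, inner_add_right]
  -- summability
  have hs1 : Summable (fun y => inner ℂ (v y) ((U.α y : ℂ) * w y)) := by
    refine Summable.of_norm_bounded (g := fun y => ‖v y‖ ^ 2 + ‖w y‖ ^ 2)
      ((summable_sq v).add (summable_sq w)) (fun y => ?_)
    refine (norm_inner_le_norm _ _).trans ?_
    rw [norm_mul, Complex.norm_real, Real.norm_eq_abs]
    have := U.abs_α y
    have := norm_nonneg (v y)
    have := norm_nonneg (w y)
    have h5 : |U.α y| * ‖w y‖ ≤ ‖w y‖ := by nlinarith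
    have h6 : ‖v y‖ * (|U.α y| * ‖w y‖) ≤ ‖v y‖ * ‖w y‖ := by gcongr
    nlinarith [sq_nonneg (‖v y‖ - ‖w y‖)]
  have hs2 : Summable (fun y => inner ℂ (v y) ((U.β y : ℂ) * w (U.σ y))) := by
    refine Summable.of_norm_bounded (g := fun y => ‖v y‖ ^ 2 + ‖w (U.σ y)‖ ^ 2)
      ((summable_sq v).add (U.summable_comp w)) (fun y => ?_)
    refine (norm_inner_le_norm _ _).trans ?_
    rw [norm_mul, Complex.norm_real, Real.norm_eq_abs]
    have := U.abs_β y
    have := norm_nonneg (v y)
    have := norm_nonneg (w (U.σ y))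
    have h5 : |U.β y| * ‖w (U.σ y)‖ ≤ ‖w (U.σ y)‖ := by nlinarith
    have h6 : ‖v y‖ * (|U.β y| * ‖w (U.σ y)‖) ≤ ‖v y‖ * ‖w (U.σ y)‖ := by gcongr
    nlinarith [sq_nonneg (‖v y‖ - ‖w (U.σ y)‖)]
  have hs3 : Summable (fun y => inner ℂ (v (U.σ y)) ((U.β y : ℂ) * w y)) := by
    have := hs2.comp_injective U.hσ.injective
    refine this.congr (fun y => ?_)
    simp only [Function.comp]
    rw [U.hσ y, U.h2 y]
  have e3 : ∑' y, inner ℂ (v (U.σ y)) ((U.β y : ℂ) * w y)
      = ∑' y, inner ℂ (v y) ((U.β y : ℂ) * w (U.σ y)) := by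
    rw [← U.tsum_comp (fun y => inner ℂ (v y) ((U.β y : ℂ) * w (U.σ y)))]
    refine tsum_congr (fun y => ?_)
    rw [U.hσ y, U.h2 y]
  simp_rw [e1, e2]
  rw [hs1.tsum_add hs3, hs1.tsum_add hs2, e3]

lemma op_delta (y : Y) :
    U.op (delta y) = (U.α y : ℂ) • delta y + (U.β y : ℂ) • (delta (U.σ y) : Hil Y) := by
  refine Hil.ext (fun w => ?_)
  change (U.op (delta y)) w = (U.α y : ℂ) * (delta y : Hil Y) w
    + (U.β y : ℂ) * (delta (U.σ y) : Hil Y) w
  rw [op_apply, delta_apply, delta_apply, delta_apply]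
  by_cases h1 : w = y
  · subst h1
    by_cases h2 : U.σ w = w
    · simp [h2]
    · have h2' : ¬ w = U.σ w := fun h => h2 h.symm
      simp [h2, h2']
  · by_cases h2 : U.σ w = y
    · have h3 : w = U.σ y := by rw [← h2, U.hσ w]
      have h4 : U.β w = U.β y := by rw [h3, U.h2 y]
      simp only [h1, h2, if_false, if_true]
      rw [if_pos h3, h4]
      ring
    · have h3 : ¬ w = U.σ y := by
        intro h3; apply h2; rw [h3, U.hσ y]
      simp [h1, h2, h3]

lemma entry_conj (b : Op Y) (y y' : Y) :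
    entry (U.op * b * U.op) y y' =
      (U.α y : ℂ) * (U.α y' : ℂ) * entry b y y'
      + (U.α y : ℂ) * (U.β y' : ℂ) * entry b y (U.σ y')
      + (U.β y : ℂ) * (U.α y' : ℂ) * entry b (U.σ y) y'
      + (U.β y : ℂ) * (U.β y' : ℂ) * entry b (U.σ y) (U.σ y') := by
  simp only [entry_eq_apply]
  change (U.op (b (U.op (delta y')))) y = _
  rw [op_delta, op_apply, map_add, map_smul, map_smul]
  change (U.α y : ℂ) * ((U.α y' : ℂ) * (b (delta y')) y
      + (U.β y' : ℂ) * (b (delta (U.σ y'))) y)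
    + (U.β y : ℂ) * ((U.α y' : ℂ) * (b (delta y')) (U.σ y)
      + (U.β y' : ℂ) * (b (delta (U.σ y'))) (U.σ y)) = _
  ring

end Refl

/-! ### Matrix units -/

/-- The matrix unit at `(x, x')`. -/
def matUnit (x x' : X) : Op X := InnerProductSpace.rankOne ℂ (delta x : Hil X) (delta x')

lemma matUnit_apply (x x' : X) (v : Hil X) : matUnit x x' v = (v x') • delta x := by
  unfold matUnit
  rw [InnerProductSpace.rankOne_apply, inner_delta]

lemma entry_matUnit (x x' u u' : X) :
    entry (matUnit x x') u u' = if x' = u' ∧ u = x then 1 else 0 := by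
  rw [entry_eq_apply, matUnit_apply]
  change (delta u' : Hil X) x' * (delta x : Hil X) u = _
  rw [delta_apply, delta_apply]
  by_cases h1 : x' = u' <;> by_cases h2 : u = x <;> simp [h1, h2]

lemma matUnit_mem [MetricSpace X] (x x' : X) : matUnit x x' ∈ RoeOf X := by
  apply mem_roe_of_finProp
  rw [finProp_iff]
  refine ⟨dist x x', fun u u' h => ?_⟩
  rw [entry_matUnit] at h
  by_cases h1 : x' = u' ∧ u = x
  · rw [h1.2, h1.1]
  · simp [h1] at h

/-! ### Small entries far from the diagonal -/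

lemma entry_small [MetricSpace Y] {p : Op Y} (hp : p ∈ RoeOf Y) {ε : ℝ} (hε : 0 < ε) :
    ∃ R : ℝ, ∀ y y', R < dist y y' → ‖entry p y y'‖ < ε := by
  obtain ⟨T, hT, hpT⟩ := Metric.mem_closure_iff.1 hp ε hε
  obtain ⟨R, hR⟩ := (finProp_iff T).1 hT
  refine ⟨R, fun y y' h => ?_⟩
  have h0 : entry T y y' = 0 := by
    by_contra hne
    exact absurd (hR y y' hne) (not_le.2 h)
  have : entry p y y' = entry (p - T) y y' := by rw [entry_sub, h0, sub_zero]
  rw [this]
  refine (norm_entry_le _ _ _).trans_lt ?_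
  rwa [dist_eq_norm] at hpT

end Pool.Agent.Helper58.Roe
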