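import Mathlib

/-!
# Uniform Roe algebras

Definitions for problem `MP_ab5103_an`: uniformly locally finite metric spaces, property A,
finite propagation operators, the uniform Roe algebra, and embeddings between uniform Roe
algebras.

The Hilbert space of square summable functions on `X`, with its standard basis, is
`lp (fun _ : X => ℂ) 2` with `stdBasis X`.  The definitions are written for a Hilbert space `H`
with a Hilbert basis `b` indexed by `X`; the theorems use them for `b = stdBasis X`.
-/

set_option autoImplicit false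

noncomputable section

namespace Pool.Agent.Helper58.Roe

/-- The standard Hilbert basis of the space of square summable functions on `X`. -/
def stdBasis (X : Type) : HilbertBasis X ℂ (lp (fun _ : X => ℂ) 2) :=
  HilbertBasis.ofRepr (LinearIsometryEquiv.refl ℂ (lp (fun _ : X => ℂ) 2))

/-- `X` is uniformly locally finite: for every `r > 0` the balls of radius `r` are finite with
uniformly bounded cardinality. -/
def ULF (X : Type) [MetricSpace X] : Prop :=
  ∀ r : ℝ, 0 < r → ∃ N : ℕ, ∀ x : X,
    (Metric.closedBall x r).Finite ∧ (Metric.closedBall x r).ncard ≤ N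

/-- Property A for `X`: for all `R, ε > 0` there are `S > 0` and probability functions `ξ x` on
`X`, supported in the ball of radius `S` around `x`, with `‖ξ x - ξ y‖₁ ≤ ε` whenever
`dist x y ≤ R`. -/
def PropertyA (X : Type) [MetricSpace X] : Prop :=
  ∀ R ε : ℝ, 0 < R → 0 < ε → ∃ S : ℝ, 0 < S ∧ ∃ ξ : X → X → ℝ,
    (∀ x z, 0 ≤ ξ x z) ∧ (∀ x, HasSum (ξ x) 1) ∧
    (∀ x z, ξ x z ≠ 0 → z ∈ Metric.closedBall x S) ∧
    (∀ x y, dist x y ≤ R → ∑' z, |ξ x z - ξ y z| ≤ ε)

section algebra

variable {X H : Type} [MetricSpace X] [NormedAddCommGroup H] [InnerProductSpace ℂ H]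

/-- The operator `a` has finite propagation with respect to the basis `b`: there is `r` such
that `dist x y ≤ r` whenever the matrix entry of `a` at `(x, y)`, i.e. the inner product of
`a (b y)` with `b x`, is nonzero. -/
def FinProp (b : HilbertBasis X ℂ H) (a : H →L[ℂ] H) : Prop :=
  ∃ r : ℝ, ∀ x y : X, inner ℂ (b x) (a (b y)) ≠ 0 → dist x y ≤ r

/-- The uniform Roe algebra: the norm closure of the set of finite propagation operators. -/
def uniformRoe (b : HilbertBasis X ℂ H) : Set (H →L[ℂ] H) := closure {a | FinProp b a}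

variable [CompleteSpace H]

/-- `q` is a rank-one projection. -/
def IsRankOneProj (q : H →L[ℂ] H) : Prop :=
  IsStarProjection q ∧ Module.finrank ℂ (LinearMap.range (q : H →ₗ[ℂ] H)) = 1

variable {Y K : Type} [MetricSpace Y] [NormedAddCommGroup K] [InnerProductSpace ℂ K]
  [CompleteSpace K]

/-- `Φ`, restricted to the uniform Roe algebra of `b`, is an embedding, i.e. an injective
`*`-homomorphism, into the uniform Roe algebra of `c`.  (Only the values of `Φ` on the uniform
Roe algebra of `b` matter.) -/
structure IsEmbedding (b : HilbertBasis X ℂ H) (c : HilbertBasis Y ℂ K)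
    (Φ : (H →L[ℂ] H) → (K →L[ℂ] K)) : Prop where
  mapsTo : ∀ a ∈ uniformRoe b, Φ a ∈ uniformRoe c
  map_add : ∀ a ∈ uniformRoe b, ∀ a' ∈ uniformRoe b, Φ (a + a') = Φ a + Φ a'
  map_smul : ∀ t : ℂ, ∀ a ∈ uniformRoe b, Φ (t • a) = t • Φ a
  map_mul : ∀ a ∈ uniformRoe b, ∀ a' ∈ uniformRoe b, Φ (a * a') = Φ a * Φ a'
  map_star : ∀ a ∈ uniformRoe b, Φ (star a) = star (Φ a)
  injective : ∀ a ∈ uniformRoe b, ∀ a' ∈ uniformRoe b, Φ a = Φ a' → a = a'

/-- `Φ` maps the compact operators in the uniform Roe algebra of `b` (which contains all compact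
operators on `H`) to compact operators. -/
def CompactPreserving (b : HilbertBasis X ℂ H) (Φ : (H →L[ℂ] H) → (K →L[ℂ] K)) : Prop :=
  ∀ a ∈ uniformRoe b, IsCompactOperator a → IsCompactOperator (Φ a)

/-- `Φ` maps the rank-one projections in the uniform Roe algebra of `b` to rank-one
projections. -/
def RankPreserving (b : HilbertBasis X ℂ H) (Φ : (H →L[ℂ] H) → (K →L[ℂ] K)) : Prop :=
  ∀ q ∈ uniformRoe b, IsRankOneProj q → IsRankOneProj (Φ q)

/-- `p` is a projection in the relative commutant, in the uniform Roe algebra of `c`, of the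
image under `Φ` of the uniform Roe algebra of `b`. -/
def IsCommutantProj (b : HilbertBasis X ℂ H) (c : HilbertBasis Y ℂ K)
    (Φ : (H →L[ℂ] H) → (K →L[ℂ] K)) (p : K →L[ℂ] K) : Prop :=
  p ∈ uniformRoe c ∧ IsStarProjection p ∧ ∀ a ∈ uniformRoe b, p * Φ a = Φ a * p

/-- There is a projection `p` in the relative commutant of the image of `Φ` such that
`a ↦ p Φ(a) p` is a compact preserving embedding. -/
def HasCompactCutdown (b : HilbertBasis X ℂ H) (c : HilbertBasis Y ℂ K)
    (Φ : (H →L[ℂ] H) → (K →L[ℂ] K)) : Prop :=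
  ∃ p : K →L[ℂ] K, IsCommutantProj b c Φ p ∧
    IsEmbedding b c (fun a => p * Φ a * p) ∧ CompactPreserving b (fun a => p * Φ a * p)

/-- There is a projection `p` in the relative commutant of the image of `Φ` such that
`a ↦ p Φ(a) p` is a rank preserving embedding. -/
def HasRankCutdown (b : HilbertBasis X ℂ H) (c : HilbertBasis Y ℂ K)
    (Φ : (H →L[ℂ] H) → (K →L[ℂ] K)) : Prop :=
  ∃ p : K →L[ℂ] K, IsCommutantProj b c Φ p ∧
    IsEmbedding b c (fun a => p * Φ a * p) ∧ RankPreserving b (fun a => p * Φ a * p)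

/-- There is a unital embedding of the uniform Roe algebra of `b` into that of `c` without a
compact preserving cut-down. -/
def ExistsEmbeddingWithoutCompactCutdown (b : HilbertBasis X ℂ H) (c : HilbertBasis Y ℂ K) :
    Prop :=
  ∃ Φ : (H →L[ℂ] H) → (K →L[ℂ] K),
    IsEmbedding b c Φ ∧ Φ 1 = 1 ∧ ¬ HasCompactCutdown b c Φ

/-- There is a unital compact preserving embedding of the uniform Roe algebra of `b` into that
of `c` without a rank preserving cut-down. -/
def ExistsEmbeddingWithoutRankCutdown (b : HilbertBasis X ℂ H) (c : HilbertBasis Y ℂ K) :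
    Prop :=
  ∃ Φ : (H →L[ℂ] H) → (K →L[ℂ] K),
    IsEmbedding b c Φ ∧ Φ 1 = 1 ∧ CompactPreserving b Φ ∧ ¬ HasRankCutdown b c Φ

end algebra

end Pool.Agent.Helper58.Roe
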