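import Pool.Agent.Helper58.RoeConstr

/-!
# Twisted amplifications as embeddings of uniform Roe algebras
-/

set_option autoImplicit false

noncomputable section

namespace Pool.Agent.Helper58.Roe

open scoped Classical Topology
open Filter

variable {X Y Z : Type}

lemma op_ext {a b : Op Y} (h : ∀ y, a (delta y) = b (delta y)) : a = b := by
  refine lp.ext_continuousLinearMap (E := fun _ : Y => ℂ) (p := 2) (by norm_num) (fun y => ?_)
  refine ContinuousLinearMap.ext_ring ?_
  exact h y

lemma op_eq_zero_of_delta (q : Op Y) (hq0 : ∀ y, q (delta y) = 0) : q = 0 :=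
  op_ext (fun y => by rw [hq0 y]; rfl)

/-! ### Compact operators and basis vectors -/

lemma tendsto_apply_zero (v : Hil Y) {f : ℕ → Y} (hf : Function.Injective f) :
    Tendsto (fun m => v (f m)) atTop (𝓝 0) := by
  have h := ((summable_sq v).comp_injective hf).tendsto_atTop_zero
  rw [tendsto_zero_iff_norm_tendsto_zero]
  have h2 := h.sqrt
  simp only [Function.comp, Real.sqrt_zero] at h2
  refine h2.congr (fun m => ?_)
  exact Real.sqrt_sq (norm_nonneg _)

lemma compact_delta_tendsto {C : Op Y} (hC : IsCompactOperator C) {f : ℕ → Y}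
    (hf : Function.Injective f) : Tendsto (fun m => ‖C (delta (f m))‖) atTop (𝓝 0) := by
  by_contra hcon
  obtain ⟨ε, hε, hfreq⟩ : ∃ ε > 0, ∃ᶠ m in atTop, ε ≤ ‖C (delta (f m))‖ := by
    rw [Metric.tendsto_nhds] at hcon
    push Not at hcon
    obtain ⟨ε, hε, h⟩ := hcon
    refine ⟨ε, hε, ?_⟩
    refine h.mono (fun m hm => ?_)
    rwa [Real.dist_eq, sub_zero, abs_of_nonneg (norm_nonneg _)] at hm
  obtain ⟨φ, hφ, hφ2⟩ := extraction_of_frequently_atTop hfreq
  obtain ⟨K, hK, hKsub⟩ := (isCompactOperator_iff_exists_mem_nhds_image_subset_compact C).1 hC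
  obtain ⟨V, hV, hVK⟩ := hKsub
  -- rather use the image of the closed unit ball
  have hball := hC.isCompact_closure_image_closedBall 1
  have hmem : ∀ n, C (delta (f (φ n))) ∈ closure (C '' Metric.closedBall 0 1) := by
    intro n
    apply subset_closure
    refine ⟨delta (f (φ n)), ?_, rfl⟩
    simp [norm_delta]
  obtain ⟨v, -, ψ, hψ, hlim⟩ := hball.tendsto_subseq hmem
  have hnorm : ε ≤ ‖v‖ := by
    refine ge_of_tendsto hlim.norm (Eventually.of_forall (fun n => ?_))
    exact hφ2 (ψ n)
  have h1 : Tendsto (fun n => inner ℂ v (C (delta (f (φ (ψ n)))))) atTop (𝓝 (inner ℂ v v)) :=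
    Filter.Tendsto.inner tendsto_const_nhds hlim
  have h2 : Tendsto (fun n => inner ℂ v (C (delta (f (φ (ψ n)))))) atTop (𝓝 0) := by
    have hinj : Function.Injective (fun n => f (φ (ψ n))) :=
      hf.comp (hφ.injective.comp hψ.injective)
    have h3 := tendsto_apply_zero ((ContinuousLinearMap.adjoint C) v) hinj
    have h4 := (Complex.continuous_conj.tendsto (0 : ℂ)).comp h3
    simp only [map_zero] at h4
    refine h4.congr (fun n => ?_)
    simp only [Function.comp]
    rw [← ContinuousLinearMap.adjoint_inner_left, ← inner_delta, inner_conj_symm]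
  have h5 : inner ℂ v v = (0 : ℂ) := tendsto_nhds_unique h1 h2
  rw [inner_self_eq_zero] at h5
  rw [h5, norm_zero] at hnorm
  linarith

/-! ### The twisted amplification -/

section twist

variable (U : Refl (Z × X))

/-- The twisted amplification. -/
def tw (a : Op X) : Op (Z × X) := U.op * amp Z a * U.op

lemma tw_mul (a b : Op X) : tw U (a * b) = tw U a * tw U b := by
  unfold tw
  rw [amp_mul]
  calc U.op * (amp Z a * amp Z b) * U.op = U.op * amp Z a * 1 * (amp Z b * U.op) := by
        simp only [mul_assoc, mul_one]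
    _ = U.op * amp Z a * (U.op * U.op) * (amp Z b * U.op) := by rw [U.op_mul_op]
    _ = U.op * amp Z a * U.op * (U.op * amp Z b * U.op) := by simp only [mul_assoc]

lemma tw_add (a b : Op X) : tw U (a + b) = tw U a + tw U b := by
  unfold tw
  rw [amp_add, mul_add, add_mul]

lemma tw_smul (c : ℂ) (a : Op X) : tw U (c • a) = c • tw U a := by
  unfold tw
  rw [amp_smul, mul_smul_comm, smul_mul_assoc]

lemma tw_star (a : Op X) : tw U (star a) = star (tw U a) := by
  unfold tw
  rw [amp_star, star_mul, star_mul, U.op_star, mul_assoc]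

lemma tw_one : tw U (1 : Op X) = 1 := by
  unfold tw
  rw [amp_one, mul_one, U.op_mul_op]

lemma tw_zero : tw U (0 : Op X) = 0 := by
  have := tw_smul U 0 (0 : Op X)
  simpa using this

lemma norm_tw_le (a : Op X) : ‖tw U a‖ ≤ ‖U.op‖ * ‖a‖ * ‖U.op‖ := by
  unfold tw
  refine (norm_mul_le _ _).trans ?_
  gcongr
  refine (norm_mul_le _ _).trans ?_
  gcongr
  exact norm_amp_le a

lemma continuous_tw : Continuous (tw U) := by
  let L : Op X →ₗ[ℂ] Op (Z × X) :=
    { toFun := tw U
      map_add' := tw_add U
      map_smul' := tw_smul U }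
  have : Continuous L := by
    refine (LinearMap.mkContinuous L (‖U.op‖ * ‖U.op‖) (fun a => ?_)).continuous
    calc ‖L a‖ ≤ ‖U.op‖ * ‖a‖ * ‖U.op‖ := norm_tw_le U a
      _ = ‖U.op‖ * ‖U.op‖ * ‖a‖ := by ring
  exact this

lemma tw_injective [Nonempty Z] : Function.Injective (tw U) := by
  intro a b h
  have h1 : amp Z a = amp Z b := by
    have h2 : U.op * tw U a * U.op = U.op * tw U b * U.op := by rw [h]
    unfold tw at h2
    have key : ∀ c : Op (Z × X), U.op * (U.op * c * U.op) * U.op = c := by
      intro c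
      calc U.op * (U.op * c * U.op) * U.op = (U.op * U.op) * c * (U.op * U.op) := by
            simp only [mul_assoc]
        _ = c := by rw [U.op_mul_op, one_mul, mul_one]
    rwa [key, key] at h2
  obtain ⟨z⟩ := ‹Nonempty Z›
  have h2 : ∀ x x', entry a x x' = entry b x x' := by
    intro x x'
    have h3 := entry_amp (Z := Z) a (z, x) (z, x')
    have h4 := entry_amp (Z := Z) b (z, x) (z, x')
    simp only [if_true] at h3 h4
    rw [← h3, ← h4, h1]
  refine op_ext (fun x' => Hil.ext (fun x => ?_))
  have h5 := h2 x x'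
  rw [entry_eq_apply, entry_eq_apply] at h5
  exact h5

/-- Shape of the nonzero matrix entries of the twisted amplification. -/
lemma entry_tw_ne (hσ : ∀ y, (U.σ y).2 = y.2) {a : Op X} {y y' : Z × X}
    (h : entry (tw U a) y y' ≠ 0) :
    y = y' ∨ (y.2 ≠ y'.2 ∧ entry a y.2 y'.2 ≠ 0 ∧
      ∃ u u' : Z × X, (u = y ∨ u = U.σ y) ∧ (u' = y' ∨ u' = U.σ y') ∧ u.1 = u'.1) := by
  unfold tw at h
  by_cases h2 : y.2 = y'.2
  · left
    by_contra hne
    apply h
    have e1 := U.entry_conj (amp Z a) y y'
    have e2 := U.entry_conj 1 y y'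
    have e3 : entry (1 : Op (Z × X)) y y' = 0 := by rw [entry_one, if_neg hne]
    rw [mul_one, U.op_mul_op, e3] at e2
    rw [e1]
    have key : ∀ u u' : Z × X, u.2 = y.2 → u'.2 = y'.2 →
        entry (amp Z a) u u' = entry a y.2 y'.2 * entry (1 : Op (Z × X)) u u' := by
      intro u u' hu hu'
      rw [entry_amp, entry_one, hu, hu']
      by_cases h3 : u.1 = u'.1
      · have : u = u' := Prod.ext h3 (by rw [hu, hu', h2])
        simp [this]
      · have : u ≠ u' := fun h4 => h3 (by rw [h4])
        simp [h3, this]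
    rw [key y y' rfl rfl, key y (U.σ y') rfl (hσ y'), key (U.σ y) y' (hσ y) rfl,
      key (U.σ y) (U.σ y') (hσ y) (hσ y')]
    rw [e3]
    linear_combination (-(entry a y.2 y'.2)) * e2
  · right
    refine ⟨h2, ?_, ?_⟩
    · intro h0
      apply h
      rw [U.entry_conj]
      simp only [entry_amp, hσ, h0]
      simp
    · by_contra hcon
      push Not at hcon
      apply h
      rw [U.entry_conj]
      simp only [entry_amp]
      rw [if_neg (hcon y y' (Or.inl rfl) (Or.inl rfl)),
        if_neg (hcon y (U.σ y') (Or.inl rfl) (Or.inr rfl)),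
        if_neg (hcon (U.σ y) y' (Or.inr rfl) (Or.inl rfl)),
        if_neg (hcon (U.σ y) (U.σ y') (Or.inr rfl) (Or.inr rfl))]
      simp

variable [MetricSpace X] [MetricSpace (Z × X)]

/-- A twisted amplification gives an embedding of uniform Roe algebras. -/
lemma tw_isEmbedding [Nonempty Z]
    (h : ∀ a : Op X, FinProp (stdBasis X) a → FinProp (stdBasis (Z × X)) (tw U a)) :
    IsEmbedding (stdBasis X) (stdBasis (Z × X)) (tw U) where
  mapsTo := fun a ha => map_mem_closure (continuous_tw U) ha (fun b hb => h b hb)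
  map_add := fun a _ a' _ => tw_add U a a'
  map_smul := fun t a _ => tw_smul U t a
  map_mul := fun a _ a' _ => tw_mul U a a'
  map_star := fun a _ => tw_star U a
  injective := fun a _ a' _ haa => tw_injective U haa

end twist

/-! ### The relative commutant -/

lemma amp_matUnit_delta (z : Z) (x x' : X) :
    amp Z (matUnit x x') (delta (z, x')) = delta (z, x) := by
  refine Hil.ext (fun p => ?_)
  rw [amp_apply, matUnit_apply]
  change (slice (delta (z, x')) p.1) x' * (delta x : Hil X) p.2 = _
  rw [slice_apply, delta_apply, delta_apply, delta_apply]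
  obtain ⟨z1, x1⟩ := p
  by_cases h1 : z1 = z <;> by_cases h2 : x1 = x <;> simp [h1, h2]

lemma entry_amp_matUnit_mul (q : Op (Z × X)) (z z' : Z) (x x' : X) :
    entry (amp Z (matUnit x x') * q) (z, x) (z', x') = entry q (z, x') (z', x') := by
  rw [entry_eq_apply, entry_eq_apply]
  change (amp Z (matUnit x x') (q (delta (z', x')))) (z, x) = _
  rw [amp_apply, matUnit_apply]
  change (slice (q (delta (z', x'))) z) x' * (delta x : Hil X) x = _
  rw [slice_apply, delta_apply]
  simp

lemma entry_mul_amp_matUnit (q : Op (Z × X)) (y : Z × X) (z' : Z) (x x' : X) :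
    entry (q * amp Z (matUnit x x')) y (z', x') = entry q y (z', x) := by
  rw [entry_eq_apply, entry_eq_apply]
  change (q (amp Z (matUnit x x') (delta (z', x')))) y = _
  rw [amp_matUnit_delta]

lemma entry_commutant (q : Op (Z × X)) (x x' : X)
    (hq : q * amp Z (matUnit x x') = amp Z (matUnit x x') * q) (z z' : Z) :
    entry q (z, x) (z', x) = entry q (z, x') (z', x') := by
  rw [← entry_mul_amp_matUnit q (z, x) z' x x', hq, entry_amp_matUnit_mul]

lemma matUnit_compact (x x' : X) : IsCompactOperator (matUnit x x' : Op X) := by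
  have h1 : IsCompactOperator (ContinuousLinearMap.toSpanSingleton ℂ (delta x : Hil X)) :=
    isCompactOperator_of_locallyCompactSpace_rng _
  have h2 := h1.comp_clm (innerSL ℂ (delta x' : Hil X))
  have h3 : (matUnit x x' : Hil X → Hil X) =
      (ContinuousLinearMap.toSpanSingleton ℂ (delta x : Hil X)) ∘ (innerSL ℂ (delta x' : Hil X)) := by
    funext v
    rw [matUnit_apply]
    simp [inner_delta]
  rw [h3]
  exact h2

lemma matUnit_rankOne (x : X) : IsRankOneProj (matUnit x x : Op X) := by
  refine ⟨⟨?_, ?_⟩, ?_⟩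
  · change matUnit x x * matUnit x x = matUnit x x
    refine ContinuousLinearMap.ext (fun v => ?_)
    change matUnit x x (matUnit x x v) = matUnit x x v
    rw [matUnit_apply x x v, map_smul, matUnit_apply]
    congr 1
    rw [delta_apply]
    simp
  · change star (matUnit x x) = matUnit x x
    rw [ContinuousLinearMap.star_eq_adjoint]
    symm
    rw [ContinuousLinearMap.eq_adjoint_iff]
    intro v w
    rw [matUnit_apply, matUnit_apply, inner_smul_left, inner_smul_right, inner_delta,
      ← inner_conj_symm, inner_delta, mul_comm]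
  · rw [finrank_eq_one_iff']
    have hx : matUnit x x (delta x) = delta x := by
      rw [matUnit_apply, delta_apply]
      simp
    refine ⟨⟨delta x, ⟨delta x, hx⟩⟩, ?_, ?_⟩
    · intro h
      have h1 : (delta x : Hil X) = 0 := congrArg Subtype.val h
      have h2 := norm_delta x
      rw [h1, norm_zero] at h2
      exact zero_ne_one h2
    · rintro ⟨w, v, rfl⟩
      refine ⟨v x, ?_⟩
      apply Subtype.ext
      change v x • delta x = matUnit x x v
      rw [matUnit_apply]

end Pool.Agent.Helper58.Roe
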