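import Pool.Agent.Helper58.RoeMain
import Pool.Agent.Helper58.RoeSpaces

/-!
# Embeddings of uniform Roe algebras without rank preserving cut-downs

We answer question Q1 of `MP_ab5103_an` negatively, even under property A of the target, and
even for unital compact preserving embeddings.  The source is `ℕ` with the metric
`d(m,n) = 1 + max m n` for `m ≠ n`, the target is `Bool × ℕ` with the metric
`d((b,m),(c,n)) = 1 + max m n` for `(b,m) ≠ (c,n)`.
-/

set_option autoImplicit false

noncomputable section

namespace Pool.Agent.Helper58.RoeRank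

open scoped Classical Topology
open Filter
open Pool.Agent.Helper58.Roe

/-- The doubled sparse space. -/
instance instY : MetricSpace (Bool × SpN) := sparseMetric (Bool × SpN) (fun y => nv y.2)

lemma y_dist {y y' : Bool × SpN} (h : y ≠ y') :
    dist y y' = 1 + max (nv y.2 : ℝ) (nv y'.2 : ℝ) := if_neg h

/-- The involution. -/
def sig (y : Bool × SpN) : Bool × SpN := (!y.1, y.2)

lemma sig_sig (y : Bool × SpN) : sig (sig y) = y := by
  unfold sig
  simp

lemma sig_ne (y : Bool × SpN) : y ≠ sig y := by
  intro h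
  have h1 : y.1 = !y.1 := congrArg Prod.fst h
  cases hb : y.1 <;> rw [hb] at h1 <;> simp at h1

/-- `(√2)⁻¹` -/
def c2 : ℝ := (Real.sqrt 2)⁻¹

lemma c2_sq : c2 ^ 2 = 1 / 2 := by
  unfold c2
  rw [inv_pow, Real.sq_sqrt (by norm_num)]
  norm_num

/-- The diagonal coefficients. -/
def alp (y : Bool × SpN) : ℝ :=
  if Even (nv y.2) then 1 else (if y.1 = true then -c2 else c2)

/-- The off-diagonal coefficients. -/
def bet (y : Bool × SpN) : ℝ := if Even (nv y.2) then 0 else c2

/-- The reflection. -/
def U : Refl (Bool × SpN) where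
  σ := sig
  α := alp
  β := bet
  hσ := sig_sig
  h1 := fun y => by
    unfold alp bet
    have := c2_sq
    split_ifs <;> nlinarith
  h2 := fun _ => rfl
  h3 := fun y => by
    unfold alp bet sig
    by_cases h : Even (nv y.2)
    · simp [h]
    · cases hb : y.1 <;> simp [h]

lemma finProp_tw (a : Op SpN) (ha : FinProp (stdBasis SpN) a) :
    FinProp (stdBasis (Bool × SpN)) (tw U a) := by
  obtain ⟨r, hr⟩ := (finProp_iff a).1 ha
  rw [finProp_iff]
  refine ⟨max r 0, fun y y' h => ?_⟩
  rcases entry_tw_ne U (fun y => rfl) h with h1 | ⟨h1, h2, -⟩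
  · rw [h1, dist_self]; positivity
  · have h3 := hr _ _ h2
    rw [spN_dist h1] at h3
    have hne : y ≠ y' := fun h => h1 (by rw [h])
    rw [y_dist hne]
    exact h3.trans (le_max_left _ _)

lemma isEmbedding : IsEmbedding (stdBasis SpN) (stdBasis (Bool × SpN)) (tw U) :=
  tw_isEmbedding U finProp_tw

/-! ### The embedding is compact preserving -/

/-- The slice map as a bounded operator. -/
def sliceCLM (X : Type) (b : Bool) : Hil (Bool × X) →L[ℂ] Hil X :=
  LinearMap.mkContinuous
    { toFun := fun v => slice v b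
      map_add' := fun v w => slice_add v w b
      map_smul' := fun c v => slice_smul c v b } 1 (by
      intro v
      refine le_of_sq_le_sq ?_ (by positivity)
      rw [one_mul, norm_sq_eq_slice]
      exact (summable_norm_slice v).le_tsum b (fun _ _ => by positivity))

lemma sliceCLM_apply {X : Type} (b : Bool) (v : Hil (Bool × X)) : sliceCLM X b v = slice v b := rfl

lemma amp_eq {X : Type} (a : Op X) : amp Bool a =
    ContinuousLinearMap.adjoint (sliceCLM X false) ∘L (a ∘L sliceCLM X false) +
    ContinuousLinearMap.adjoint (sliceCLM X true) ∘L (a ∘L sliceCLM X true) := by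
  refine ContinuousLinearMap.ext (fun v => ?_)
  refine ext_inner_left ℂ (fun w => ?_)
  rw [inner_eq_slice, tsum_bool]
  change _ = inner ℂ w (ContinuousLinearMap.adjoint (sliceCLM X false) (a (sliceCLM X false v)) +
    ContinuousLinearMap.adjoint (sliceCLM X true) (a (sliceCLM X true v)))
  rw [inner_add_right, ContinuousLinearMap.adjoint_inner_right,
    ContinuousLinearMap.adjoint_inner_right]
  rfl

lemma amp_compact {X : Type} {a : Op X} (ha : IsCompactOperator a) :
    IsCompactOperator (amp Bool a) := by
  rw [amp_eq]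
  exact ((ha.comp_clm (sliceCLM X false)).clm_comp
    (ContinuousLinearMap.adjoint (sliceCLM X false))).add
    ((ha.comp_clm (sliceCLM X true)).clm_comp (ContinuousLinearMap.adjoint (sliceCLM X true)))

lemma tw_compact {a : Op SpN} (ha : IsCompactOperator a) : IsCompactOperator (tw U a) :=
  ((amp_compact ha).comp_clm U.op).clm_comp U.op

/-! ### The relative commutant -/

section

variable {p : Op (Bool × SpN)} (hp : p ∈ RoeOf (Bool × SpN)) (hproj : IsStarProjection p)
  (hcomm : ∀ a ∈ RoeOf SpN, p * tw U a = tw U a * p)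

/-- The untwisted projection. -/
def q (p : Op (Bool × SpN)) : Op (Bool × SpN) := U.op * p * U.op

lemma p_eq (p : Op (Bool × SpN)) : p = U.op * q p * U.op := by
  have hUU := U.op_mul_op
  unfold q
  calc p = 1 * p * 1 := by rw [one_mul, mul_one]
    _ = (U.op * U.op) * p * (U.op * U.op) := by rw [hUU]
    _ = U.op * (U.op * p * U.op) * U.op := by simp only [mul_assoc]

include hproj in
lemma q_mul_q : q p * q p = q p := by
  have hUU := U.op_mul_op
  unfold q
  calc U.op * p * U.op * (U.op * p * U.op) = U.op * p * (U.op * U.op) * p * U.op := by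
        simp only [mul_assoc]
    _ = U.op * (p * p) * U.op := by rw [hUU, mul_one]; simp only [mul_assoc]
    _ = U.op * p * U.op := by rw [hproj.isIdempotentElem.eq]

include hproj in
lemma q_star : star (q p) = q p := by
  unfold q
  rw [star_mul, star_mul, U.op_star, hproj.isSelfAdjoint.star_eq, mul_assoc]

include hcomm in
lemma q_comm (a : Op SpN) (ha : a ∈ RoeOf SpN) :
    q p * amp Bool a = amp Bool a * q p := by
  have hUU := U.op_mul_op
  have h := hcomm a ha
  have h2 : U.op * (p * tw U a) * U.op = U.op * (tw U a * p) * U.op := by rw [h]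
  unfold tw at h2
  unfold q
  calc U.op * p * U.op * amp Bool a = U.op * p * U.op * amp Bool a * 1 := by rw [mul_one]
    _ = U.op * p * U.op * amp Bool a * (U.op * U.op) := by rw [hUU]
    _ = U.op * (p * (U.op * amp Bool a * U.op)) * U.op := by simp only [mul_assoc]
    _ = U.op * (U.op * amp Bool a * U.op * p) * U.op := h2
    _ = (U.op * U.op) * amp Bool a * (U.op * p * U.op) := by simp only [mul_assoc]
    _ = amp Bool a * (U.op * p * U.op) := by rw [hUU, one_mul]

include hcomm in
lemma q_entry (b b' : Bool) (m : SpN) :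
    entry (q p) (b, m) (b', m) = entry (q p) (b, mkN 0) (b', mkN 0) :=
  entry_commutant (q p) m (mkN 0) (q_comm hcomm _ (matUnit_mem _ _)) b b'

include hp in
lemma p_small {ε : ℝ} (hε : 0 < ε) : ∃ N : ℕ, ∀ (b : Bool) (m : ℕ), N < m →
    ‖entry p (b, mkN m) (!b, mkN m)‖ < ε := by
  obtain ⟨R, hR⟩ := entry_small hp hε
  refine ⟨⌈R⌉₊, fun b m hm => hR _ _ ?_⟩
  have hne : ((b, mkN m) : Bool × SpN) ≠ (!b, mkN m) := sig_ne (b, mkN m)
  rw [y_dist hne]
  have h1 : R ≤ ⌈R⌉₊ := Nat.le_ceil R
  have h2 : ((⌈R⌉₊ : ℕ) : ℝ) < m := by exact_mod_cast hm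
  have h3 : (m : ℝ) ≤ max (nv (mkN m) : ℝ) (nv (mkN m) : ℝ) := le_max_left _ _
  change R < 1 + max (nv (mkN m) : ℝ) (nv (mkN m) : ℝ)
  linarith

include hp hcomm in
lemma q_off (b : Bool) : entry (q p) (b, mkN 0) (!b, mkN 0) = 0 := by
  by_contra hne
  have hpos : 0 < ‖entry (q p) (b, mkN 0) (!b, mkN 0)‖ := norm_pos_iff.2 hne
  obtain ⟨N, hN⟩ := p_small hp hpos
  have hsm := hN b (2 * (N + 1)) (by omega)
  have hent := U.entry_conj (q p) (b, mkN (2 * (N + 1))) (!b, mkN (2 * (N + 1)))
  rw [← p_eq] at hent
  have hev : Even (nv (mkN (2 * (N + 1)))) := even_two_mul _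
  have ea : ∀ b : Bool, U.α (b, mkN (2 * (N + 1))) = 1 := by
    intro b
    change alp _ = 1
    unfold alp
    rw [if_pos hev]
  have eb : ∀ b : Bool, U.β (b, mkN (2 * (N + 1))) = 0 := by
    intro b
    change bet _ = 0
    unfold bet
    rw [if_pos hev]
  rw [ea, ea, eb, eb, q_entry hcomm] at hent
  rw [hent] at hsm
  simp at hsm

include hp hcomm in
lemma q_diag : entry (q p) (true, mkN 0) (true, mkN 0) =
    entry (q p) (false, mkN 0) (false, mkN 0) := by
  by_contra hne
  rw [← sub_eq_zero] at hne
  set D := entry (q p) (true, mkN 0) (true, mkN 0) - entry (q p) (false, mkN 0) (false, mkN 0)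
    with hD
  have hpos : 0 < ‖D‖ / 2 := by
    have := norm_pos_iff.2 hne
    positivity
  obtain ⟨N, hN⟩ := p_small hp hpos
  have hsm := hN true (2 * N + 1) (by omega)
  have hent := U.entry_conj (q p) (true, mkN (2 * N + 1)) (false, mkN (2 * N + 1))
  rw [← p_eq] at hent
  have hev : ¬ Even (nv (mkN (2 * N + 1))) := by
    change ¬ Even (2 * N + 1)
    rw [Nat.not_even_iff_odd]
    exact odd_two_mul_add_one N
  have e1 : U.α (true, mkN (2 * N + 1)) = -c2 := by
    change alp _ = _
    unfold alp
    rw [if_neg hev]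
    rfl
  have e2 : U.α (false, mkN (2 * N + 1)) = c2 := by
    change alp _ = _
    unfold alp
    rw [if_neg hev]
    rfl
  have eb : ∀ b : Bool, U.β (b, mkN (2 * N + 1)) = c2 := by
    intro b
    change bet _ = _
    unfold bet
    rw [if_neg hev]
  have s1 : U.σ (true, mkN (2 * N + 1)) = (false, mkN (2 * N + 1)) := rfl
  have s2 : U.σ (false, mkN (2 * N + 1)) = (true, mkN (2 * N + 1)) := rfl
  have o1 : entry (q p) (true, mkN 0) (false, mkN 0) = 0 := q_off hp hcomm true
  have o2 : entry (q p) (false, mkN 0) (true, mkN 0) = 0 := q_off hp hcomm false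
  rw [e1, e2, eb, eb, s1, s2, q_entry hcomm true false, q_entry hcomm true true,
    q_entry hcomm false false, q_entry hcomm false true, o1, o2] at hent
  have hc : ((c2 : ℝ) : ℂ) * ((c2 : ℝ) : ℂ) = 1 / 2 := by
    have h9 : ((c2 ^ 2 : ℝ) : ℂ) = ((1 / 2 : ℝ) : ℂ) := by rw [c2_sq]
    rw [← sq, ← Complex.ofReal_pow, h9]
    push_cast
    rfl
  have hval : entry p (true, mkN (2 * N + 1)) (false, mkN (2 * N + 1)) = -(1 / 2) * D := by
    rw [hent, hD]
    push_cast
    linear_combination (-(entry (q p) (true, mkN 0) (true, mkN 0))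
      + entry (q p) (false, mkN 0) (false, mkN 0)) * hc
  have hsm' : ‖entry p (true, mkN (2 * N + 1)) (false, mkN (2 * N + 1))‖ < ‖D‖ / 2 := hsm
  rw [hval, norm_mul] at hsm'
  norm_num at hsm'
  linarith

include hp hproj hcomm in
/-- The key lemma: the cut-down of the rank-one projection `e_00` does not have rank one. -/
lemma key (hrank : Module.finrank ℂ (LinearMap.range
    ((p * tw U (matUnit (mkN 0) (mkN 0)) * p : Op (Bool × SpN)) :
      Hil (Bool × SpN) →ₗ[ℂ] Hil (Bool × SpN))) = 1) : False := by
  set c := entry (q p) (false, mkN 0) (false, mkN 0) with hc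
  have hdiag : ∀ b : Bool, entry (q p) (b, mkN 0) (b, mkN 0) = c := by
    intro b
    cases b
    · rfl
    · exact q_diag hp hcomm
  by_cases hc0 : c = 0
  · -- `q = 0`
    have hq0 : ∀ y : Bool × SpN, q p (delta y) = 0 := by
      rintro ⟨b, m⟩
      have h1 : entry (q p) (b, m) (b, m) = 0 := by
        rw [q_entry hcomm, hdiag, hc0]
      have h2 : inner ℂ (q p (delta (b, m))) (q p (delta (b, m))) = (0 : ℂ) := by
        have h3 : inner ℂ (q p (delta (b, m))) (q p (delta (b, m)))
            = entry (star (q p) * q p) (b, m) (b, m) := by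
          unfold entry
          change _ = inner ℂ (delta (b, m)) ((star (q p)) (q p (delta (b, m))))
          rw [ContinuousLinearMap.star_eq_adjoint,
            ContinuousLinearMap.adjoint_inner_right]
        rw [h3, q_star hproj, q_mul_q hproj, h1]
      exact inner_self_eq_zero.1 h2
    have hq00 : q p = 0 := op_eq_zero_of_delta (q p) hq0
    have hp0 : p = 0 := by rw [p_eq p, hq00, mul_zero, zero_mul]
    rw [hp0, zero_mul, zero_mul] at hrank
    have : ((0 : Op (Bool × SpN)) : Hil (Bool × SpN) →ₗ[ℂ] Hil (Bool × SpN)) = 0 := rfl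
    rw [this, LinearMap.range_zero, finrank_bot] at hrank
    exact zero_ne_one hrank
  · -- both `δ_(b,0)` are eigenvectors
    have heig : ∀ b : Bool, q p (delta (b, mkN 0)) = c • delta (b, mkN 0) := by
      intro b
      have h1 : amp Bool (matUnit (mkN 0) (mkN 0)) (delta (b, mkN 0)) = delta (b, mkN 0) :=
        amp_matUnit_delta b (mkN 0) (mkN 0)
      have h2 : q p (delta (b, mkN 0)) =
          amp Bool (matUnit (mkN 0) (mkN 0)) (q p (delta (b, mkN 0))) := by
        have h3 := congrArg (fun T : Op (Bool × SpN) => T (delta (b, mkN 0)))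
          (q_comm hcomm _ (matUnit_mem (mkN 0) (mkN 0)))
        have h4 : q p (amp Bool (matUnit (mkN 0) (mkN 0)) (delta (b, mkN 0))) =
          amp Bool (matUnit (mkN 0) (mkN 0)) (q p (delta (b, mkN 0))) := h3
        rw [h1] at h4
        exact h4
      refine Hil.ext (fun y => ?_)
      obtain ⟨b', m⟩ := y
      rw [h2, amp_apply, matUnit_apply]
      change (slice (q p (delta (b, mkN 0))) b') (mkN 0) * (delta (mkN 0) : Hil SpN) m =
        c * (delta (b, mkN 0) : Hil (Bool × SpN)) (b', m)
      rw [slice_apply, delta_apply, delta_apply, ← entry_eq_apply]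
      by_cases hb : b' = b
      · subst hb
        rw [hdiag]
        by_cases hm : m = mkN 0 <;> simp [hm]
      · have : b' = !b := by cases b <;> cases b' <;> simp_all
        have h5 : entry (q p) (b', mkN 0) (b, mkN 0) = 0 := by
          have h6 := q_off hp hcomm b'
          have h7 : (!b') = b := by rw [this]; simp
          rw [h7] at h6
          exact h6
        rw [h5]
        simp [hb]
    set T : Op (Bool × SpN) := p * tw U (matUnit (mkN 0) (mkN 0)) * p with hT
    have hTU : ∀ b : Bool, T (U.op (delta (b, mkN 0))) = (c * c) • U.op (delta (b, mkN 0)) := by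
      intro b
      have h1 : T * U.op = U.op * (q p * amp Bool (matUnit (mkN 0) (mkN 0)) * q p) := by
        rw [hT]
        unfold tw q
        have hUU := U.op_mul_op
        calc p * (U.op * amp Bool (matUnit (mkN 0) (mkN 0)) * U.op) * p * U.op
            = 1 * (p * (U.op * amp Bool (matUnit (mkN 0) (mkN 0)) * U.op) * p * U.op) := by
              rw [one_mul]
          _ = (U.op * U.op) * (p * (U.op * amp Bool (matUnit (mkN 0) (mkN 0)) * U.op) * p *
              U.op) := by rw [hUU]
          _ = _ := by simp only [mul_assoc]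
      have h2 : (T * U.op) (delta (b, mkN 0)) =
          (U.op * (q p * amp Bool (matUnit (mkN 0) (mkN 0)) * q p)) (delta (b, mkN 0)) := by
        rw [h1]
      change T (U.op (delta (b, mkN 0))) = U.op (q p (amp Bool (matUnit (mkN 0) (mkN 0))
        (q p (delta (b, mkN 0))))) at h2
      rw [h2, heig, map_smul, amp_matUnit_delta b (mkN 0) (mkN 0), map_smul, heig, map_smul,
        map_smul, smul_smul]
    obtain ⟨v, hv, hspan⟩ := finrank_eq_one_iff'.1 hrank
    have hmem : ∀ b : Bool, U.op (delta (b, mkN 0)) ∈ LinearMap.range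
        (T : Hil (Bool × SpN) →ₗ[ℂ] Hil (Bool × SpN)) := by
      intro b
      refine ⟨(c * c)⁻¹ • U.op (delta (b, mkN 0)), ?_⟩
      change T ((c * c)⁻¹ • U.op (delta (b, mkN 0))) = _
      rw [map_smul, hTU, smul_smul, inv_mul_cancel₀ (mul_ne_zero hc0 hc0), one_smul]
    obtain ⟨s, hs⟩ := hspan ⟨_, hmem false⟩
    obtain ⟨t, ht⟩ := hspan ⟨_, hmem true⟩
    have hs' : s • (v : Hil (Bool × SpN)) = U.op (delta (false, mkN 0)) := congrArg Subtype.val hs
    have ht' : t • (v : Hil (Bool × SpN)) = U.op (delta (true, mkN 0)) := congrArg Subtype.val ht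
    have h1 : t • U.op (delta (false, mkN 0)) = s • U.op (delta (true, mkN 0)) := by
      rw [← hs', ← ht', smul_smul, smul_smul, mul_comm]
    have hUinv : ∀ w : Hil (Bool × SpN), U.op (U.op w) = w := by
      intro w
      have := congrArg (fun T : Op (Bool × SpN) => T w) U.op_mul_op
      exact this
    have h2 : t • (delta (false, mkN 0) : Hil (Bool × SpN)) = s • delta (true, mkN 0) := by
      have h3 := congrArg (fun w => U.op w) h1
      simp only [map_smul] at h3
      rw [hUinv, hUinv] at h3
      exact h3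
    have h4 : t = 0 := by
      have h5 := congrArg (fun w : Hil (Bool × SpN) => w (false, mkN 0)) h2
      change t * (delta (false, mkN 0) : Hil (Bool × SpN)) (false, mkN 0) =
        s * (delta (true, mkN 0) : Hil (Bool × SpN)) (false, mkN 0) at h5
      rw [delta_apply, delta_apply] at h5
      simpa using h5
    rw [h4, zero_smul] at ht'
    have h6 : (delta (true, mkN 0) : Hil (Bool × SpN)) = 0 := by
      rw [← hUinv (delta (true, mkN 0)), ← ht', map_zero]
    have h7 := norm_delta (X := Bool × SpN) (true, mkN 0)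
    rw [h6, norm_zero] at h7
    exact zero_ne_one h7

end

/-- **Negative answer to Q1 of `MP_ab5103_an`, also under property A.** There are uniformly
locally finite metric spaces `X`, `Y`, where `Y` has property A, and a (unital and compact
preserving) embedding `Φ` of the uniform Roe algebra of `X` into that of `Y`, such that for no
projection `p` in the relative commutant of the image of `Φ` the map `a ↦ p Φ(a) p` is a rank
preserving embedding. -/
theorem main : ∃ (X Y : Type) (_ : MetricSpace X) (_ : MetricSpace Y),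
    ULF X ∧ ULF Y ∧ PropertyA Y ∧
    ExistsEmbeddingWithoutRankCutdown (stdBasis X) (stdBasis Y) := by
  refine ⟨SpN, Bool × SpN, inferInstance, instY, ?_, ?_, ?_, tw U, isEmbedding, tw_one U,
    fun a _ ha => tw_compact ha, ?_⟩
  · exact sparse_ulf SpN _ (fun n => Set.finite_le_nat n)
  · refine sparse_ulf (Bool × SpN) _ (fun n => ?_)
    have : {t : Bool × SpN | nv t.2 ≤ n} = Set.univ ×ˢ {t : SpN | nv t ≤ n} := by
      ext t; simp
    rw [this]
    exact Set.finite_univ.prod (Set.finite_le_nat n)
  · exact propertyA_of_rep _ (sparse_rep (Bool × SpN) _ (true, mkN 0))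
  · rintro ⟨p, ⟨hpm, hproj, hcomm⟩, hemb, hrk⟩
    exact key hpm hproj hcomm (hrk _ (matUnit_mem _ _) (matUnit_rankOne (mkN 0))).2

end Pool.Agent.Helper58.RoeRank
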